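import Pool.Agent.Lib.MP_396e7f_gt.Defs

open Set
open scoped RealInnerProductSpace

namespace Pool.Agent.Lib.MP_396e7f_gt

theorem inner3 (x y : E3) : ⟪x, y⟫ = x 0 * y 0 + x 1 * y 1 + x 2 * y 2 := by
  simp [PiLp.inner_apply, Fin.sum_univ_three]; ring

theorem ext3 {x y : E3} (h0 : x 0 = y 0) (h1 : x 1 = y 1) (h2 : x 2 = y 2) : x = y := by
  ext i; fin_cases i
  exacts [h0, h1, h2]

/-- A vector given by its coordinates. -/
noncomputable def vec (a b c : ℝ) : E3 := !₂[a, b, c]

@[simp] theorem vec0 (a b c : ℝ) : vec a b c 0 = a := rfl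
@[simp] theorem vec1 (a b c : ℝ) : vec a b c 1 = b := rfl
@[simp] theorem vec2 (a b c : ℝ) : vec a b c 2 = c := rfl

theorem continuous_vec {X : Type*} [TopologicalSpace X] {a b c : X → ℝ} (ha : Continuous a)
    (hb : Continuous b) (hc : Continuous c) : Continuous fun p => vec (a p) (b p) (c p) := by
  refine (PiLp.continuous_toLp 2 _).comp (continuous_pi fun i => ?_)
  fin_cases i
  exacts [ha, hb, hc]

/-- The cross product. -/
noncomputable def cross (x y : E3) : E3 :=
  vec (x 1 * y 2 - x 2 * y 1) (x 2 * y 0 - x 0 * y 2) (x 0 * y 1 - x 1 * y 0)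

@[simp] theorem cross0 (x y : E3) : cross x y 0 = x 1 * y 2 - x 2 * y 1 := rfl
@[simp] theorem cross1 (x y : E3) : cross x y 1 = x 2 * y 0 - x 0 * y 2 := rfl
@[simp] theorem cross2 (x y : E3) : cross x y 2 = x 0 * y 1 - x 1 * y 0 := rfl

/-- The cross product as a continuous bilinear map. -/
noncomputable def crossL : E3 →L[ℝ] E3 →L[ℝ] E3 :=
  LinearMap.toContinuousLinearMap
    { toFun := fun x => LinearMap.toContinuousLinearMap
        { toFun := cross x
          map_add' := fun y z => by apply ext3 <;> simp <;> ring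
          map_smul' := fun t y => by apply ext3 <;> simp <;> ring }
      map_add' := fun x y => by ext1 z; apply ext3 <;> simp <;> ring
      map_smul' := fun t x => by ext1 z; apply ext3 <;> simp <;> ring }

@[simp] theorem crossL_apply (x y : E3) : crossL x y = cross x y := rfl

@[fun_prop]
theorem continuous_cross {X : Type*} [TopologicalSpace X] {f g : X → E3} (hf : Continuous f)
    (hg : Continuous g) : Continuous fun p => cross (f p) (g p) :=
  (crossL.continuous.comp hf).clm_apply hg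

@[fun_prop]
theorem continuousOn_cross {X : Type*} [TopologicalSpace X] {f g : X → E3} {s : Set X}
    (hf : ContinuousOn f s) (hg : ContinuousOn g s) : ContinuousOn (fun p => cross (f p) (g p)) s :=
  (crossL.continuous.comp_continuousOn hf).clm_apply hg

theorem contDiffAt_cross {X : Type*} [NormedAddCommGroup X] [NormedSpace ℝ X] {f g : X → E3}
    {p : X} (hf : ContDiffAt ℝ 1 f p) (hg : ContDiffAt ℝ 1 g p) :
    ContDiffAt ℝ 1 (fun p => cross (f p) (g p)) p :=
  (crossL.contDiff.contDiffAt.comp p hf).clm_apply hg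

/-- An orthonormal pair. -/
def Fr (x e : E3) : Prop := ⟪x, x⟫ = 1 ∧ ⟪x, e⟫ = 0 ∧ ⟪e, e⟫ = 1

/-- The vector with coordinates `c` in the frame `(x, e, x × e)`. -/
noncomputable def fr (x e c : E3) : E3 := c 0 • x + c 1 • e + c 2 • cross x e

theorem fr_add (x e c d : E3) : fr x e (c + d) = fr x e c + fr x e d := by
  apply ext3 <;> simp [fr] <;> ring
theorem fr_smul (x e : E3) (t : ℝ) (c : E3) : fr x e (t • c) = t • fr x e c := by
  apply ext3 <;> simp [fr] <;> ring
theorem fr_neg (x e c : E3) : fr x e (-c) = -fr x e c := by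
  apply ext3 <;> simp [fr] <;> ring
theorem fr_sub (x e c d : E3) : fr x e (c - d) = fr x e c - fr x e d := by
  apply ext3 <;> simp [fr] <;> ring

@[fun_prop]
theorem continuous_fr {X : Type*} [TopologicalSpace X] {x e c : X → E3} (hx : Continuous x)
    (he : Continuous e) (hc : Continuous c) : Continuous fun p => fr (x p) (e p) (c p) := by
  unfold fr; fun_prop

@[fun_prop]
theorem continuousOn_fr {X : Type*} [TopologicalSpace X] {x e c : X → E3} {s : Set X}
    (hx : ContinuousOn x s) (he : ContinuousOn e s) (hc : ContinuousOn c s) :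
    ContinuousOn (fun p => fr (x p) (e p) (c p)) s := by
  unfold fr; fun_prop

theorem Fr.inner_fr {x e : E3} (h : Fr x e) (c d : E3) : ⟪fr x e c, fr x e d⟫ = ⟪c, d⟫ := by
  obtain ⟨h1, h2, h3⟩ := h
  simp only [inner3, fr, PiLp.add_apply, PiLp.smul_apply, smul_eq_mul, cross0, cross1,
    cross2] at *
  beta_reduce at *
  grind

theorem Fr.norm_fr {x e : E3} (h : Fr x e) (c : E3) : ‖fr x e c‖ = ‖c‖ := by
  rw [norm_eq_sqrt_real_inner, h.inner_fr, ← norm_eq_sqrt_real_inner]

theorem Fr.cross_fr {x e : E3} (h : Fr x e) (c d : E3) :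
    cross (fr x e c) (fr x e d) = fr x e (cross c d) := by
  obtain ⟨h1, h2, h3⟩ := h
  apply ext3 <;>
  simp only [inner3, fr, PiLp.add_apply, PiLp.smul_apply, smul_eq_mul, cross0, cross1,
    cross2] at * <;> beta_reduce at * <;> grind

theorem Fr.expand {x e : E3} (h : Fr x e) (y : E3) :
    fr x e (vec ⟪x, y⟫ ⟪e, y⟫ ⟪cross x e, y⟫) = y := by
  obtain ⟨h1, h2, h3⟩ := h
  apply ext3 <;>
  simp only [inner3, fr, PiLp.add_apply, PiLp.smul_apply, smul_eq_mul, cross0, cross1,
    cross2, vec0, vec1, vec2] at * <;> beta_reduce at * <;> grind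

theorem Fr.fr_inj {x e : E3} (h : Fr x e) {c d : E3} (hcd : fr x e c = fr x e d) : c = d := by
  have : ‖c - d‖ = 0 := by rw [← h.norm_fr, fr_sub, hcd, sub_self, norm_zero]
  exact sub_eq_zero.1 (norm_eq_zero.1 this)

theorem fr_e0 (x e : E3) : fr x e (vec 1 0 0) = x := by simp [fr]
theorem fr_e1 (x e : E3) : fr x e (vec 0 1 0) = e := by simp [fr]
theorem fr_e2 (x e : E3) : fr x e (vec 0 0 1) = cross x e := by simp [fr]

/-- Rotation of angle `t` about the unit vector `y`. -/
noncomputable def rot (y : E3) (t : ℝ) (p : E3) : E3 :=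
  Real.cos t • p + Real.sin t • cross y p + ((1 - Real.cos t) * ⟪y, p⟫) • y

@[fun_prop]
theorem continuous_rot {X : Type*} [TopologicalSpace X] {y p : X → E3} {t : X → ℝ}
    (hy : Continuous y) (ht : Continuous t) (hp : Continuous p) :
    Continuous fun a => rot (y a) (t a) (p a) := by
  unfold rot; fun_prop

theorem rot_inner {y : E3} (hy : ⟪y, y⟫ = 1) (t : ℝ) (p q : E3) :
    ⟪rot y t p, rot y t q⟫ = ⟪p, q⟫ := by
  have h := Real.sin_sq_add_cos_sq t
  simp only [inner3, rot, PiLp.add_apply, PiLp.smul_apply, smul_eq_mul, cross0, cross1,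
    cross2] at *
  generalize Real.sin t = S at *
  generalize Real.cos t = C at *
  beta_reduce at *
  grind

theorem rot_cross {y : E3} (hy : ⟪y, y⟫ = 1) (t : ℝ) (p q : E3) :
    cross (rot y t p) (rot y t q) = rot y t (cross p q) := by
  have h := Real.sin_sq_add_cos_sq t
  apply ext3 <;>
  simp only [inner3, rot, PiLp.add_apply, PiLp.smul_apply, smul_eq_mul, cross0, cross1,
    cross2] at * <;>
  generalize Real.sin t = S at * <;>
  generalize Real.cos t = C at * <;>
  beta_reduce at * <;>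
  grind

theorem rot_smul (y : E3) (t s : ℝ) (p : E3) : rot y t (s • p) = s • rot y t p := by
  apply ext3 <;> simp [rot, inner3] <;> ring

theorem rot_fr {y : E3} (hy : ⟪y, y⟫ = 1) (t : ℝ) (x e c : E3) :
    fr (rot y t x) (rot y t e) c = rot y t (fr x e c) := by
  rw [fr, rot_cross hy]
  apply ext3 <;> simp [rot, fr, inner3] <;> ring

theorem rot_self {y : E3} (hy : ⟪y, y⟫ = 1) (t : ℝ) : rot y t y = y := by
  rw [rot, hy]
  apply ext3 <;> simp <;> ring

theorem rot_zero (y p : E3) : rot y 0 p = p := by simp [rot]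

theorem rot_periodic (y : E3) (t : ℝ) (p : E3) : rot y (t + 2 * Real.pi) p = rot y t p := by
  simp [rot]

/-- Half-turn about the unit vector `m`. -/
noncomputable def half (m p : E3) : E3 := (2 * ⟪m, p⟫) • m - p

theorem rot_pi (m p : E3) : rot m Real.pi p = half m p := by
  apply ext3 <;> simp [rot, half] <;> ring

@[fun_prop]
theorem continuous_half {X : Type*} [TopologicalSpace X] {m p : X → E3}
    (hm : Continuous m) (hp : Continuous p) : Continuous fun a => half (m a) (p a) := by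
  unfold half; fun_prop

theorem half_fr {m : E3} (hm : ⟪m, m⟫ = 1) (x e c : E3) :
    fr (half m x) (half m e) c = half m (fr x e c) := by
  simp only [← rot_pi]; exact rot_fr hm _ _ _ _

theorem half_inner {m : E3} (hm : ⟪m, m⟫ = 1) (p q : E3) : ⟪half m p, half m q⟫ = ⟪p, q⟫ := by
  simp only [← rot_pi]; exact rot_inner hm _ _ _

theorem half_half {m : E3} (hm : ⟪m, m⟫ = 1) (p : E3) : half m (half m p) = p := by
  apply ext3 <;>
  simp only [inner3, half, PiLp.sub_apply, PiLp.smul_apply, smul_eq_mul] at * <;> beta_reduce at * <;> grind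

theorem half_smul (m : E3) (s : ℝ) (p : E3) : half m (s • p) = s • half m p := by
  simp only [← rot_pi]; exact rot_smul _ _ _ _

theorem half_neg (m p : E3) : half (-m) p = half m p := by
  apply ext3 <;> simp [half, inner3] <;> ring

theorem Fr.half {x e m : E3} (h : Fr x e) (hm : ⟪m, m⟫ = 1) : Fr (half m x) (half m e) := by
  simpa only [Fr, half_inner hm] using h

theorem Fr.fr_half {x e : E3} (h : Fr x e) (n c : E3) :
    fr x e (Pool.Agent.Lib.MP_396e7f_gt.half n c) =
      Pool.Agent.Lib.MP_396e7f_gt.half (fr x e n) (fr x e c) := by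
  rw [Pool.Agent.Lib.MP_396e7f_gt.half, Pool.Agent.Lib.MP_396e7f_gt.half, fr_sub, fr_smul,
    h.inner_fr]

/-- Tangent vectors to the space of orthonormal pairs. -/
def Tan (x e ξ η : E3) : Prop := ⟪x, ξ⟫ = 0 ∧ ⟪ξ, e⟫ + ⟪x, η⟫ = 0 ∧ ⟪e, η⟫ = 0

/-- Angular velocity in the moving frame. -/
noncomputable def ang (x e ξ η : E3) : E3 := vec ⟪cross x e, η⟫ (-⟪cross x e, ξ⟫) ⟪e, ξ⟫

theorem Fr.tan_fst {x e ξ η : E3} (h : Fr x e) (ht : Tan x e ξ η) :
    ξ = fr x e (vec 0 (ang x e ξ η 2) (-ang x e ξ η 1)) := by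
  conv_lhs => rw [← h.expand ξ]
  simp [ang, ht.1]

theorem Fr.tan_snd {x e ξ η : E3} (h : Fr x e) (ht : Tan x e ξ η) :
    η = fr x e (vec (-ang x e ξ η 2) 0 (ang x e ξ η 0)) := by
  conv_lhs => rw [← h.expand η]
  have : ⟪x, η⟫ = -⟪e, ξ⟫ := by rw [real_inner_comm ξ e]; linarith [ht.2.1]
  simp [ang, ht.2.2, this]

theorem Fr.deriv_fr {x e ξ η : E3} (h : Fr x e) (ht : Tan x e ξ η) (c : E3) :
    c 0 • ξ + c 1 • η + c 2 • (cross x η + cross ξ e) = fr x e (cross (ang x e ξ η) c) := by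
  have e1 := h.tan_fst ht
  have e2 := h.tan_snd ht
  generalize ang x e ξ η = ω at e1 e2
  have a1 : cross x η = fr x e (cross (vec 1 0 0) (vec (-ω 2) 0 (ω 0))) := by
    rw [← h.cross_fr, fr_e0, ← e2]
  have a2 : cross ξ e = fr x e (cross (vec 0 (ω 2) (-ω 1)) (vec 0 1 0)) := by
    rw [← h.cross_fr, fr_e1, ← e1]
  rw [a1, a2, e1, e2, ← fr_add, ← fr_smul, ← fr_smul, ← fr_smul, ← fr_add, ← fr_add]
  congr 1
  apply ext3 <;> simp <;> ring

theorem Fr.sasaki_eq {x e ξ η ξ' η' : E3} (h : Fr x e) (ht : Tan x e ξ η) (ht' : Tan x e ξ' η')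
    (r : ℝ) : sasaki x (ξ, r • η) (ξ', r • η') =
      r ^ 2 * (ang x e ξ η 0 * ang x e ξ' η' 0) + ang x e ξ η 1 * ang x e ξ' η' 1 +
        ang x e ξ η 2 * ang x e ξ' η' 2 := by
  have key : ∀ {ξ η : E3}, Tan x e ξ η → r • η - ⟪x, r • η⟫ • x =
      fr x e (vec 0 0 (r * ang x e ξ η 0)) := by
    intro ξ η ht
    have e2 := h.tan_snd ht
    generalize ang x e ξ η = ω at e2
    have : ⟪x, r • η⟫ = -(r * ω 2) := by
      have := h.inner_fr (vec 1 0 0) (r • vec (-ω 2) 0 (ω 0))
      rw [fr_e0, fr_smul, ← e2] at this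
      rw [this]
      simp [inner3]
    rw [this, e2]
    apply ext3 <;> simp [fr] <;> ring
  have e1 := h.tan_fst ht
  have e1' := h.tan_fst ht'
  simp only [sasaki]
  rw [key ht, key ht', h.inner_fr]
  generalize ang x e ξ η = ω at *
  generalize ang x e ξ' η' = ω' at *
  rw [e1, e1', h.inner_fr]
  simp [inner3]; ring

theorem triple_cross (ω ω' c : E3) :
    ⟪cross (cross ω c) (cross ω' c), c⟫ = ⟪cross ω ω', c⟫ * ⟪c, c⟫ := by
  simp only [inner3, cross0, cross1, cross2]; ring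

/-- The linear map `diag (1, r, r)`. -/
noncomputable def dil (r : ℝ) (c : E3) : E3 := vec (c 0) (r * c 1) (r * c 2)

theorem inner_dil (r : ℝ) (c d : E3) : ⟪c, dil r d⟫ = ⟪dil r c, d⟫ := by
  simp [inner3, dil]; ring

theorem gram_eq (r : ℝ) (ω ω' : E3) :
    (r ^ 2 * (ω 0 * ω 0) + ω 1 * ω 1 + ω 2 * ω 2) * (r ^ 2 * (ω' 0 * ω' 0) + ω' 1 * ω' 1 +
      ω' 2 * ω' 2) - (r ^ 2 * (ω 0 * ω' 0) + ω 1 * ω' 1 + ω 2 * ω' 2) ^ 2 =
      ‖dil r (cross ω ω')‖ ^ 2 := by
  rw [← real_inner_self_eq_norm_sq, inner3]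
  simp [dil]; ring

theorem mem_bundle_iff {r : ℝ} (hr : 0 < r) {z : E3 × E3} :
    z ∈ sphereBundle r ↔ Fr z.1 (r⁻¹ • z.2) := by
  simp only [sphereBundle, Fr, mem_ofPred_eq, inner_smul_left, inner_smul_right,
    real_inner_self_eq_norm_sq, conj_trivial]
  have h1 : ‖z.1‖ = 1 ↔ ‖z.1‖ ^ 2 = 1 := (sq_eq_sq₀ (norm_nonneg _) zero_le_one).symm.trans
    (by rw [one_pow])
  have h2 : ‖z.2‖ = r ↔ r⁻¹ * (r⁻¹ * ‖z.2‖ ^ 2) = 1 := by
    rw [← sq_eq_sq₀ (norm_nonneg _) hr.le]
    constructor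
    · intro h; rw [h]; field_simp
    · intro h; field_simp at h; exact h
  rw [h1, h2, mul_eq_zero, or_iff_right (inv_ne_zero hr.ne')]

end Pool.Agent.Lib.MP_396e7f_gt
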