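import Mathlib

open Set MeasureTheory
open scoped ENNReal RealInnerProductSpace

namespace Pool.Agent.Lib.MP_396e7f_gt

/-- Euclidean 3-space. -/
abbrev E3 : Type := EuclideanSpace ℝ (Fin 3)

/-- The bundle `T^r S^2` of tangent vectors of length `r` of the unit sphere. -/
def sphereBundle (r : ℝ) : Set (E3 × E3) := {z | ‖z.1‖ = 1 ∧ ⟪z.1, z.2⟫ = 0 ∧ ‖z.2‖ = r}

/-- The Sasaki metric at a point over `x`: for the velocity `(x', v')` of a curve `(x, v)`, the
covariant derivative of `v` is the part of `v'` orthogonal to `x`. -/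
noncomputable def sasaki (x : E3) (ξ η : E3 × E3) : ℝ :=
  ⟪ξ.1, η.1⟫ + ⟪ξ.2 - ⟪x, ξ.2⟫ • x, η.2 - ⟪x, η.2⟫ • x⟫

/-- The derivative of `φ` at `u` in the direction `w`. -/
noncomputable def dirDeriv {F : Type} [NormedAddCommGroup F] [NormedSpace ℝ F]
    (φ : ℝ × ℝ → F) (u w : ℝ × ℝ) : F := fderiv ℝ φ u w

/-- The Gram determinant `EG - F²` of two vectors for the Sasaki metric. -/
noncomputable def gramDet (x : E3) (ξ η : E3 × E3) : ℝ :=
  sasaki x ξ ξ * sasaki x η η - sasaki x ξ η ^ 2

/-- The area element `√(EG - F²)` of a parametrization, for the Sasaki metric. -/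
noncomputable def areaElement (φ : ℝ × ℝ → E3 × E3) (u : ℝ × ℝ) : ℝ :=
  √(gramDet (φ u).1 (dirDeriv φ u (1, 0)) (dirDeriv φ u (0, 1)))

/-- `φ` is a regular parametrization of a relatively open part of `S`: an immersion of class `C¹`
on the open set `W` of the plane and a homeomorphism from `W` onto an open subset of `S`. -/
def IsChart {F : Type} [NormedAddCommGroup F] [NormedSpace ℝ F]
    (S : Set F) (φ : ℝ × ℝ → F) (W : Set (ℝ × ℝ)) : Prop :=
  IsOpen W ∧ ContDiffOn ℝ 1 φ W ∧ (∀ u ∈ W, Function.Injective (dirDeriv φ u)) ∧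
    Topology.IsEmbedding (fun u : W => φ u) ∧ ∃ O, IsOpen O ∧ φ '' W = S ∩ O

/-- `S` is an embedded surface without boundary. -/
def IsSurface (S : Set (E3 × E3)) : Prop := ∀ z ∈ S, ∃ φ W, IsChart S φ W ∧ z ∈ φ '' W

/-- The Sasaki area of a surface: the supremum, over finite families of pairwise disjoint
measurable pieces of charts, of the sum of the integrals of the area element. -/
noncomputable def area (S : Set (E3 × E3)) : ℝ≥0∞ :=
  ⨆ (n : ℕ) (φ : Fin n → ℝ × ℝ → E3 × E3) (W : Fin n → Set (ℝ × ℝ)) (A : Fin n → Set (ℝ × ℝ))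
    (_ : (∀ i, IsChart S (φ i) (W i) ∧ MeasurableSet (A i) ∧ A i ⊆ W i) ∧
      Pairwise fun i j => Disjoint (φ i '' A i) (φ j '' A j)),
    ∑ i, ∫⁻ u in A i, ENNReal.ofReal (areaElement (φ i) u)

/-- `V` is a continuous tangent vector field of length `r` on a dense open subset `U` of the
unit sphere. -/
def IsVectorField (r : ℝ) (U : Set E3) (V : E3 → E3) : Prop :=
  (∃ O, IsOpen O ∧ U = Metric.sphere 0 1 ∩ O) ∧ Metric.sphere 0 1 ⊆ closure U ∧
    ContinuousOn V U ∧ ∀ x ∈ U, (x, V x) ∈ sphereBundle r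

/-- The closure `Σ_V` of the image of the section `V` over `U`. -/
def graphClosure (U : Set E3) (V : E3 → E3) : Set (E3 × E3) :=
  closure ((fun x => (x, V x)) '' U)

/-- The parallel transport field `P^{a,b}`. -/
noncomputable def parallelField (a b p : E3) : E3 := b - (⟪p, b⟫ / (1 + ⟪p, a⟫)) • (a + p)

/-- The parallel transport field of length `r`. -/
noncomputable def parField (r : ℝ) (a b p : E3) : E3 := r • parallelField a b p

/-- The unit sphere minus the antipode of `a`. -/
def punctured (a : E3) : Set E3 := Metric.sphere 0 1 \ {-a}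

/-- The vectors `a` and `b` are orthonormal. -/
def OrthoPair (a b : E3) : Prop := ‖a‖ = 1 ∧ ‖b‖ = 1 ∧ ⟪a, b⟫ = 0

end Pool.Agent.Lib.MP_396e7f_gt
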