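import Pool.Agent.Lib.MP_396e7f_gt.Lower

open Set Filter Metric MeasureTheory
open scoped RealInnerProductSpace Topology ENNReal

namespace Pool.Agent.Lib.MP_396e7f_gt

theorem exists_dep {p q s : E3} (h : ⟪cross p q, s⟫ = 0) :
    ∃ c : E3, c ≠ 0 ∧ c 0 • p + c 1 • q + c 2 • s = 0 := by
  obtain ⟨v, hv, e⟩ := (Matrix.exists_vecMul_eq_zero_iff
    (M := !![p 0, p 1, p 2; q 0, q 1, q 2; s 0, s 1, s 2])).2 (by
      rw [Matrix.det_fin_three]
      simp only [inner3, cross0, cross1, cross2] at h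
      simp
      linear_combination h)
  refine ⟨vec (v 0) (v 1) (v 2), fun h0 => hv ?_, ?_⟩
  · ext i
    fin_cases i
    exacts [congrArg (fun w : E3 => w 0) h0, congrArg (fun w : E3 => w 1) h0,
      congrArg (fun w : E3 => w 2) h0]
  · have e0 := congrFun e 0
    have e1 := congrFun e 1
    have e2 := congrFun e 2
    simp [Matrix.vecMul, dotProduct, Fin.sum_univ_three] at e0 e1 e2
    apply ext3 <;> simp
    exacts [e0, e1, e2]

/-- Euler's rotation theorem. -/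
theorem euler {x e x' e' : E3} (h : Fr x e) (h' : Fr x' e') :
    ∃ c : E3, c ≠ 0 ∧ fr x e c = fr x' e' c := by
  obtain ⟨c, hc, h0⟩ := exists_dep (p := x - x') (q := e - e') (s := cross x e - cross x' e') (by
    obtain ⟨h1, h2, h3⟩ := h
    obtain ⟨h4, h5, h6⟩ := h'
    simp only [inner3, PiLp.sub_apply, cross0, cross1, cross2] at *
    beta_reduce at *
    grind)
  refine ⟨c, hc, sub_eq_zero.1 ?_⟩
  rw [← h0, fr, fr]
  module

theorem Fr.fr_fr {x e : E3} (h : Fr x e) (c d w : E3) :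
    fr x e (fr c d w) = fr (fr x e c) (fr x e d) w := by
  rw [fr.eq_1 c, fr_add, fr_add, fr_smul, fr_smul, fr_smul, ← h.cross_fr, fr.eq_1 (fr x e c)]

theorem cross_unit {p q : E3} (h : Fr p q) :
    ⟪cross p q, cross p q⟫ = 1 ∧ ⟪cross p q, p⟫ = 0 ∧ ⟪cross p q, q⟫ = 0 := by
  obtain ⟨h1, h2, h3⟩ := h
  refine ⟨?_, ?_, ?_⟩ <;> simp only [inner3, cross0, cross1, cross2] at * <;> beta_reduce at * <;>
    grind

/-- A rotation that reverses a vector is a half-turn. -/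
theorem exists_half_of_neg {x e x' e' c : E3} (h : Fr x e) (h' : Fr x' e') (hc : c ≠ 0)
    (hneg : fr x' e' c = -fr x e c) : ∃ m : E3, ⟪m, m⟫ = 1 ∧ x' = half m x ∧ e' = half m e := by
  have hc1 := inner_self_normalize hc
  have hneg1 : fr x' e' (‖c‖⁻¹ • c) = -fr x e (‖c‖⁻¹ • c) := by rw [fr_smul, fr_smul, hneg, smul_neg]
  generalize ‖c‖⁻¹ • c = k at hc1 hneg1
  obtain ⟨d, hd, hdk⟩ := exists_unit_orth k
  have hkd : Fr k d := ⟨hc1, by rw [real_inner_comm, hdk], hd⟩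
  have hpq : Fr (fr x e k) (fr x e d) := by simpa only [Fr, h.inner_fr] using hkd
  have hq' : ⟪fr x' e' d, fr x' e' d⟫ = 1 := by rw [h'.inner_fr, hd]
  have hq'p : ⟪fr x' e' d, fr x e k⟫ = 0 := by
    rw [← neg_neg (fr x e k), ← hneg1, inner_neg_right, h'.inner_fr, hdk, neg_zero]
  obtain ⟨m, hm, hmp, hmq⟩ : ∃ m : E3, ⟪m, m⟫ = 1 ∧ ⟪m, fr x e k⟫ = 0 ∧
      half m (fr x e d) = fr x' e' d := by
    by_cases hs : fr x e d + fr x' e' d = 0
    · obtain ⟨a, b, b'⟩ := cross_unit hpq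
      refine ⟨_, a, b, ?_⟩
      rw [half, b', mul_zero, zero_smul, zero_sub]
      exact (eq_neg_of_add_eq_zero_right hs).symm
    · refine ⟨_, inner_self_normalize hs, ?_, half_bisector_self hpq.2.2 hq' hs⟩
      rw [inner_smul_left, inner_add_left, hq'p, real_inner_comm, hpq.2.1]; simp
  have key : ∀ y, fr x' e' y = half m (fr x e y) := by
    intro y
    rw [← hkd.expand y, h'.fr_fr, h.fr_fr, ← half_fr hm, hmq, hneg1]
    congr 1
    rw [half, hmp]; simp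
  exact ⟨m, hm, by simpa only [fr_e0] using key (vec 1 0 0),
    by simpa only [fr_e1] using key (vec 0 1 0)⟩

/-- The frame whose plane is tangent to the surface. -/
noncomputable def sharp (r : ℝ) (φ : ℝ × ℝ → E3 × E3) (u : ℝ × ℝ) (c : E3) : E3 :=
  fr (φ u).1 (r⁻¹ • (φ u).2) (half (‖nrm r φ u‖⁻¹ • nrm r φ u) c)

theorem fr_vec : Fr (vec 1 0 0) (vec 0 1 0) := by
  refine ⟨?_, ?_, ?_⟩ <;> rw [inner3] <;> simp

theorem fr_id (c : E3) : fr (vec 1 0 0) (vec 0 1 0) c = c := by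
  apply ext3 <;> simp [fr]

theorem mem_plane_iff {r : ℝ} (hr : 0 < r) {x1 e1 : E3} {z : E3 × E3} :
    z ∈ plane r x1 e1 ↔ ∃ m : E3, ⟪m, m⟫ = 1 ∧ z.1 = half m x1 ∧ r⁻¹ • z.2 = half m e1 := by
  refine exists_congr fun m => and_congr_right fun _ => ?_
  rw [Prod.ext_iff, inv_smul_eq_iff₀ hr.ne']

theorem isClosed_plane (r : ℝ) :
    IsClosed {p : (E3 × E3) × (E3 × E3) | p.2 ∈ plane r p.1.1 p.1.2} := by
  have : {p : (E3 × E3) × (E3 × E3) | p.2 ∈ plane r p.1.1 p.1.2} = Prod.snd ''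
      {q : sphere (0 : E3) 1 × ((E3 × E3) × (E3 × E3)) |
        q.2.2 = (half q.1 q.2.1.1, r • half q.1 q.2.1.2)} := by
    ext p
    constructor
    · rintro ⟨m, hm, e⟩
      exact ⟨(⟨m, by simpa using norm_of_inner_self hm⟩, p), e, rfl⟩
    · rintro ⟨⟨m, p⟩, e, rfl⟩
      exact ⟨m, inner_self_of_norm (by simp), e⟩
  rw [this]
  exact isClosedMap_snd_of_compactSpace _ (isClosed_eq (by fun_prop) (by fun_prop))

section
variable {r : ℝ} (hr : 0 < r) {S : Set (E3 × E3)} (hS : S ⊆ sphereBundle r)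
  {φ : ℝ × ℝ → E3 × E3} {W : Set (ℝ × ℝ)} (h : IsChart S φ W) {u : ℝ × ℝ} (hu : u ∈ W)
include hr hS h hu

theorem IsChart.fr_sharp : Fr (sharp r φ u (vec 1 0 0)) (sharp r φ u (vec 0 1 0)) := by
  have hn := inner_self_normalize (h.nrm_ne_zero hr hS hu)
  simpa only [Fr, sharp, (h.fr hr hS hu).inner_fr, half_inner hn] using fr_vec

theorem IsChart.fr_sharp_eq (c : E3) :
    Pool.Agent.Lib.MP_396e7f_gt.fr (sharp r φ u (vec 1 0 0)) (sharp r φ u (vec 0 1 0)) c =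
      sharp r φ u c := by
  have hn := inner_self_normalize (h.nrm_ne_zero hr hS hu)
  rw [sharp, sharp, ← (h.fr hr hS hu).fr_fr, half_fr hn, fr_id, sharp]

theorem IsChart.mem_sharp {z : E3 × E3} (hz : z ∈ sphereBundle r) {c : E3} (hc : c ≠ 0)
    (he : Pool.Agent.Lib.MP_396e7f_gt.fr (φ u).1 (r⁻¹ • (φ u).2) c =
      Pool.Agent.Lib.MP_396e7f_gt.fr z.1 (r⁻¹ • z.2) c) (h0 : ⟪nrm r φ u, c⟫ = 0) :
    z ∈ plane r (sharp r φ u (vec 1 0 0)) (sharp r φ u (vec 0 1 0)) := by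
  rw [mem_plane_iff hr]
  refine exists_half_of_neg (h.fr_sharp hr hS hu) ((mem_bundle_iff hr).1 hz) hc ?_
  rw [h.fr_sharp_eq hr hS hu, sharp, half, inner_smul_left, h0, ← he]
  simp [fr_neg]

theorem IsChart.self_mem_sharp :
    φ u ∈ plane r (sharp r φ u (vec 1 0 0)) (sharp r φ u (vec 0 1 0)) := by
  obtain ⟨c, hc, h0⟩ := exists_unit_orth (nrm r φ u)
  refine h.mem_sharp hr hS hu (hS (h.mapsTo hu)) (c := c) ?_ rfl (by rw [real_inner_comm, h0])
  rintro rfl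
  simp at hc

theorem IsChart.continuousAt_sharp (c : E3) : ContinuousAt (fun v => sharp r φ v c) u := by
  have h1 := h.2.1.continuousOn
  have h2 := h.continuousOn_nrm (r := r)
  have h3 : ContinuousOn (fun v => ‖nrm r φ v‖⁻¹ • nrm r φ v) W :=
    (h2.norm.inv₀ fun v hv => norm_ne_zero_iff.2 (h.nrm_ne_zero hr hS hv)).smul h2
  have h4 : ContinuousOn (fun v => half (‖nrm r φ v‖⁻¹ • nrm r φ v) c) W := by
    have a : Continuous fun m : E3 => half m c := by fun_prop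
    refine (a.comp_continuousOn h3).congr fun v _ => ?_
    simp only [Function.comp_apply]
  have h5 : ContinuousOn (fun v => r⁻¹ • (φ v).2) W := by fun_prop
  have h6 := (continuousOn_fr h1.fst h5 h4).continuousAt (h.1.mem_nhds hu)
  simpa only [sharp] using h6

theorem IsChart.sharp_eq {x1 e1 : E3} (hev : ∀ᶠ v in 𝓝 u, φ v ∈ plane r x1 e1) (c : E3) :
    sharp r φ u c = Pool.Agent.Lib.MP_396e7f_gt.fr x1 e1 c := by
  obtain ⟨m, hm, hz⟩ := hev.self_of_nhds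
  have hf := h.fr hr hS hu
  have hn := hf.expand m
  set nn := vec ⟪(φ u).1, m⟫ ⟪r⁻¹ • (φ u).2, m⟫ ⟪cross (φ u).1 (r⁻¹ • (φ u).2), m⟫
  have hnn : ⟪nn, nn⟫ = 1 := by rw [← hf.inner_fr, hn, hm]
  have h1 := h.nrm_eq hr hS hu hev hm hz hn
  have h2 := h.nrm_ne_zero hr hS hu
  have h3 : half (‖nrm r φ u‖⁻¹ • nrm r φ u) c = half nn c := by
    generalize ⟪nrm r φ u, nn⟫ = t at h1
    rw [h1] at h2 ⊢
    have ht : t ≠ 0 := by rintro rfl; simp at h2
    rw [norm_smul, norm_of_inner_self hnn, mul_one, smul_smul, Real.norm_eq_abs]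
    rcases lt_or_gt_of_ne ht with a | a
    · rw [abs_of_neg a, inv_neg, neg_mul, inv_mul_cancel₀ ht, neg_smul, one_smul, half_neg]
    · rw [abs_of_pos a, inv_mul_cancel₀ ht, one_smul]
  rw [sharp, h3, hf.fr_half, hn, fr_of_plane hr hm hz, half_half hm]

end

theorem subset_plane_or_lt {r : ℝ} (hr : 0 < r) {S : Set (E3 × E3)} (hS : S ⊆ sphereBundle r)
    (hK : IsCompact S) (hsurf : IsSurface S)
    (hsur : ∀ c y : E3, c ≠ 0 → ‖y‖ = ‖c‖ → ∃ z ∈ S, fr z.1 (r⁻¹ • z.2) c = y) :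
    crofConst r < cosConst * area S ∨ ∃ x1 e1, Fr x1 e1 ∧ S ⊆ plane r x1 e1 := by
  refine or_iff_not_imp_left.2 fun hlt => ?_
  obtain ⟨z0, hz0, -⟩ := hsur (vec 1 0 0) _ (fun e => by
    simpa using congrArg (fun w : E3 => w 0) e) rfl
  obtain ⟨φ, W, h, u0, hu0, rfl⟩ := hsurf z0 hz0
  refine ⟨_, _, h.fr_sharp hr hS hu0, fun z hz => ?_⟩
  obtain ⟨ψ, W', h', u', hu', rfl⟩ := hsurf z hz
  by_contra hcon
  have hev : ∀ᶠ v in 𝓝 u0, ψ u' ∉ plane r (sharp r φ v (vec 1 0 0)) (sharp r φ v (vec 0 1 0)) :=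
    (((h.continuousAt_sharp hr hS hu0 _).prodMk (h.continuousAt_sharp hr hS hu0 _)).prodMk
      (continuousAt_const (y := ψ u'))).eventually ((isClosed_plane r).isOpen_compl.mem_nhds hcon)
  have hev' : ∀ᶠ v in 𝓝 u0,
      φ v ∈ plane r (sharp r ψ u' (vec 1 0 0)) (sharp r ψ u' (vec 0 1 0)) := by
    filter_upwards [hev, h.1.mem_nhds hu0] with v hv hvW
    obtain ⟨c, hc, e⟩ := euler (h.fr hr hS hvW) (h'.fr hr hS hu')
    refine h'.mem_sharp hr hS hu' (hS (h.mapsTo hvW)) hc e.symm ?_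
    by_contra h1
    refine hlt (lt_area hr hS hK hsurf hsur h h' hvW hu' ?_ e ?_ h1)
    · intro e'
      exact hv (e' ▸ h.self_mem_sharp hr hS hvW)
    · intro h0
      exact hv (h.mem_sharp hr hS hvW (hS hz) hc e h0)
  rw [h.sharp_eq hr hS hu0 hev', h.sharp_eq hr hS hu0 hev', fr_e0, fr_e1] at hcon
  exact hcon (h'.self_mem_sharp hr hS hu')

end Pool.Agent.Lib.MP_396e7f_gt
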