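import Pool.Agent.Lib.MP_396e7f_gt.Slice

open Set Filter Metric MeasureTheory
open scoped RealInnerProductSpace Topology ENNReal

namespace Pool.Agent.Lib.MP_396e7f_gt

instance haarD3 : Measure.IsAddHaarMeasure (volume : Measure D3) :=
  Measure.prod.instIsAddHaarMeasure _ _

/-- Coordinates of Euclidean space as nested pairs. -/
noncomputable def toD : E3 ≃L[ℝ] D3 :=
  LinearEquiv.toContinuousLinearEquiv
    { toFun := fun y => ((y 0, y 1), y 2)
      invFun := fun p => vec p.1.1 p.1.2 p.2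
      map_add' := fun _ _ => rfl
      map_smul' := fun _ _ => rfl
      left_inv := fun y => by apply ext3 <;> rfl
      right_inv := fun _ => rfl }

theorem toD_apply (y : E3) : toD y = ((y 0, y 1), y 2) := rfl

theorem det_D3 (T : D3 →L[ℝ] D3) {P Q R : E3} (hP : T ((1, 0), 0) = toD P)
    (hQ : T ((0, 1), 0) = toD Q) (hR : T ((0, 0), 1) = toD R) : T.det = ⟪cross P Q, R⟫ := by
  let e : D3 ≃ₗ[ℝ] (Fin 3 → ℝ) :=
    { toFun := fun p => ![p.1.1, p.1.2, p.2]
      invFun := fun y => ((y 0, y 1), y 2)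
      map_add' := fun _ _ => by ext i; fin_cases i <;> rfl
      map_smul' := fun _ _ => by ext i; fin_cases i <;> rfl
      left_inv := fun _ => rfl
      right_inv := fun y => by ext i; fin_cases i <;> rfl }
  have e0 : e.symm (Pi.single 0 1) = ((1, 0), 0) := by
    show ((Pi.single (M := fun _ : Fin 3 => ℝ) 0 1 0, Pi.single (M := fun _ : Fin 3 => ℝ) 0 1 1),
      Pi.single (M := fun _ : Fin 3 => ℝ) 0 1 2) = _
    simp
  have e1 : e.symm (Pi.single 1 1) = ((0, 1), 0) := by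
    show ((Pi.single (M := fun _ : Fin 3 => ℝ) 1 1 0, Pi.single (M := fun _ : Fin 3 => ℝ) 1 1 1),
      Pi.single (M := fun _ : Fin 3 => ℝ) 1 1 2) = _
    simp
  have e2 : e.symm (Pi.single 2 1) = ((0, 0), 1) := by
    show ((Pi.single (M := fun _ : Fin 3 => ℝ) 2 1 0, Pi.single (M := fun _ : Fin 3 => ℝ) 2 1 1),
      Pi.single (M := fun _ : Fin 3 => ℝ) 2 1 2) = _
    simp
  have he : ∀ y : E3, ∀ i, e (toD y) i = y i := fun y i => by fin_cases i <;> rfl
  rw [ContinuousLinearMap.det, ← LinearMap.det_conj _ e, ← LinearMap.det_toMatrix',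
    Matrix.det_fin_three]
  simp only [LinearMap.toMatrix'_apply, LinearMap.comp_apply, LinearEquiv.coe_coe,
    ContinuousLinearMap.coe_coe, e0, e1, e2, hP, hQ, hR, he, inner3, cross0, cross1, cross2]
  ring

/-- Angular velocity of the frame along a direction of the parameter plane. -/
noncomputable def angv (r : ℝ) (φ : ℝ × ℝ → E3 × E3) (u w : ℝ × ℝ) : E3 :=
  ang (φ u).1 (r⁻¹ • (φ u).2) (fderiv ℝ φ u w).1 (r⁻¹ • (fderiv ℝ φ u w).2)

/-- Normal vector in the moving frame. -/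
noncomputable def nrm (r : ℝ) (φ : ℝ × ℝ → E3 × E3) (u : ℝ × ℝ) : E3 :=
  cross (angv r φ u (1, 0)) (angv r φ u (0, 1))

/-- The cone map. -/
noncomputable def coneMap (r : ℝ) (c : E3) (φ : ℝ × ℝ → E3 × E3) (y : D3) : D3 :=
  toD (y.2 • fr (φ y.1).1 (r⁻¹ • (φ y.1).2) c)

theorem hasFDerivAt_fr {X : Type*} [NormedAddCommGroup X] [NormedSpace ℝ X] (r : ℝ) (c : E3)
    {φ : X → E3 × E3} {φ' : X →L[ℝ] E3 × E3} {u : X} (hφ : HasFDerivAt φ φ' u) :
    ∃ L : X →L[ℝ] E3, HasFDerivAt (fun v => fr (φ v).1 (r⁻¹ • (φ v).2) c) L u ∧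
      ∀ w, L w = c 0 • (φ' w).1 + c 1 • r⁻¹ • (φ' w).2 +
        c 2 • (cross (φ u).1 (r⁻¹ • (φ' w).2) + cross (φ' w).1 (r⁻¹ • (φ u).2)) := by
  have h1 := hφ.fst
  have h2 := hφ.snd.const_smul r⁻¹
  have h3 := crossL.hasFDerivAt_of_bilinear h1 h2
  exact ⟨_, ((h1.const_smul (c 0)).add (h2.const_smul (c 1))).add (h3.const_smul (c 2)),
    fun w => rfl⟩

section
variable {r : ℝ} (hr : 0 < r) {S : Set (E3 × E3)} (hS : S ⊆ sphereBundle r)
  {φ : ℝ × ℝ → E3 × E3} {W : Set (ℝ × ℝ)} (h : IsChart S φ W)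
include hr hS h

theorem IsChart.fr {u : ℝ × ℝ} (hu : u ∈ W) : Fr (φ u).1 (r⁻¹ • (φ u).2) :=
  (mem_bundle_iff hr).1 (hS (h.mapsTo hu))

theorem IsChart.hasFDerivAt_fr (c : E3) {u : ℝ × ℝ} (hu : u ∈ W) :
    ∃ L : ℝ × ℝ →L[ℝ] E3, HasFDerivAt (fun v => Pool.Agent.Lib.MP_396e7f_gt.fr (φ v).1
      (r⁻¹ • (φ v).2) c) L u ∧ ∀ w, L w = Pool.Agent.Lib.MP_396e7f_gt.fr (φ u).1 (r⁻¹ • (φ u).2)
        (cross (angv r φ u w) c) := by
  obtain ⟨L, h1, h2⟩ := Pool.Agent.Lib.MP_396e7f_gt.hasFDerivAt_fr r c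
    (h.hasStrictFDerivAt hu).hasFDerivAt
  exact ⟨L, h1, fun w => by rw [h2, (h.fr hr hS hu).deriv_fr (h.tan hr hS hu w)]; rfl⟩

theorem IsChart.hasFDerivAt_cone (c : E3) {y : D3} (hy : y.1 ∈ W) :
    HasFDerivAt (coneMap r c φ) (fderiv ℝ (coneMap r c φ) y) y ∧
      (fderiv ℝ (coneMap r c φ) y).det = ⟪nrm r φ y.1, c⟫ * ⟪c, c⟫ * y.2 ^ 2 := by
  obtain ⟨L, h1, h2⟩ := h.hasFDerivAt_fr hr hS c hy
  have a1 : HasFDerivAt (fun y : D3 => y.1) (ContinuousLinearMap.fst ℝ (ℝ × ℝ) ℝ) y :=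
    hasFDerivAt_fst
  have a2 : HasFDerivAt (fun y : D3 => y.2) (ContinuousLinearMap.snd ℝ (ℝ × ℝ) ℝ) y :=
    hasFDerivAt_snd
  have a3 := HasFDerivAt.comp (f := fun y : D3 => y.1) y h1 a1
  have a4 := (toD : E3 →L[ℝ] D3).hasFDerivAt.comp y (a2.smul a3)
  have a5 : HasFDerivAt (coneMap r c φ) _ y := a4
  refine ⟨a5.differentiableAt.hasFDerivAt, ?_⟩
  have hf := h.fr hr hS hy
  rw [a5.fderiv, det_D3 _ (P := y.2 • L (1, 0)) (Q := y.2 • L (0, 1))
    (R := Pool.Agent.Lib.MP_396e7f_gt.fr (φ y.1).1 (r⁻¹ • (φ y.1).2) c)]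
  · rw [h2, h2, ← fr_smul, ← fr_smul, hf.cross_fr, hf.inner_fr, nrm, ← triple_cross]
    simp only [inner3, cross0, cross1, cross2, PiLp.smul_apply, smul_eq_mul]
    ring
  · simp
  · simp
  · have : L (0, 0) = 0 := map_zero L
    simp [this]

theorem IsChart.areaElement_eq {u : ℝ × ℝ} (hu : u ∈ W) :
    areaElement φ u = ‖dil r (nrm r φ u)‖ := by
  have hf := h.fr hr hS hu
  have e : ∀ w, fderiv ℝ φ u w = ((fderiv ℝ φ u w).1, r • r⁻¹ • (fderiv ℝ φ u w).2) := by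
    intro w; rw [smul_smul, mul_inv_cancel₀ hr.ne', one_smul]
  have key : ∀ w w', sasaki (φ u).1 (fderiv ℝ φ u w) (fderiv ℝ φ u w') =
      r ^ 2 * (angv r φ u w 0 * angv r φ u w' 0) + angv r φ u w 1 * angv r φ u w' 1 +
        angv r φ u w 2 * angv r φ u w' 2 := by
    intro w w'
    rw [e w, e w', hf.sasaki_eq (h.tan hr hS hu w) (h.tan hr hS hu w')]
    rfl
  rw [areaElement, gramDet, dirDeriv, dirDeriv, key, key, key, gram_eq, Real.sqrt_sq (norm_nonneg _), nrm]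

omit hr hS in
theorem IsChart.continuousOn_angv (w : ℝ × ℝ) : ContinuousOn (fun u => angv r φ u w) W := by
  have h1 := h.2.1.continuousOn
  have h2 : ContinuousOn (fun u => fderiv ℝ φ u w) W :=
    (h.2.1.continuousOn_fderiv_of_isOpen h.1 le_rfl).clm_apply continuousOn_const
  have h3 : Continuous fun p : (E3 × E3) × (E3 × E3) =>
      ang p.1.1 (r⁻¹ • p.1.2) p.2.1 (r⁻¹ • p.2.2) := by
    unfold ang
    exact continuous_vec (by fun_prop) (by fun_prop) (by fun_prop)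
  have h4 := h3.comp_continuousOn (h1.prodMk h2)
  refine h4.congr fun u _ => ?_
  simp only [angv, Function.comp_apply]

omit hr hS in
theorem IsChart.continuousOn_nrm : ContinuousOn (nrm r φ) W :=
  continuousOn_cross (h.continuousOn_angv _) (h.continuousOn_angv _)

theorem IsChart.nrm_ne_zero {u : ℝ × ℝ} (hu : u ∈ W) : nrm r φ u ≠ 0 := by
  intro h0
  have hf := h.fr hr hS hu
  have hlin : ∀ a b : ℝ, angv r φ u (a, b) = a • angv r φ u (1, 0) + b • angv r φ u (0, 1) := by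
    intro a b
    have : ((a, b) : ℝ × ℝ) = a • ((1 : ℝ), (0 : ℝ)) + b • ((0 : ℝ), (1 : ℝ)) := by simp
    rw [this]
    simp only [angv, map_add, map_smul, Prod.fst_add, Prod.snd_add, Prod.smul_fst, Prod.smul_snd]
    apply ext3 <;> simp [ang, inner_add_right, inner_smul_right] <;> ring
  have hz : ∀ w, angv r φ u w = 0 → w = 0 := fun w hw =>
    (injective_iff_map_eq_zero _).1 (h.2.2.1 u hu) w (eq_zero_of_ang hr hf (h.tan hr hS hu w) hw)
  set p := angv r φ u (1, 0)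
  set q := angv r φ u (0, 1)
  have hp : p ≠ 0 := fun e => by simpa using hz _ e
  have c0 : p 1 * q 2 - p 2 * q 1 = 0 := congrArg (fun w : E3 => w 0) h0
  have c1 : p 2 * q 0 - p 0 * q 2 = 0 := congrArg (fun w : E3 => w 1) h0
  have c2 : p 0 * q 1 - p 1 * q 0 = 0 := congrArg (fun w : E3 => w 2) h0
  have : angv r φ u (-⟪p, q⟫, ⟪p, p⟫) = 0 := by
    rw [hlin]
    apply ext3 <;> simp only [inner3, PiLp.add_apply, PiLp.smul_apply, smul_eq_mul,
      PiLp.zero_apply]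
    · linear_combination (p 2) * c1 - (p 1) * c2
    · linear_combination (p 0) * c2 - (p 2) * c0
    · linear_combination (p 1) * c0 - (p 0) * c1
  have := congrArg Prod.snd (hz _ this)
  exact hp (inner_self_eq_zero.1 this)

end

/-- The Crofton integrand of a piece of chart. -/
noncomputable def crof (r : ℝ) (c : E3) (φ : ℝ × ℝ → E3 × E3) (A : Set (ℝ × ℝ)) : ℝ≥0∞ :=
  ∫⁻ u in A, ENNReal.ofReal |⟪nrm r φ u, c⟫|

theorem lintegral_sq : ∫⁻ t in Ioo (0 : ℝ) 1, ENNReal.ofReal (t ^ 2) = ENNReal.ofReal (1 / 3) := by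
  rw [← ofReal_integral_eq_lintegral_ofReal]
  · rw [← integral_Ioc_eq_integral_Ioo, ← intervalIntegral.integral_of_le zero_le_one, integral_pow]
    norm_num
  · exact ((continuous_pow 2).integrableOn_Icc (a := (0 : ℝ)) (b := 1)).mono_set
      Ioo_subset_Icc_self
  · exact Eventually.of_forall fun t => sq_nonneg t

section
variable {r : ℝ} (hr : 0 < r) {S : Set (E3 × E3)} (hS : S ⊆ sphereBundle r)
  {φ : ℝ × ℝ → E3 × E3} {W A : Set (ℝ × ℝ)} (h : IsChart S φ W) (hA : MeasurableSet A)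
  (hAW : A ⊆ W)
include hr hS h hA hAW

theorem IsChart.lintegral_det (c : E3) :
    ∫⁻ y in A ×ˢ Ioo (0 : ℝ) 1, ENNReal.ofReal |(fderiv ℝ (coneMap r c φ) y).det| =
      ENNReal.ofReal (‖c‖ ^ 2 / 3) * crof r c φ A := by
  have hm : AEMeasurable (fun u => ENNReal.ofReal |⟪nrm r φ u, c⟫|) (volume.restrict A) := by
    refine (ContinuousOn.aemeasurable ?_ hA).ennreal_ofReal
    exact ((h.continuousOn_nrm.mono hAW).inner continuousOn_const).abs
  rw [setLIntegral_congr_fun (hA.prod measurableSet_Ioo) (g := fun y : D3 =>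
    (ENNReal.ofReal (‖c‖ ^ 2) * ENNReal.ofReal |⟪nrm r φ y.1, c⟫|) * ENNReal.ofReal (y.2 ^ 2))]
  · rw [Measure.volume_eq_prod, ← Measure.prod_restrict,
      lintegral_prod_mul (f := fun u => ENNReal.ofReal (‖c‖ ^ 2) *
        ENNReal.ofReal |⟪nrm r φ u, c⟫|) (g := fun t : ℝ => ENNReal.ofReal (t ^ 2))
        (hm.const_mul _) (by fun_prop), lintegral_sq, lintegral_const_mul'' _ hm, crof,
      mul_right_comm, ← ENNReal.ofReal_mul (by positivity)]
    congr 2; ring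
  · intro y hy
    dsimp only
    rw [(h.hasFDerivAt_cone hr hS c (hAW hy.1)).2, ← ENNReal.ofReal_mul (by positivity),
      ← ENNReal.ofReal_mul (by positivity), real_inner_self_eq_norm_sq, abs_mul, abs_mul,
      abs_of_nonneg (sq_nonneg ‖c‖), abs_of_nonneg (sq_nonneg y.2)]
    congr 1; ring

theorem IsChart.volume_cone_le (c : E3) :
    volume (coneMap r c φ '' (A ×ˢ Ioo (0 : ℝ) 1)) ≤ ENNReal.ofReal (‖c‖ ^ 2 / 3) * crof r c φ A := by
  rw [← h.lintegral_det hr hS hA hAW]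
  exact addHaar_image_le_lintegral_abs_det_fderiv volume (hA.prod measurableSet_Ioo)
    fun y hy => (h.hasFDerivAt_cone hr hS c (hAW hy.1)).1.hasFDerivWithinAt

theorem IsChart.le_volume_cone (c : E3) (hinj : InjOn (coneMap r c φ) (A ×ˢ Ioo (0 : ℝ) 1)) :
    ENNReal.ofReal (‖c‖ ^ 2 / 3) * crof r c φ A ≤ volume (coneMap r c φ '' (A ×ˢ Ioo (0 : ℝ) 1)) ∧
      MeasurableSet (coneMap r c φ '' (A ×ˢ Ioo (0 : ℝ) 1)) := by
  rw [← h.lintegral_det hr hS hA hAW]
  exact ⟨lintegral_abs_det_fderiv_le_addHaar_image volume (hA.prod measurableSet_Ioo)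
    (fun y hy => (h.hasFDerivAt_cone hr hS c (hAW hy.1)).1.hasFDerivWithinAt) hinj,
    measurable_image_of_fderivWithin (hA.prod measurableSet_Ioo)
    (fun y hy => (h.hasFDerivAt_cone hr hS c (hAW hy.1)).1.hasFDerivWithinAt) hinj⟩

end

/-- The constant of the cosine transform. -/
noncomputable def cosConst : ℝ≥0∞ := ∫⁻ u in ball (0 : E3) 1, ENNReal.ofReal |⟪vec 1 0 0, u⟫|

theorem cosConst_lt_top : cosConst < ⊤ := by
  have hn : ‖vec 1 0 0‖ = 1 := by
    rw [norm_eq_sqrt_real_inner, inner3]; simp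
  calc cosConst ≤ ∫⁻ _u in ball (0 : E3) 1, 1 := by
        refine setLIntegral_mono' measurableSet_ball fun u hu => ?_
        rw [← ENNReal.ofReal_one]
        refine ENNReal.ofReal_le_ofReal ((abs_real_inner_le_norm _ _).trans ?_)
        rw [hn, one_mul]
        exact (mem_ball_zero_iff.1 hu).le
    _ < ⊤ := by simp

theorem cosConst_pos : 0 < cosConst := by
  rw [cosConst, setLIntegral_pos_iff (by fun_prop)]
  have ho : IsOpen ({u : E3 | 0 < ⟪vec 1 0 0, u⟫} ∩ ball 0 1) :=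
    (isOpen_lt continuous_const (by fun_prop)).inter isOpen_ball
  refine (ho.measure_pos volume ⟨vec (1 / 2) 0 0, ?_, ?_⟩).trans_le (measure_mono ?_)
  · show 0 < ⟪vec 1 0 0, vec (1 / 2) 0 0⟫
    rw [inner3]; simp
  · rw [mem_ball_zero_iff, norm_eq_sqrt_real_inner, inner3, Real.sqrt_lt' one_pos]
    simp; norm_num
  · refine inter_subset_inter_left _ fun u hu => ?_
    have hu' : 0 < ⟪vec 1 0 0, u⟫ := hu
    simpa using hu'.ne'

theorem cos_transform (ξ : E3) :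
    ∫⁻ u in ball (0 : E3) 1, ENNReal.ofReal |⟪ξ, u⟫| = cosConst * ENNReal.ofReal ‖ξ‖ := by
  have hn : ‖vec 1 0 0‖ = 1 := by
    rw [norm_eq_sqrt_real_inner, inner3]; simp
  have h1 : ‖‖ξ‖ • vec 1 0 0‖ = ‖ξ‖ := by rw [norm_smul, hn, mul_one, norm_norm]
  let T : E3 ≃ₗᵢ[ℝ] E3 := (ℝ ∙ (‖ξ‖ • vec 1 0 0 - ξ))ᗮ.reflection
  have hT : T (‖ξ‖ • vec 1 0 0) = ξ := Submodule.reflection_sub h1
  have := T.measurePreserving.setLIntegral_comp_preimage_emb
    T.toHomeomorph.measurableEmbedding (fun u => ENNReal.ofReal |⟪ξ, u⟫|) (ball 0 1)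
  rw [← this]
  have hb : T ⁻¹' ball 0 1 = ball 0 1 := by
    ext u; simp
  rw [hb, cosConst, ← lintegral_mul_const _ (by fun_prop)]
  refine lintegral_congr fun u => ?_
  rw [← ENNReal.ofReal_mul (abs_nonneg _)]
  congr 1
  conv_lhs => rw [← hT, T.inner_map_map, inner_smul_left, abs_mul]
  simp [mul_comm]

theorem continuous_dil (r : ℝ) : Continuous (dil r) := by
  unfold dil
  exact continuous_vec (by fun_prop) (by fun_prop) (by fun_prop)

section
variable {r : ℝ} {S : Set (E3 × E3)}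
  {φ : ℝ × ℝ → E3 × E3} {W A : Set (ℝ × ℝ)} (h : IsChart S φ W) (hA : MeasurableSet A)
  (hAW : A ⊆ W)
include h hA hAW

theorem IsChart.aemeasurable_pair :
    AEMeasurable (Function.uncurry fun (c : E3) (u : ℝ × ℝ) =>
      ENNReal.ofReal |⟪nrm r φ u, dil r c⟫|)
      ((volume.restrict (ball (0 : E3) 1)).prod (volume.restrict A)) := by
  rw [Measure.prod_restrict]
  refine (ContinuousOn.aemeasurable ?_ (measurableSet_ball.prod hA)).ennreal_ofReal
  refine ContinuousOn.abs (ContinuousOn.inner ?_ ?_)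
  · exact (h.continuousOn_nrm (r := r)).comp continuousOn_snd fun p hp => hAW hp.2
  · exact ((continuous_dil r).comp continuous_fst).continuousOn

theorem IsChart.aemeasurable_crof :
    AEMeasurable (fun c => crof r (dil r c) φ A) (volume.restrict (ball (0 : E3) 1)) :=
  (h.aemeasurable_pair hA hAW).lintegral_prod_right'

theorem IsChart.crofton (hr : 0 < r) (hS : S ⊆ sphereBundle r) :
    ∫⁻ c in ball (0 : E3) 1, crof r (dil r c) φ A =
      cosConst * ∫⁻ u in A, ENNReal.ofReal (areaElement φ u) := by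
  unfold crof
  rw [lintegral_lintegral_swap (h.aemeasurable_pair hA hAW),
    ← lintegral_const_mul' _ _ cosConst_lt_top.ne]
  refine setLIntegral_congr_fun hA fun u hu => ?_
  simp only [inner_dil]
  rw [cos_transform, h.areaElement_eq hr hS (hAW hu)]

end

end Pool.Agent.Lib.MP_396e7f_gt
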