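import Pool.Agent.Lib.MP_396e7f_gt.Plane

open Set Filter Metric MeasureTheory
open scoped RealInnerProductSpace Topology ENNReal

namespace Pool.Agent.Lib.MP_396e7f_gt

theorem exists_finite_cover {S : Set (E3 × E3)} (hK : IsCompact S) (hsurf : IsSurface S) :
    ∃ (n : ℕ) (φ : Fin n → ℝ × ℝ → E3 × E3) (W : Fin n → Set (ℝ × ℝ)),
      (∀ i, IsChart S (φ i) (W i)) ∧ S ⊆ ⋃ i, φ i '' W i := by
  choose φ W hφ hz using fun z : S => hsurf z.1 z.2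
  choose O hO hOe using fun z : S => (hφ z).2.2.2.2
  obtain ⟨t, ht⟩ := hK.elim_finite_subcover O hO fun z hz' =>
    mem_iUnion.2 ⟨⟨z, hz'⟩, ((hOe ⟨z, hz'⟩) ▸ hz ⟨z, hz'⟩ : z ∈ S ∩ O ⟨z, hz'⟩).2⟩
  refine ⟨t.card, fun i => φ (t.equivFin.symm i), fun i => W (t.equivFin.symm i),
    fun i => hφ _, fun z hz' => ?_⟩
  obtain ⟨a, ha, hza⟩ := mem_iUnion₂.1 (ht hz')
  refine mem_iUnion.2 ⟨t.equivFin ⟨a, ha⟩, ?_⟩
  simp only [Equiv.symm_apply_apply]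
  rw [hOe]
  exact ⟨hz', hza⟩

theorem exists_disjoint_pieces {S : Set (E3 × E3)} {n : ℕ} {φ : Fin n → ℝ × ℝ → E3 × E3}
    {W : Fin n → Set (ℝ × ℝ)} (h : ∀ i, IsChart S (φ i) (W i)) (hc : S ⊆ ⋃ i, φ i '' W i) :
    ∃ A : Fin n → Set (ℝ × ℝ), (∀ i, IsChart S (φ i) (W i) ∧ MeasurableSet (A i) ∧ A i ⊆ W i) ∧
      (Pairwise fun i j => Disjoint (φ i '' A i) (φ j '' A j)) ∧ S ⊆ ⋃ i, φ i '' A i ∧
      ∀ i, (∀ j < i, Disjoint (φ j '' W j) (φ i '' W i)) → A i = W i := by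
  choose O hO hOe using fun i => (h i).2.2.2.2
  have hmem : ∀ i j, ∀ u ∈ W i, φ i u ∈ O j ↔ φ i u ∈ φ j '' W j := by
    intro i j u hu
    rw [hOe]
    exact ⟨fun a => ⟨(h i).mapsTo hu, a⟩, fun a => a.2⟩
  refine ⟨fun i => W i \ ⋃ j ∈ {j | j < i}, (W i ∩ φ i ⁻¹' O j), fun i => ⟨h i, ?_, sdiff_subset⟩,
    ?_, fun z hz => ?_, fun i hi => ?_⟩
  · refine (h i).1.measurableSet.diff (IsOpen.measurableSet (isOpen_biUnion fun j _ => ?_))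
    exact (h i).2.1.continuousOn.isOpen_inter_preimage (h i).1 (hO j)
  · have key : ∀ i j, j < i → Disjoint (φ i '' (W i \ ⋃ j ∈ {j | j < i}, (W i ∩ φ i ⁻¹' O j)))
        (φ j '' (W j \ ⋃ k ∈ {k | k < j}, (W j ∩ φ j ⁻¹' O k))) := by
      intro i j hji
      refine disjoint_left.2 ?_
      rintro _ ⟨u, hu, rfl⟩ ⟨v, hv, e⟩
      exact hu.2 (mem_iUnion₂.2 ⟨j, hji, hu.1, (hmem i j u hu.1).2 ⟨v, hv.1, e⟩⟩)
    intro i j hij
    rcases lt_or_gt_of_ne hij with h1 | h1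
    exacts [(key j i h1).symm, key i j h1]
  · have hne : {i | z ∈ φ i '' W i}.Nonempty := mem_iUnion.1 (hc hz)
    obtain ⟨i, ⟨u, hu, rfl⟩, hmin⟩ := wellFounded_lt.has_min _ hne
    refine mem_iUnion.2 ⟨i, u, ⟨hu, fun hb => ?_⟩, rfl⟩
    obtain ⟨j, hj, -, hj'⟩ := mem_iUnion₂.1 hb
    exact hmin j ((hmem i j u hu).1 hj') hj
  · refine sdiff_eq_left.2 (disjoint_left.2 fun u hu hb => ?_)
    obtain ⟨j, hj, -, hj'⟩ := mem_iUnion₂.1 hb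
    exact disjoint_left.1 (hi j hj) ((hmem i j u hu).1 hj') ⟨u, hu, rfl⟩

theorem shell_subset {r : ℝ} {S : Set (E3 × E3)}
    (hsur : ∀ c y : E3, c ≠ 0 → ‖y‖ = ‖c‖ → ∃ z ∈ S, fr z.1 (r⁻¹ • z.2) c = y)
    {n : ℕ} {φ : Fin n → ℝ × ℝ → E3 × E3} {A : Fin n → Set (ℝ × ℝ)}
    (hc : S ⊆ ⋃ i, φ i '' A i) {c : E3} (hc0 : c ≠ 0) :
    shell c ⊆ ⋃ i, coneMap r c (φ i) '' (A i ×ˢ Ioo (0 : ℝ) 1) := by
  rintro _ ⟨y, ⟨hy, hy0⟩, rfl⟩
  have hc' : 0 < ‖c‖ := norm_pos_iff.2 hc0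
  have hy' : 0 < ‖y‖ := norm_pos_iff.2 hy0
  obtain ⟨z, hz, e⟩ := hsur c ((‖c‖ / ‖y‖) • y) hc0 (by
    rw [norm_smul, Real.norm_of_nonneg (by positivity)]; field_simp)
  obtain ⟨i, u, hu, rfl⟩ := mem_iUnion.1 (hc hz)
  refine mem_iUnion.2 ⟨i, (u, ‖y‖ / ‖c‖), ⟨hu, by positivity, ?_⟩, ?_⟩
  · exact (div_lt_one hc').2 (mem_ball_zero_iff.1 hy)
  · simp only [coneMap, e, smul_smul]
    congr 1
    rw [show ‖y‖ / ‖c‖ * (‖c‖ / ‖y‖) = 1 by field_simp, one_smul]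

theorem le_sum_crof {r : ℝ} (hr : 0 < r) {S : Set (E3 × E3)} (hS : S ⊆ sphereBundle r)
    (hsur : ∀ c y : E3, c ≠ 0 → ‖y‖ = ‖c‖ → ∃ z ∈ S, fr z.1 (r⁻¹ • z.2) c = y)
    {n : ℕ} {φ : Fin n → ℝ × ℝ → E3 × E3} {W A : Fin n → Set (ℝ × ℝ)}
    (h : ∀ i, IsChart S (φ i) (W i) ∧ MeasurableSet (A i) ∧ A i ⊆ W i)
    (hc : S ⊆ ⋃ i, φ i '' A i) {c : E3} (hc0 : c ≠ 0) :
    kk c ≤ ∑ i, crof r c (φ i) (A i) := by
  rw [← cancel_const hc0, ← volume_shell hc0, Finset.mul_sum]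
  calc volume (shell c) ≤ _ := measure_mono (shell_subset hsur hc hc0)
    _ ≤ _ := measure_iUnion_fintype_le _ _
    _ ≤ _ := Finset.sum_le_sum fun i _ =>
        (h i).1.volume_cone_le hr hS (h i).2.1 (h i).2.2 c

theorem sum_le_area {S : Set (E3 × E3)} {n : ℕ} {φ : Fin n → ℝ × ℝ → E3 × E3}
    {W A : Fin n → Set (ℝ × ℝ)}
    (h : ∀ i, IsChart S (φ i) (W i) ∧ MeasurableSet (A i) ∧ A i ⊆ W i)
    (hd : Pairwise fun i j => Disjoint (φ i '' A i) (φ j '' A j)) :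
    ∑ i, ∫⁻ u in A i, ENNReal.ofReal (areaElement (φ i) u) ≤ area S :=
  le_iSup_of_le n (le_iSup_of_le φ (le_iSup_of_le W (le_iSup_of_le A (le_iSup_of_le ⟨h, hd⟩ le_rfl))))

theorem le_area {r : ℝ} (hr : 0 < r) {S : Set (E3 × E3)} (hS : S ⊆ sphereBundle r)
    (hK : IsCompact S) (hsurf : IsSurface S)
    (hsur : ∀ c y : E3, c ≠ 0 → ‖y‖ = ‖c‖ → ∃ z ∈ S, fr z.1 (r⁻¹ • z.2) c = y) :
    crofConst r ≤ cosConst * area S := by
  obtain ⟨n, φ, W, h, hc⟩ := exists_finite_cover hK hsurf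
  obtain ⟨A, hA, hd, hc', -⟩ := exists_disjoint_pieces h hc
  refine le_trans ?_ (mul_le_mul_right (sum_le_area hA hd) _)
  rw [sum_crofton hr hS hA]
  refine lintegral_mono_ae ?_
  filter_upwards [ae_ne_zero] with c hc0
  exact le_sum_crof hr hS hsur hA hc' (dil_ne_zero hr hc0)

theorem IsChart.cone_nhds {r : ℝ} (hr : 0 < r) {S : Set (E3 × E3)} (hS : S ⊆ sphereBundle r)
    {φ : ℝ × ℝ → E3 × E3} {W : Set (ℝ × ℝ)} (h : IsChart S φ W) {u : ℝ × ℝ} (hu : u ∈ W)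
    {c : E3} (hc : ⟪nrm r φ u, c⟫ ≠ 0) :
    ∀ᶠ p : E3 × D3 in 𝓝 (c, toD ((1 / 2 : ℝ) •
      Pool.Agent.Lib.MP_396e7f_gt.fr (φ u).1 (r⁻¹ • (φ u).2) c)),
      p.2 ∈ coneMap r p.1 φ '' (W ×ˢ Ioo (0 : ℝ) 1) := by
  let F : E3 × D3 → E3 × D3 := fun p => (p.1, coneMap r p.1 φ p.2)
  let p0 : E3 × D3 := (c, (u, 1 / 2))
  have hφ : ContDiffAt ℝ 1 (fun p : E3 × D3 => φ p.2.1) p0 :=
    ContDiffAt.comp (g := φ) (f := fun p : E3 × D3 => p.2.1) p0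
      (h.2.1.contDiffAt (h.1.mem_nhds hu)) (by fun_prop)
  have h1 : ContDiffAt ℝ 1 (fun p : E3 × D3 => (φ p.2.1).1) p0 := hφ.fst
  have h2 : ContDiffAt ℝ 1 (fun p : E3 × D3 => r⁻¹ • (φ p.2.1).2) p0 := hφ.snd.const_smul _
  have h3 := contDiffAt_cross h1 h2
  have hc' : ∀ i, ContDiffAt ℝ 1 (fun p : E3 × D3 => p.1 i) p0 := fun i => by fun_prop
  have hF : ContDiffAt ℝ 1 F p0 :=
    contDiffAt_fst.prodMk (toD.contDiff.contDiffAt.comp p0 (contDiffAt_snd.snd.smul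
      ((((hc' 0).smul h1).add ((hc' 1).smul h2)).add ((hc' 2).smul h3))))
  have hF' := hF.hasStrictFDerivAt one_ne_zero
  set F' := fderiv ℝ F p0
  obtain ⟨hD, hdet⟩ := h.hasFDerivAt_cone hr hS c (y := (u, 1 / 2)) hu
  set D := fderiv ℝ (coneMap r c φ) (u, 1 / 2)
  have hc0 : c ≠ 0 := by rintro rfl; simp at hc
  have hdet' : D.det ≠ 0 := by
    rw [hdet]
    exact mul_ne_zero (mul_ne_zero hc (inner_self_ne_zero.2 hc0)) (by norm_num)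
  have e1 : ∀ w, (F' w).1 = w.1 := fun w =>
    congrArg (fun L : E3 × D3 →L[ℝ] E3 => L w) (hF'.hasFDerivAt.fst.unique hasFDerivAt_fst)
  have e2 : ∀ w, (F' (0, w)).2 = D w := fun w => by
    have a := HasFDerivAt.comp (g := fun p => (F p).2) (f := fun y : D3 => (c, y))
      ((u, 1 / 2) : D3) hF'.hasFDerivAt.snd (hasFDerivAt_prodMk_right c _)
    exact congrArg (fun L : D3 →L[ℝ] D3 => L w) (a.unique hD)
  have hsurj : F'.range = ⊤ := by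
    refine Submodule.eq_top_iff'.2 fun ⟨a, b⟩ => ?_
    obtain ⟨w, hw⟩ := (D.toContinuousLinearEquivOfDetNeZero hdet').surjective (b - (F' (a, 0)).2)
    refine ⟨(a, 0) + (0, w), ?_⟩
    have hw' : D w = b - (F' (a, 0)).2 := hw
    show F' ((a, 0) + (0, w)) = (a, b)
    rw [map_add]
    refine Prod.ext ?_ ?_
    · simp [e1]
    · simp [e2, hw']
  have hmap := hF'.map_nhds_eq_of_surj hsurj
  have hmem : F '' (univ ×ˢ (W ×ˢ Ioo (0 : ℝ) 1)) ∈ 𝓝 (F p0) := by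
    rw [← hmap]
    refine image_mem_map (IsOpen.mem_nhds (isOpen_univ.prod (h.1.prod isOpen_Ioo)) ?_)
    exact ⟨trivial, hu, by norm_num, by norm_num⟩
  filter_upwards [hmem]
  rintro _ ⟨p, hp, rfl⟩
  exact ⟨p.2, hp.2, rfl⟩

theorem lt_area {r : ℝ} (hr : 0 < r) {S : Set (E3 × E3)} (hS : S ⊆ sphereBundle r)
    (hK : IsCompact S) (hsurf : IsSurface S)
    (hsur : ∀ c y : E3, c ≠ 0 → ‖y‖ = ‖c‖ → ∃ z ∈ S, fr z.1 (r⁻¹ • z.2) c = y)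
    {φ0 φ1 : ℝ × ℝ → E3 × E3} {W0 W1 : Set (ℝ × ℝ)} (h0 : IsChart S φ0 W0) (h1 : IsChart S φ1 W1)
    {u0 u1 : ℝ × ℝ} (hu0 : u0 ∈ W0) (hu1 : u1 ∈ W1) (hne : φ0 u0 ≠ φ1 u1) {c : E3}
    (he : fr (φ0 u0).1 (r⁻¹ • (φ0 u0).2) c = fr (φ1 u1).1 (r⁻¹ • (φ1 u1).2) c)
    (hc0 : ⟪nrm r φ0 u0, c⟫ ≠ 0) (hc1 : ⟪nrm r φ1 u1, c⟫ ≠ 0) :
    crofConst r < cosConst * area S := by
  obtain ⟨O0, O1, hO0, hO1, hm0, hm1, hdis⟩ := t2_separation hne
  have g0 := h0.restrict (h0.2.1.continuousOn.isOpen_inter_preimage h0.1 hO0) inter_subset_left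
  have g1 := h1.restrict (h1.2.1.continuousOn.isOpen_inter_preimage h1.1 hO1) inter_subset_left
  set V0 := W0 ∩ φ0 ⁻¹' O0
  set V1 := W1 ∩ φ1 ⁻¹' O1
  have hv0 : u0 ∈ V0 := ⟨hu0, hm0⟩
  have hv1 : u1 ∈ V1 := ⟨hu1, hm1⟩
  obtain ⟨n, φ', W', h', hc'⟩ := exists_finite_cover hK hsurf
  let φ : Fin (n + 2) → ℝ × ℝ → E3 × E3 := Fin.cons φ0 (Fin.cons φ1 φ')
  let W : Fin (n + 2) → Set (ℝ × ℝ) := Fin.cons V0 (Fin.cons V1 W')
  have h : ∀ i, IsChart S (φ i) (W i) := Fin.cases g0 (Fin.cases g1 h')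
  have hc : S ⊆ ⋃ i, φ i '' W i := fun z hz => by
    obtain ⟨i, hi⟩ := mem_iUnion.1 (hc' hz)
    exact mem_iUnion.2 ⟨i.succ.succ, hi⟩
  obtain ⟨A, hA, hd, hcA, hfix⟩ := exists_disjoint_pieces h hc
  have a0 : A 0 = V0 := hfix 0 fun j hj => absurd hj (Fin.not_lt_zero j)
  have a1 : A (Fin.succ 0) = V1 := hfix (Fin.succ 0) fun j hj => by
    have : j = 0 := Fin.ext (Nat.lt_one_iff.1 hj)
    subst this
    exact hdis.mono (by rintro _ ⟨u, hu, rfl⟩; exact hu.2) (by rintro _ ⟨u, hu, rfl⟩; exact hu.2)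
  refine lt_of_lt_of_le ?_ (mul_le_mul_right (sum_le_area hA hd) _)
  rw [sum_crofton hr hS hA]
  -- rescale `c`
  obtain ⟨c0, hc0b, t, ht, hct⟩ : ∃ c0 ∈ ball (0 : E3) 1, ∃ t : ℝ, t ≠ 0 ∧ dil r c0 = t • c := by
    let d := vec (c 0) (r⁻¹ * c 1) (r⁻¹ * c 2)
    have : 0 < ‖d‖ + 1 := by positivity
    refine ⟨(‖d‖ + 1)⁻¹ • d, ?_, (‖d‖ + 1)⁻¹, by positivity, ?_⟩
    · rw [mem_ball_zero_iff, norm_smul, Real.norm_of_nonneg (by positivity), inv_mul_lt_iff₀ this]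
      linarith
    · apply ext3 <;> simp [dil, d] <;> field_simp
  have b0 := g0.cone_nhds hr hS hv0 (c := t • c) (by rw [inner_smul_right]; exact mul_ne_zero ht hc0)
  have b1 := g1.cone_nhds hr hS hv1 (c := t • c) (by rw [inner_smul_right]; exact mul_ne_zero ht hc1)
  rw [fr_smul, he, ← fr_smul] at b0
  obtain ⟨C, hC, G, hG, hCG⟩ := mem_nhds_prod_iff.1 (b0.and b1)
  obtain ⟨G', hG'G, hG'o, hG'm⟩ := _root_.mem_nhds_iff.1 hG
  have hC0 : dil r ⁻¹' C ∈ 𝓝 c0 := (continuous_dil r).continuousAt (hct ▸ hC)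
  refine lintegral_strict_mono_of_ae_le_of_ae_lt_on
    (Finset.aemeasurable_fun_sum _ fun i _ => (hA i).1.aemeasurable_crof (hA i).2.1 (hA i).2.2)
    (crofConst_lt_top r).ne ?_ (s := dil r ⁻¹' C) ?_ ?_
  · filter_upwards [ae_ne_zero] with c hc0
    exact le_sum_crof hr hS hsur hA hcA (dil_ne_zero hr hc0)
  · rw [Measure.restrict_apply' measurableSet_ball]
    exact (Measure.measure_pos_of_mem_nhds _ (inter_mem hC0 (isOpen_ball.mem_nhds hc0b))).ne'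
  · filter_upwards [ae_ne_zero] with c2 hc2 hc2C
    have hc3 := dil_ne_zero hr hc2
    set c3 := dil r c2
    let K : Fin (n + 2) → Set D3 := fun i => coneMap r c3 (φ i) '' (A i ×ˢ Ioo (0 : ℝ) 1)
    have k0 : G' ⊆ K 0 := fun y hy => by
      have := (hCG (mk_mem_prod hc2C (hG'G hy))).1
      simp only [K, a0]
      exact this
    have k1 : G' ⊆ K (Fin.succ 0) := fun y hy => by
      have := (hCG (mk_mem_prod hc2C (hG'G hy))).2
      simp only [K, a1]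
      exact this
    have hcov : shell c3 ⊆ (K 0 \ G') ∪ ⋃ i : Fin (n + 1), K i.succ := by
      intro y hy
      obtain ⟨i, hi⟩ := mem_iUnion.1 (shell_subset hsur hcA hc3 hy)
      by_cases hyG : y ∈ G'
      · exact Or.inr (mem_iUnion.2 ⟨0, k1 hyG⟩)
      · revert hi
        refine Fin.cases (fun hi => Or.inl ⟨hi, hyG⟩) (fun j hi => Or.inr (mem_iUnion.2 ⟨j, hi⟩)) i
    have hfin : volume (shell c3) ≠ ⊤ := by
      rw [volume_shell hc3, kk]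
      exact ENNReal.mul_ne_top ENNReal.ofReal_ne_top
        (ENNReal.mul_ne_top ENNReal.ofReal_ne_top beta_lt_top.ne)
    refine lt_of_not_ge fun hge => ?_
    rw [← cancel_const hc3, ← volume_shell hc3, Finset.mul_sum] at hge
    refine absurd hge (not_le.2 ?_)
    calc volume (shell c3) < volume (shell c3) + volume G' :=
          ENNReal.lt_add_right hfin (hG'o.measure_pos volume ⟨_, hG'm⟩).ne'
      _ ≤ (volume (K 0 \ G') + ∑ i : Fin (n + 1), volume (K i.succ)) + volume G' := by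
          gcongr
          refine (measure_mono hcov).trans ((measure_union_le _ _).trans ?_)
          gcongr
          exact measure_iUnion_fintype_le _ _
      _ = ∑ i, volume (K i) := by
          rw [Fin.sum_univ_succ (n := n + 1), ← measure_inter_add_sdiff (K 0) hG'o.measurableSet,
            inter_eq_right.2 k0]
          ring
      _ ≤ _ := Finset.sum_le_sum fun i _ =>
          (hA i).1.volume_cone_le hr hS (hA i).2.1 (hA i).2.2 c3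

end Pool.Agent.Lib.MP_396e7f_gt
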