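import Pool.Agent.Lib.MP_396e7f_gt.Equality

open Set Filter Metric MeasureTheory
open scoped RealInnerProductSpace Topology ENNReal

namespace Pool.Agent.Lib.MP_396e7f_gt

theorem plane_subset {r : ℝ} (hr : 0 < r) {x1 e1 : E3} (h : Fr x1 e1) :
    plane r x1 e1 ⊆ sphereBundle r := fun z hz => by
  obtain ⟨m, hm, h1, h2⟩ := (mem_plane_iff hr).1 hz
  rw [mem_bundle_iff hr, h2, h1]
  exact h.half hm

theorem isClosed_plane' (r : ℝ) (x1 e1 : E3) : IsClosed (plane r x1 e1) :=
  (isClosed_plane r).preimage (f := fun z => ((x1, e1), z)) (by fun_prop)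

theorem half_parallel {a b p : E3} (hab : Fr a b) (hp : ⟪p, p⟫ = 1) (h : a + p ≠ 0) :
    half (‖a + p‖⁻¹ • (a + p)) (-b) = parallelField a b p := by
  rw [half_bisector hab.1 hp h, parallelField, inner_neg_right, inner_add_left, hab.2.1, zero_add,
    neg_div, neg_smul]
  abel

theorem parallel_half {a b m : E3} (hab : Fr a b) (hm : ⟪m, m⟫ = 1) (hma : ⟪m, a⟫ ≠ 0) :
    half m a ≠ -a ∧ parallelField a b (half m a) = half m (-b) := by
  have h1 : a + half m a ≠ 0 := by
    rw [half, add_sub_cancel]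
    refine smul_ne_zero (mul_ne_zero two_ne_zero hma) ?_
    rintro rfl
    simp at hm
  have hp : ⟪half m a, half m a⟫ = 1 := by rw [half_inner hm, hab.1]
  refine ⟨fun e => h1 (by rw [e, add_neg_cancel]), ?_⟩
  rw [← half_parallel hab hp h1]
  exact (half_eq_of_eq hm (inner_self_normalize h1) (half_bisector_self hab.1 hp h1).symm hma _).symm

theorem Fr.neg {a b : E3} (h : Fr a b) : Fr a (-b) := by
  simpa only [Fr, inner_neg_right, inner_neg_left, neg_neg, neg_eq_zero] using h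

theorem exists_seq_axis {a m : E3} (ha : ⟪a, a⟫ = 1) (hm : ⟪m, m⟫ = 1) (hma : ⟪m, a⟫ = 0) :
    ∃ M : ℝ → E3, Tendsto M (𝓝[>] 0) (𝓝 m) ∧ ∀ᶠ t in 𝓝[>] 0, ⟪M t, M t⟫ = 1 ∧ ⟪M t, a⟫ ≠ 0 := by
  refine ⟨fun t => Real.cos t • m + Real.sin t • a, ?_, ?_⟩
  · have : Continuous fun t => Real.cos t • m + Real.sin t • a := by fun_prop
    simpa using (this.tendsto 0).mono_left nhdsWithin_le_nhds
  · filter_upwards [Ioo_mem_nhdsGT Real.pi_pos] with t ht
    have h2 : ⟪a, m⟫ = 0 := by rw [real_inner_comm, hma]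
    simp only [inner_add_left, inner_add_right, inner_smul_left, inner_smul_right, ha, hm, hma, h2,
      conj_trivial]
    refine ⟨by nlinarith [Real.sin_sq_add_cos_sq t], ?_⟩
    simpa using (Real.sin_pos_of_pos_of_lt_pi ht.1 ht.2).ne'

theorem graph_parallel {r : ℝ} {a b : E3} (hab : Fr a b) :
    graphClosure (sphere 0 1 \ {-a}) (fun p => r • parallelField a b p) = plane r a (-b) := by
  refine Subset.antisymm (closure_minimal ?_ (isClosed_plane' _ _ _)) ?_
  · rintro _ ⟨p, ⟨hp, hpa⟩, rfl⟩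
    have hp' : ⟪p, p⟫ = 1 := inner_self_of_norm (by simpa using hp)
    have h : a + p ≠ 0 := fun e => hpa (eq_neg_of_add_eq_zero_right e)
    exact ⟨_, inner_self_normalize h, by
      rw [half_bisector_self hab.1 hp' h, half_parallel hab hp' h]⟩
  · have key : ∀ m : E3, ⟪m, m⟫ = 1 → ⟪m, a⟫ ≠ 0 → (half m a, r • half m (-b)) ∈
        (fun x => (x, r • parallelField a b x)) '' (sphere 0 1 \ {-a}) := by
      intro m hm hma
      obtain ⟨h1, h2⟩ := parallel_half hab hm hma
      refine ⟨half m a, ⟨?_, h1⟩, by simp only [h2]⟩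
      simpa using norm_of_inner_self (p := half m a) (by rw [half_inner hm, hab.1])
    rintro _ ⟨m, hm, rfl⟩
    by_cases hma : ⟪m, a⟫ = 0
    · obtain ⟨M, hM, hev⟩ := exists_seq_axis hab.1 hm hma
      have hc : Continuous fun m : E3 => (half m a, r • half m (-b)) := by fun_prop
      exact mem_closure_of_tendsto ((hc.tendsto m).comp hM) (hev.mono fun t ht => key _ ht.1 ht.2)
    · exact subset_closure (key m hm hma)

theorem isVectorField_parallel {r : ℝ} (hr : 0 < r) {a b : E3} (hab : Fr a b) :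
    IsVectorField r (sphere 0 1 \ {-a}) (fun p => r • parallelField a b p) := by
  refine ⟨⟨{-a}ᶜ, isOpen_compl_singleton, rfl⟩, fun p hp => ?_, ?_, fun p hp => ?_⟩
  · by_cases h : p = -a
    · obtain ⟨M, hM, hev⟩ := exists_seq_axis hab.1 hab.2.2 (by rw [real_inner_comm, hab.2.1])
      have hc : Continuous fun m : E3 => half m a := by fun_prop
      have e : half b a = p := by rw [half, real_inner_comm, hab.2.1, h]; simp
      refine e ▸ mem_closure_of_tendsto ((hc.tendsto b).comp hM) (hev.mono fun t ht => ?_)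
      refine ⟨?_, (parallel_half hab ht.1 ht.2).1⟩
      simpa using norm_of_inner_self (p := half (M t) a) (by rw [half_inner ht.1, hab.1])
    · exact subset_closure ⟨hp, h⟩
  · have a1 : ContinuousOn (fun p : E3 => ⟪p, b⟫ / (1 + ⟪p, a⟫)) (sphere 0 1 \ {-a}) :=
      ContinuousOn.div₀ (by fun_prop) (by fun_prop) fun p hp =>
        one_add_inner_ne hab.1 (inner_self_of_norm (by simpa using hp.1))
          fun e => hp.2 (eq_neg_of_add_eq_zero_right e)
    simp only [parallelField]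
    fun_prop
  · apply plane_subset hr hab.neg
    rw [← graph_parallel hab]
    exact subset_closure ⟨p, hp, rfl⟩

theorem half_normalize {m : E3} (hm : ⟪m, m⟫ = 1) {t : ℝ} (ht : t ≠ 0) (c : E3) :
    half (‖t • m‖⁻¹ • t • m) c = half m c := by
  rw [norm_smul, norm_of_inner_self hm, mul_one, smul_smul, Real.norm_eq_abs]
  rcases lt_or_gt_of_ne ht with a | a
  · rw [abs_of_neg a, inv_neg, neg_mul, inv_mul_cancel₀ ht, neg_smul, one_smul, half_neg]
  · rw [abs_of_pos a, inv_mul_cancel₀ ht, one_smul]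

theorem isSurface_plane {r : ℝ} (hr : 0 < r) {x1 e1 : E3} (h : Fr x1 e1) :
    IsSurface (plane r x1 e1) := by
  rintro _ ⟨m0, hm0, rfl⟩
  obtain ⟨d, hd, hdm⟩ := exists_unit_orth m0
  have hf : Fr m0 d := ⟨hm0, by rw [real_inner_comm, hdm], hd⟩
  obtain ⟨c, hc⟩ : ∃ c, fr x1 e1 c = m0 := ⟨_, h.expand m0⟩
  let w : ℝ × ℝ → E3 := fun u => m0 + u.1 • d + u.2 • cross m0 d
  have hw : ∀ u, w u = fr m0 d (vec 1 u.1 u.2) := fun u => by simp [w, fr]
  have w0 : ∀ u, ⟪m0, w u⟫ = 1 := fun u => by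
    have := hf.inner_fr (vec 1 0 0) (vec 1 u.1 u.2)
    rw [fr_e0, ← hw] at this
    rw [this, inner3]; simp
  have w1 : ∀ u, ⟪d, w u⟫ = u.1 := fun u => by
    have := hf.inner_fr (vec 0 1 0) (vec 1 u.1 u.2)
    rw [fr_e1, ← hw] at this
    rw [this, inner3]; simp
  have w2 : ∀ u, ⟪cross m0 d, w u⟫ = u.2 := fun u => by
    have := hf.inner_fr (vec 0 0 1) (vec 1 u.1 u.2)
    rw [fr_e2, ← hw] at this
    rw [this, inner3]; simp
  have wne : ∀ u, w u ≠ 0 := fun u e => by simpa [e] using w0 u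
  let m : ℝ × ℝ → E3 := fun u => ‖w u‖⁻¹ • w u
  have hm : ∀ u, ⟪m u, m u⟫ = 1 := fun u => inner_self_normalize (wne u)
  have hwc : ContDiff ℝ 1 w := by fun_prop
  have hmc : ContDiff ℝ 1 m :=
    ((hwc.norm ℝ wne).inv fun u => norm_ne_zero_iff.2 (wne u)).smul hwc
  let φ : ℝ × ℝ → E3 × E3 := fun u => (half (m u) x1, r • half (m u) e1)
  have hh : ∀ p, ContDiff ℝ 1 fun u => half (m u) p := fun p =>
    ((contDiff_const.mul (hmc.inner ℝ contDiff_const)).smul hmc).sub contDiff_const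
  have hφ : ContDiff ℝ 1 φ := (hh x1).prodMk ((hh e1).const_smul r)
  let g : E3 × E3 → E3 := fun z => fr z.1 (r⁻¹ • z.2) c + m0
  have hg : ∀ z, ContDiffAt ℝ 1 g z := fun z => by
    have a1 : ContDiffAt ℝ 1 (fun z : E3 × E3 => z.1) z := contDiffAt_fst
    have a2 : ContDiffAt ℝ 1 (fun z : E3 × E3 => r⁻¹ • z.2) z := contDiffAt_snd.const_smul _
    exact (((a1.const_smul (c 0)).add (a2.const_smul (c 1))).add
      ((contDiffAt_cross a1 a2).const_smul (c 2))).add contDiffAt_const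
  have hgm : ∀ n : E3, ⟪n, n⟫ = 1 → g (half n x1, r • half n e1) = (2 * ⟪n, m0⟫) • n := by
    intro n hn
    simp only [g]
    rw [fr_of_plane hr hn (z := (half n x1, r • half n e1)) rfl, hc, half, sub_add_cancel]
  let O : Set (E3 × E3) := {z | ⟪m0, g z⟫ ≠ 0}
  have hgc : Continuous g := continuous_iff_continuousAt.2 fun z => (hg z).continuousAt
  have hO : IsOpen O := isOpen_ne_fun (continuous_const.inner hgc) continuous_const
  let ψ : E3 × E3 → ℝ × ℝ := fun z => (⟪d, g z⟫ / ⟪m0, g z⟫, ⟪cross m0 d, g z⟫ / ⟪m0, g z⟫)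
  have hψ : ∀ z ∈ O, ContDiffAt ℝ 1 ψ z := fun z hz =>
    ((contDiffAt_const.inner ℝ (hg z)).div (contDiffAt_const.inner ℝ (hg z)) hz).prodMk
      ((contDiffAt_const.inner ℝ (hg z)).div (contDiffAt_const.inner ℝ (hg z)) hz)
  have hk : ∀ u, ‖w u‖⁻¹ ≠ 0 := fun u => inv_ne_zero (norm_ne_zero_iff.2 (wne u))
  have hgφ : ∀ u, g (φ u) = (2 * ‖w u‖⁻¹ * ‖w u‖⁻¹) • w u := fun u => by
    rw [hgm _ (hm u), real_inner_comm, inner_smul_right, w0, mul_one, smul_smul]
  have hφO : ∀ u, φ u ∈ O := fun u => by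
    show ⟪m0, g (φ u)⟫ ≠ 0
    rw [hgφ, inner_smul_right, w0, mul_one]
    exact mul_ne_zero (mul_ne_zero two_ne_zero (hk u)) (hk u)
  have hψφ : ∀ u, ψ (φ u) = u := fun u => by
    simp only [ψ, hgφ, inner_smul_right, w0, w1, w2]
    have := norm_ne_zero_iff.2 (wne u)
    refine Prod.ext ?_ ?_ <;> dsimp only <;> field_simp
  have himg : ∀ n : E3, ⟪n, n⟫ = 1 → ⟪m0, n⟫ ≠ 0 → (half n x1, r • half n e1) ∈ φ '' univ := by
    intro n hn hn0
    refine ⟨(⟪d, n⟫ / ⟪m0, n⟫, ⟪cross m0 d, n⟫ / ⟪m0, n⟫), trivial, ?_⟩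
    have : w (⟪d, n⟫ / ⟪m0, n⟫, ⟪cross m0 d, n⟫ / ⟪m0, n⟫) = ⟪m0, n⟫⁻¹ • n := by
      rw [hw]
      conv_rhs => rw [← hf.expand n]
      rw [← fr_smul]
      congr 1
      apply ext3 <;> simp [hf.expand] <;> field_simp
    simp only [φ, m, this, half_normalize hn (inv_ne_zero hn0)]
  refine ⟨φ, univ, ⟨isOpen_univ, hφ.contDiffOn, fun u _ => ?_, ?_, O, hO, ?_⟩,
    himg m0 hm0 (by rw [hm0]; exact one_ne_zero)⟩
  · have a := ((hψ _ (hφO u)).differentiableAt one_ne_zero).hasFDerivAt.comp u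
      (hφ.differentiable one_ne_zero u).hasFDerivAt
    have b : ψ ∘ φ = id := funext hψφ
    rw [b] at a
    have e := a.unique (hasFDerivAt_id u)
    refine Function.LeftInverse.injective (g := fderiv ℝ ψ (φ u)) fun v => ?_
    exact congrArg (fun L : ℝ × ℝ →L[ℝ] ℝ × ℝ => L v) e
  · have a : Continuous fun z : O => ψ z :=
      continuousOn_iff_continuous_domRestrict.1 fun z hz => (hψ z hz).continuousAt.continuousWithinAt
    have b : Continuous fun u : (univ : Set (ℝ × ℝ)) => (⟨φ u, hφO u⟩ : O) :=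
      (hφ.continuous.comp continuous_subtype_val).subtype_mk _
    have c : (fun z : O => ψ z) ∘ (fun u : (univ : Set (ℝ × ℝ)) => (⟨φ u, hφO u⟩ : O)) =
        Subtype.val := funext fun u => hψφ u
    exact Topology.IsEmbedding.subtypeVal.comp
      (Topology.IsEmbedding.of_comp b a (by rw [c]; exact Topology.IsEmbedding.subtypeVal))
  · refine Subset.antisymm ?_ ?_
    · rintro _ ⟨u, -, rfl⟩
      exact ⟨⟨m u, hm u, rfl⟩, hφO u⟩
    · rintro _ ⟨⟨n, hn, rfl⟩, hO'⟩
      refine himg n hn fun e => hO' ?_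
      rw [hgm n hn, inner_smul_right, e, mul_zero]

theorem IsVectorField.eq_parallel {r : ℝ} (hr : 0 < r) {U : Set E3} {V : E3 → E3}
    (h : IsVectorField r U V) {a b : E3} (hab : Fr a b) (hP : graphClosure U V ⊆ plane r a (-b)) :
    -a ∉ U ∧ ∀ p ∈ U, V p = r • parallelField a b p := by
  have key : ∀ p ∈ U, p ≠ -a → V p = r • parallelField a b p := by
    intro p hp hpa
    obtain ⟨m, hm, e⟩ := hP (subset_closure ⟨p, hp, rfl⟩)
    have e1 : p = half m a := congrArg Prod.fst e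
    have e2 : V p = r • half m (-b) := congrArg Prod.snd e
    have hma : ⟪m, a⟫ ≠ 0 := fun h0 => hpa (by rw [e1, half, h0]; simp)
    rw [e2, e1, (parallel_half hab hm hma).2]
  have hna : -a ∉ U := by
    intro ha
    obtain ⟨O, hO, hUO⟩ := h.1
    have lim : ∀ m : E3, ⟪m, m⟫ = 1 → ⟪m, a⟫ = 0 → V (-a) = r • half m (-b) := by
      intro m hm hma
      obtain ⟨M, hM, hev⟩ := exists_seq_axis hab.1 hm hma
      have hc : Continuous fun m : E3 => half m a := by fun_prop
      have hc' : Continuous fun m : E3 => r • half m (-b) := by fun_prop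
      have e : half m a = -a := by rw [half, hma]; simp
      have t1 : Tendsto (fun t => half (M t) a) (𝓝[>] 0) (𝓝 (-a)) := e ▸ (hc.tendsto m).comp hM
      have hU : ∀ᶠ t in 𝓝[>] (0 : ℝ), half (M t) a ∈ U := by
        filter_upwards [hev, t1.eventually (hO.mem_nhds (hUO ▸ ha : -a ∈ sphere 0 1 ∩ O).2)]
          with t ht htO
        rw [hUO]
        refine ⟨?_, htO⟩
        simpa using norm_of_inner_self (p := half (M t) a) (by rw [half_inner ht.1, hab.1])
      have t2 := (h.2.2.1 _ ha).tendsto.comp (tendsto_nhdsWithin_iff.2 ⟨t1, hU⟩)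
      refine tendsto_nhds_unique (t2.congr' ?_) ((hc'.tendsto m).comp hM)
      filter_upwards [hev, hU] with t ht htU
      obtain ⟨h1, h2⟩ := parallel_half hab ht.1 ht.2
      simp only [Function.comp_apply]
      rw [key _ htU h1, h2]
    obtain ⟨c1, c2, c3⟩ := cross_unit hab
    have l1 := lim b hab.2.2 (by rw [real_inner_comm, hab.2.1])
    have l2 := lim _ c1 c2
    rw [l1] at l2
    have l3 := congrArg (fun w => ⟪b, w⟫) (smul_right_injective _ hr.ne' l2)
    simp only [half, inner_neg_right, hab.2.2, c3, inner_sub_right, inner_smul_right] at l3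
    norm_num at l3
  exact ⟨hna, fun p hp => key p hp fun e => hna (e ▸ hp)⟩

theorem main {r : ℝ} (hr : 0 < r) {U : Set E3} {V : E3 → E3} (h : IsVectorField r U V)
    (hsurf : IsSurface (graphClosure U V)) {a b : E3} (hab : Fr a b) :
    area (plane r a (-b)) < ⊤ ∧ area (plane r a (-b)) ≤ area (graphClosure U V) ∧
      (area (graphClosure U V) = area (plane r a (-b)) →
        ∃ a' b', Fr a' b' ∧ -a' ∉ U ∧ ∀ p ∈ U, V p = r • parallelField a' b' p) := by
  have h1 := area_le_of_plane hr (plane_subset hr hab.neg) (x1 := a) (e1 := -b) Subset.rfl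
  have hsur : ∀ c y : E3, c ≠ 0 → ‖y‖ = ‖c‖ →
      ∃ z ∈ graphClosure U V, fr z.1 (r⁻¹ • z.2) c = y := fun c y => h.surj hr hsurf
  refine ⟨?_, ?_, fun e => ?_⟩
  · rcases ENNReal.mul_lt_top_iff.1 (h1.trans_lt (crofConst_lt_top r)) with a | a | a
    exacts [a.2, absurd a cosConst_pos.ne', by simp [a]]
  · exact (ENNReal.mul_le_mul_iff_right cosConst_pos.ne' cosConst_lt_top.ne).1
      (h1.trans (le_area hr h.subset_bundle h.isCompact hsurf hsur))
  · rcases subset_plane_or_lt hr h.subset_bundle h.isCompact hsurf hsur with hlt | ⟨x1, e1, hf, hP⟩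
    · rw [e] at hlt
      exact absurd h1 (not_le.2 hlt)
    · exact ⟨x1, -e1, hf.neg, h.eq_parallel hr hf.neg (by rwa [neg_neg])⟩

end Pool.Agent.Lib.MP_396e7f_gt
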