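import Pool.Agent.Lib.MP_396e7f_gt.Slice

open Set Filter Metric
open scoped RealInnerProductSpace Topology

namespace Pool.Agent.Lib.MP_396e7f_gt

theorem isClosed_bundle (r : ℝ) : IsClosed (sphereBundle r) := by
  unfold sphereBundle
  refine IsClosed.and ?_ (IsClosed.and ?_ ?_) <;> exact isClosed_eq (by fun_prop) (by fun_prop)

theorem isCompact_bundle (r : ℝ) : IsCompact (sphereBundle r) := by
  refine ((isCompact_sphere (0 : E3) 1).prod (isCompact_sphere (0 : E3) r)).of_isClosed_subset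
    (isClosed_bundle r) fun z hz => ⟨by simpa using hz.1, by simpa using hz.2.2⟩

theorem inner_self_of_norm {p : E3} (h : ‖p‖ = 1) : ⟪p, p⟫ = 1 := by
  rw [real_inner_self_eq_norm_sq, h, one_pow]

theorem norm_of_inner_self {p : E3} (h : ⟪p, p⟫ = 1) : ‖p‖ = 1 := by
  rw [norm_eq_sqrt_real_inner, h, Real.sqrt_one]

theorem inner_self_normalize {p : E3} (h : p ≠ 0) : ⟪‖p‖⁻¹ • p, ‖p‖⁻¹ • p⟫ = 1 :=
  inner_self_of_norm (norm_smul_inv_norm h)

theorem exists_unit_orth (p : E3) : ∃ m : E3, ⟪m, m⟫ = 1 ∧ ⟪m, p⟫ = 0 := by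
  by_cases h : vec (-p 1) (p 0) 0 = 0
  · have h1 : -p 1 = 0 := congrArg (fun w : E3 => w 0) h
    have h0 : p 0 = 0 := congrArg (fun w : E3 => w 1) h
    exact ⟨vec 1 0 0, by rw [inner3]; simp, by rw [inner3]; simp [h0]⟩
  · refine ⟨_, inner_self_normalize h, ?_⟩
    rw [inner_smul_left, inner3, vec0, vec1, vec2]; ring

theorem half_bisector {p y : E3} (hp : ⟪p, p⟫ = 1) (hy : ⟪y, y⟫ = 1) (h : p + y ≠ 0) (q : E3) :
    half (‖p + y‖⁻¹ • (p + y)) q = (⟪p + y, q⟫ / (1 + ⟪y, p⟫)) • (p + y) - q := by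
  have h1 : ‖p + y‖ ^ 2 = 2 * (1 + ⟪y, p⟫) := by
    rw [← real_inner_self_eq_norm_sq, inner_add_left, inner_add_right, inner_add_right, hp, hy,
      real_inner_comm y p]; ring
  have h2 : ‖p + y‖ ≠ 0 := norm_ne_zero_iff.2 h
  have h3 : 1 + ⟪y, p⟫ = ‖p + y‖ ^ 2 / 2 := by rw [h1]; ring
  rw [half, inner_smul_left, smul_smul, h3]
  congr 2
  simp only [conj_trivial]
  field_simp

theorem one_add_inner_ne {p y : E3} (hp : ⟪p, p⟫ = 1) (hy : ⟪y, y⟫ = 1) (h : p + y ≠ 0) :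
    1 + ⟪y, p⟫ ≠ 0 := by
  have h1 : ‖p + y‖ ^ 2 = 2 * (1 + ⟪y, p⟫) := by
    rw [← real_inner_self_eq_norm_sq, inner_add_left, inner_add_right, inner_add_right, hp, hy,
      real_inner_comm y p]; ring
  have h2 : 0 < ‖p + y‖ ^ 2 := pow_pos (norm_pos_iff.2 h) 2
  intro h0
  rw [h0] at h1
  linarith

theorem half_bisector_self {p y : E3} (hp : ⟪p, p⟫ = 1) (hy : ⟪y, y⟫ = 1) (h : p + y ≠ 0) :
    half (‖p + y‖⁻¹ • (p + y)) p = y := by
  rw [half_bisector hp hy h, inner_add_left, hp, div_self (one_add_inner_ne hp hy h), one_smul]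
  abel

theorem exists_half {p y : E3} (hp : ⟪p, p⟫ = 1) (hy : ⟪y, y⟫ = 1) :
    ∃ m : E3, ⟪m, m⟫ = 1 ∧ half m p = y := by
  by_cases h : p + y = 0
  · obtain ⟨m, h1, h2⟩ := exists_unit_orth p
    refine ⟨m, h1, ?_⟩
    rw [half, h2, mul_zero, zero_smul, zero_sub]
    exact (eq_neg_of_add_eq_zero_right h).symm
  · exact ⟨_, inner_self_normalize h, half_bisector_self hp hy h⟩

theorem rot_mem {r : ℝ} (hr : 0 < r) {y : E3} (hy : ⟪y, y⟫ = 1) (t : ℝ) {z : E3 × E3}
    (hz : z ∈ sphereBundle r) : (rot y t z.1, rot y t z.2) ∈ sphereBundle r := by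
  rw [mem_bundle_iff hr] at hz ⊢
  simpa only [Fr, ← rot_smul, rot_inner hy] using hz

theorem exists_homotopy {r : ℝ} (hr : 0 < r) {x0 v0 m y : E3} (hz0 : (x0, v0) ∈ sphereBundle r)
    (hm : ⟪m, m⟫ = 1) (hy : ⟪y, y⟫ = 1) :
    ∃ H : ℝ × ℝ → sphereBundle r, Continuous H ∧ (∀ s t, H (s, t + 2 * Real.pi) = H (s, t)) ∧
      (∀ t, (H (0, t)).1 = (rot y t (half m x0), rot y t (half m v0))) ∧
      ∀ t, (H (1, t)).1 = (x0, rot x0 t v0) := by
  have hpc : IsPathConnected (sphere (0 : E3) 1) :=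
    isPathConnected_sphere (by simp [← Module.finrank_eq_rank]) _ zero_le_one
  have hj : JoinedIn (sphere (0 : E3) 1) y x0 :=
    hpc.joinedIn _ (by simpa using norm_of_inner_self hy) _ (by simpa using hz0.1)
  obtain ⟨Y, hYc, hY0, hY1, hY⟩ : ∃ Y : ℝ → E3, Continuous Y ∧ Y 0 = y ∧ Y 1 = x0 ∧
      ∀ s, ⟪Y s, Y s⟫ = 1 :=
    ⟨hj.somePath.extend, hj.somePath.continuous_extend, hj.somePath.extend_zero,
      hj.somePath.extend_one, fun s => inner_self_of_norm
        (mem_sphere_zero_iff_norm.1 (hj.somePath_mem (projIcc 0 1 zero_le_one s)))⟩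
  have hc : Continuous fun a : ℝ × ℝ => ((rot (Y a.1) a.2 (rot m ((1 - a.1) * Real.pi) x0),
      rot (Y a.1) a.2 (rot m ((1 - a.1) * Real.pi) v0)) : E3 × E3) := by fun_prop
  have hmem : ∀ a : ℝ × ℝ, ((rot (Y a.1) a.2 (rot m ((1 - a.1) * Real.pi) x0),
      rot (Y a.1) a.2 (rot m ((1 - a.1) * Real.pi) v0)) : E3 × E3) ∈ sphereBundle r := by
    intro a
    have h1 := rot_mem hr hm ((1 - a.1) * Real.pi) hz0
    have h2 := rot_mem hr (hY a.1) a.2 h1
    simpa only using h2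
  refine ⟨fun a => ⟨_, hmem a⟩, hc.subtype_mk hmem, fun s t => ?_, fun t => ?_, fun t => ?_⟩
  · apply Subtype.ext
    simp only [rot_periodic]
  · simp only [sub_zero, one_mul, rot_pi, hY0]
  · simp only [sub_self, zero_mul, rot_zero, hY1, rot_self (inner_self_of_norm hz0.1)]

namespace IsVectorField

variable {r : ℝ} {U : Set E3} {V : E3 → E3} (h : IsVectorField r U V)
include h

theorem subset_bundle : graphClosure U V ⊆ sphereBundle r :=
  closure_minimal (by rintro _ ⟨x, hx, rfl⟩; exact h.2.2.2 x hx) (isClosed_bundle r)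

theorem isCompact : IsCompact (graphClosure U V) :=
  (isCompact_bundle r).of_isClosed_subset isClosed_closure h.subset_bundle

theorem eq_of_mem {z : E3 × E3} (hz : z ∈ graphClosure U V) (hU : z.1 ∈ U) : z.2 = V z.1 := by
  obtain ⟨s, hs, hlim⟩ := mem_closure_iff_seq_limit.1 hz
  choose x hx hxs using hs
  have h1 : Tendsto x atTop (𝓝[U] z.1) := by
    refine tendsto_nhdsWithin_iff.2 ⟨?_, Eventually.of_forall hx⟩
    refine ((continuous_fst.tendsto z).comp hlim).congr fun n => ?_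
    simp [← hxs n]
  have h2 : Tendsto (fun n => V (x n)) atTop (𝓝 z.2) := by
    refine ((continuous_snd.tendsto z).comp hlim).congr fun n => ?_
    simp [← hxs n]
  exact tendsto_nhds_unique h2 ((h.2.2.1 _ hU).tendsto.comp h1)

theorem nonempty : U.Nonempty := by
  have : (vec 1 0 0 : E3) ∈ sphere (0 : E3) 1 := by
    simpa using norm_of_inner_self (p := vec 1 0 0) (by rw [inner3]; simp)
  exact closure_nonempty_iff.1 ⟨_, h.2.1 this⟩

theorem surj_unit (hr : 0 < r) (hsurf : IsSurface (graphClosure U V)) {c y : E3}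
    (hc : ⟪c, c⟫ = 1) (hy : ⟪y, y⟫ = 1) :
    ∃ z ∈ graphClosure U V, fr z.1 (r⁻¹ • z.2) c = y := by
  by_contra hcon
  push Not at hcon
  obtain ⟨x0, hx0⟩ := h.nonempty
  have hz0 := h.2.2.2 x0 hx0
  have hfr : Fr x0 (r⁻¹ • V x0) := (mem_bundle_iff hr).1 hz0
  obtain ⟨m, hm, hmp⟩ := exists_half (p := fr x0 (r⁻¹ • V x0) c) (by rw [hfr.inner_fr, hc]) hy
  obtain ⟨H, hH, hper, hH0, hH1⟩ := exists_homotopy hr hz0 hm hy
  obtain ⟨O, hO, hUO⟩ := h.1
  have hxv : ⟪x0, V x0⟫ = 0 := hz0.2.1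
  let A : Set (sphereBundle r) := {z | z.1.1 ∈ O}
  have hA : IsOpen A := hO.preimage (by fun_prop)
  have hAU : ∀ z ∈ A, z.1.1 ∈ U := fun z hz => hUO ▸ ⟨by simpa using z.2.1, hz⟩
  have hVc : ContinuousOn (fun z : sphereBundle r => V z.1.1) A :=
    h.2.2.1.comp (by fun_prop) hAU
  let N : Set (sphereBundle r) := A ∩ (fun z => ⟪z.1.2, V z.1.1⟫) ⁻¹' Ioi 0
  have hN : IsOpen N := ContinuousOn.isOpen_inter_preimage
    (ContinuousOn.inner (by fun_prop) hVc) hA isOpen_Ioi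
  have hvv : ⟪V x0, V x0⟫ = r ^ 2 := by
    rw [real_inner_self_eq_norm_sq]; exact congrArg (· ^ 2) hz0.2.2
  have key := no_single_crossing (S := (Subtype.val ⁻¹' graphClosure U V : Set (sphereBundle r)))
    (isClosed_closure.preimage continuous_subtype_val)
    (exists_localSide hr h.subset_bundle hsurf) hH (T := 2 * Real.pi) (by positivity)
    hper ?_ ?_ ?_ (N := N) ?_
    (g := fun z => ⟪z.1.2, cross z.1.1 (V z.1.1)⟫) ?_ ?_
  · obtain ⟨t, ht⟩ := key.exists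
    simp only [hH1] at ht
    have e : ∀ t, ⟪rot x0 t (V x0), cross x0 (V x0)⟫ =
        Real.sin t * ⟪cross x0 (V x0), cross x0 (V x0)⟫ := by
      intro t
      simp only [rot, inner3, PiLp.add_apply, PiLp.smul_apply, smul_eq_mul, cross0, cross1, cross2]
      ring
    rw [e, e, Real.sin_neg] at ht
    nlinarith [sq_nonneg (Real.sin t * ⟪cross x0 (V x0), cross x0 (V x0)⟫)]
  · intro t ht
    refine hcon _ ht ?_
    rw [hH0]
    dsimp only
    rw [← rot_smul, rot_fr hy, ← half_smul, half_fr hm, hmp, rot_self hy]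
  · intro t ht hmem
    have := h.eq_of_mem hmem (by rw [hH1]; exact hx0)
    rw [hH1] at this
    have e := congrArg (fun w => ⟪w, V x0⟫) this
    have e2 : ⟪rot x0 t (V x0), V x0⟫ = Real.cos t * ⟪V x0, V x0⟫ := by
      rw [rot, hxv]
      simp only [inner3, PiLp.add_apply, PiLp.smul_apply, smul_eq_mul, cross0, cross1, cross2]
      ring
    simp only [e2, hvv] at e
    have hcos : Real.cos t = 1 := by
      have : r ^ 2 ≠ 0 := by positivity
      exact mul_right_cancel₀ this (by rw [e, one_mul])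
    rw [Real.cos_eq_one_iff_of_lt_of_lt (by linarith [ht.1, Real.pi_pos]) ht.2] at hcos
    exact ht.1.ne' hcos
  · show (H (1, 0)).1 ∈ graphClosure U V
    rw [hH1, rot_zero]
    exact subset_closure ⟨x0, hx0, rfl⟩
  · refine hN.mem_nhds ⟨?_, ?_⟩
    · show (H (1, 0)).1.1 ∈ O
      rw [hH1]
      exact (hUO ▸ hx0 : x0 ∈ sphere 0 1 ∩ O).2
    · show 0 < ⟪(H (1, 0)).1.2, V (H (1, 0)).1.1⟫
      rw [hH1, rot_zero, hvv]; positivity
  · exact ContinuousOn.inner (by fun_prop)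
      (continuousOn_cross (by fun_prop) (hVc.mono inter_subset_left))
  · rintro ⟨⟨x, w⟩, hz⟩ ⟨hzA, hpos⟩ hnot h0
    apply hnot
    have hxU : x ∈ U := hAU _ hzA
    have hf : Fr x (r⁻¹ • V x) := (mem_bundle_iff hr).1 (h.2.2.2 x hxU)
    have hpos' : 0 < ⟪w, V x⟫ := hpos
    have h0' : ⟪w, cross x (V x)⟫ = 0 := h0
    have e := hf.expand w
    have a1 : ⟪x, w⟫ = 0 := hz.2.1
    have a2 : ⟪cross x (r⁻¹ • V x), w⟫ = 0 := by
      have : ⟪cross x (r⁻¹ • V x), w⟫ = r⁻¹ * ⟪w, cross x (V x)⟫ := by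
        simp only [inner3, PiLp.smul_apply, smul_eq_mul, cross0, cross1, cross2]; ring
      rw [this, h0', mul_zero]
    rw [a1, a2] at e
    set l := ⟪r⁻¹ • V x, w⟫ with hl
    have hl0 : 0 < l := by
      rw [hl, inner_smul_left, real_inner_comm]; simp only [conj_trivial]; positivity
    have e' : w = l • r⁻¹ • V x := by rw [← e]; simp [fr]
    have hn : ‖w‖ = r := hz.2.2
    rw [e', norm_smul, norm_of_inner_self hf.2.2, mul_one, Real.norm_of_nonneg hl0.le] at hn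
    have : w = V x := by rw [e', hn, smul_smul, mul_inv_cancel₀ hr.ne', one_smul]
    exact subset_closure ⟨x, hxU, Prod.ext rfl this.symm⟩

theorem surj (hr : 0 < r) (hsurf : IsSurface (graphClosure U V)) {c y : E3} (hc : c ≠ 0)
    (hy : ‖y‖ = ‖c‖) : ∃ z ∈ graphClosure U V, fr z.1 (r⁻¹ • z.2) c = y := by
  have hy0 : y ≠ 0 := by rw [← norm_ne_zero_iff, hy, norm_ne_zero_iff]; exact hc
  obtain ⟨z, hz, e⟩ := h.surj_unit hr hsurf (inner_self_normalize hc) (inner_self_normalize hy0)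
  rw [fr_smul, hy] at e
  exact ⟨z, hz, smul_right_injective _ (inv_ne_zero (norm_ne_zero_iff.2 hc)) e⟩

end IsVectorField

end Pool.Agent.Lib.MP_396e7f_gt
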