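import Pool.Agent.Lib.MP_396e7f_gt.Jac
import Pool.Agent.Lib.MP_396e7f_gt.Surj

open Set Filter Metric MeasureTheory
open scoped RealInnerProductSpace Topology ENNReal Pointwise

namespace Pool.Agent.Lib.MP_396e7f_gt

/-- The punctured ball of radius `‖c‖` in coordinates. -/
def shell (c : E3) : Set D3 := toD '' (ball 0 ‖c‖ \ {0})

/-- Volume of the punctured unit ball. -/
noncomputable def beta : ℝ≥0∞ := volume (toD '' (ball (0 : E3) 1 \ {0}))

theorem beta_lt_top : beta < ⊤ :=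
  (measure_mono (image_mono (sdiff_subset.trans ball_subset_closedBall))).trans_lt
    ((isCompact_closedBall (0 : E3) 1).image toD.continuous).measure_lt_top

/-- The lower bound for the Crofton integrand. -/
noncomputable def kk (c : E3) : ℝ≥0∞ := ENNReal.ofReal (3 * ‖c‖) * beta

theorem volume_shell {c : E3} (hc : c ≠ 0) :
    volume (shell c) = ENNReal.ofReal (‖c‖ ^ 2 / 3) * kk c := by
  have hc' : 0 < ‖c‖ := norm_pos_iff.2 hc
  have : shell c = ‖c‖ • (toD '' (ball (0 : E3) 1 \ {0})) := by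
    rw [← image_smul_set, smul_set_sdiff₀ hc'.ne', smul_unitBall_of_pos hc', smul_set_singleton,
      smul_zero, shell]
  rw [this, Measure.addHaar_smul_of_nonneg _ hc'.le, kk, ← mul_assoc,
    ← ENNReal.ofReal_mul (by positivity)]
  congr 2
  simp; ring

/-- The Crofton constant. -/
noncomputable def crofConst (r : ℝ) : ℝ≥0∞ := ∫⁻ c in ball (0 : E3) 1, kk (dil r c)

theorem crofConst_lt_top (r : ℝ) : crofConst r < ⊤ := by
  obtain ⟨C, hC⟩ := (isCompact_closedBall (0 : E3) 1).exists_bound_of_continuousOn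
    (continuous_dil r).continuousOn
  calc crofConst r ≤ ∫⁻ _c in ball (0 : E3) 1, ENNReal.ofReal (3 * C) * beta := by
        refine setLIntegral_mono' measurableSet_ball fun c hc => ?_
        unfold kk
        gcongr
        exact hC c (ball_subset_closedBall hc)
    _ < ⊤ := by
        rw [setLIntegral_const]
        exact ENNReal.mul_lt_top (ENNReal.mul_lt_top ENNReal.ofReal_lt_top beta_lt_top)
          measure_ball_lt_top

theorem dil_ne_zero {r : ℝ} (hr : 0 < r) {c : E3} (hc : c ≠ 0) : dil r c ≠ 0 := by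
  intro h
  have h0 : c 0 = 0 := congrArg (fun w : E3 => w 0) h
  have h1 : r * c 1 = 0 := congrArg (fun w : E3 => w 1) h
  have h2 : r * c 2 = 0 := congrArg (fun w : E3 => w 2) h
  exact hc (ext3 h0 ((mul_eq_zero.1 h1).resolve_left hr.ne') ((mul_eq_zero.1 h2).resolve_left hr.ne'))

theorem ae_ne_zero : ∀ᵐ c ∂(volume.restrict (ball (0 : E3) 1)), c ≠ 0 :=
  ae_restrict_of_ae (by simp [ae_iff])

theorem IsChart.cone_subset {r : ℝ} (hr : 0 < r) {S : Set (E3 × E3)} (hS : S ⊆ sphereBundle r)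
    {φ : ℝ × ℝ → E3 × E3} {W A : Set (ℝ × ℝ)} (h : IsChart S φ W) (hAW : A ⊆ W) {c : E3}
    (hc : c ≠ 0) : coneMap r c φ '' (A ×ˢ Ioo (0 : ℝ) 1) ⊆ shell c := by
  rintro _ ⟨y, ⟨hy, ht⟩, rfl⟩
  have hc' : 0 < ‖c‖ := norm_pos_iff.2 hc
  have hn : ‖y.2 • Pool.Agent.Lib.MP_396e7f_gt.fr (φ y.1).1 (r⁻¹ • (φ y.1).2) c‖ = y.2 * ‖c‖ := by
    rw [norm_smul, (h.fr hr hS (hAW hy)).norm_fr, Real.norm_of_nonneg ht.1.le]
  refine ⟨_, ⟨?_, ?_⟩, rfl⟩
  · rw [mem_ball_zero_iff, hn]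
    exact mul_lt_of_lt_one_left hc' ht.2
  · rw [mem_singleton_iff, ← norm_eq_zero, hn]
    exact (mul_pos ht.1 hc').ne'

/-- The projective plane of frames obtained from `(x₁, e₁)` by half-turns. -/
def plane (r : ℝ) (x1 e1 : E3) : Set (E3 × E3) :=
  {z | ∃ m : E3, ⟪m, m⟫ = 1 ∧ z = (half m x1, r • half m e1)}

theorem fr_of_plane {r : ℝ} (hr : 0 < r) {x1 e1 m : E3} (hm : ⟪m, m⟫ = 1) {z : E3 × E3}
    (hz : z = (half m x1, r • half m e1)) (c : E3) :
    fr z.1 (r⁻¹ • z.2) c = half m (fr x1 e1 c) := by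
  rw [hz]
  simp only [smul_smul, inv_mul_cancel₀ hr.ne', one_smul]
  exact half_fr hm _ _ _

theorem half_symm (m p q : E3) : ⟪p, half m q⟫ = ⟪q, half m p⟫ := by
  simp only [half, inner3, PiLp.sub_apply, PiLp.smul_apply, smul_eq_mul]; ring

theorem half_eq_of_eq {m m' p : E3} (hm : ⟪m, m⟫ = 1) (hm' : ⟪m', m'⟫ = 1)
    (h : half m p = half m' p) (hp : ⟪m, p⟫ ≠ 0) (q : E3) : half m q = half m' q := by
  have h1 : ⟪m, p⟫ • m = ⟪m', p⟫ • m' := by
    have : (2 * ⟪m, p⟫) • m = (2 * ⟪m', p⟫) • m' := sub_left_injective h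
    rw [mul_smul, mul_smul] at this
    exact smul_right_injective _ two_ne_zero this
  set a := ⟪m, p⟫
  set b := ⟪m', p⟫
  have h2 : a * a = b * b := by
    have := congrArg (fun w : E3 => ⟪w, w⟫) h1
    simpa only [inner_smul_left, inner_smul_right, conj_trivial, hm, hm', mul_one] using this
  have h3 : m = (b / a) • m' := by
    rw [div_eq_inv_mul, mul_smul, ← h1, smul_smul, inv_mul_cancel₀ hp, one_smul]
  rw [half, half, h3, inner_smul_left, smul_smul]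
  congr 2
  simp only [conj_trivial]
  field_simp
  linear_combination (-⟪m', q⟫) * h2

theorem orth_of_symm {n ω : E3} (hn : ⟪n, n⟫ = 1)
    (h : ∀ c d, ⟪half n c, cross ω d⟫ = ⟪half n d, cross ω c⟫) : ⟪ω, n⟫ = 0 := by
  have h0 := h (vec 0 1 0) (vec 0 0 1)
  have h1 := h (vec 0 0 1) (vec 1 0 0)
  have h2 := h (vec 1 0 0) (vec 0 1 0)
  simp only [half, inner3, PiLp.sub_apply, PiLp.smul_apply, smul_eq_mul, cross0, cross1, cross2,
    vec0, vec1, vec2] at *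
  beta_reduce at *
  grind

/-- The angular velocities of a chart with values in a plane are orthogonal to the axis. -/
theorem IsChart.angv_orth {r : ℝ} (hr : 0 < r) {S : Set (E3 × E3)} (hS : S ⊆ sphereBundle r)
    {φ : ℝ × ℝ → E3 × E3} {W : Set (ℝ × ℝ)} (h : IsChart S φ W) {u : ℝ × ℝ} (hu : u ∈ W)
    {x1 e1 : E3} (hev : ∀ᶠ v in 𝓝 u, φ v ∈ plane r x1 e1) {m n : E3} (hm : ⟪m, m⟫ = 1)
    (hz : φ u = (half m x1, r • half m e1))
    (hn : Pool.Agent.Lib.MP_396e7f_gt.fr (φ u).1 (r⁻¹ • (φ u).2) n = m) (w : ℝ × ℝ) :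
    ⟪angv r φ u w, n⟫ = 0 := by
  have hf := h.fr hr hS hu
  have hnn : ⟪n, n⟫ = 1 := by rw [← hf.inner_fr, hn, hm]
  refine orth_of_symm hnn fun c d => ?_
  obtain ⟨Lc, hc1, hc2⟩ := h.hasFDerivAt_fr hr hS c hu
  obtain ⟨Ld, hd1, hd2⟩ := h.hasFDerivAt_fr hr hS d hu
  have a1 := (innerSL ℝ (Pool.Agent.Lib.MP_396e7f_gt.fr x1 e1 c)).hasFDerivAt.comp u hd1
  have a2 := (innerSL ℝ (Pool.Agent.Lib.MP_396e7f_gt.fr x1 e1 d)).hasFDerivAt.comp u hc1
  have a3 := a1.congr_of_eventuallyEq (f₁ := (innerSL ℝ (Pool.Agent.Lib.MP_396e7f_gt.fr x1 e1 d)) ∘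
      fun v => Pool.Agent.Lib.MP_396e7f_gt.fr (φ v).1 (r⁻¹ • (φ v).2) c) (by
    filter_upwards [hev] with v ⟨m', hm', hv⟩
    simp only [Function.comp_apply, innerSL_apply_apply, fr_of_plane hr hm' hv]
    exact half_symm _ _ _)
  have a4 := congrArg (fun L : ℝ × ℝ →L[ℝ] ℝ => L w) (a3.unique a2)
  simp only [ContinuousLinearMap.comp_apply, innerSL_apply_apply, hc2, hd2] at a4
  have key : ∀ c, Pool.Agent.Lib.MP_396e7f_gt.fr x1 e1 c =
      Pool.Agent.Lib.MP_396e7f_gt.fr (φ u).1 (r⁻¹ • (φ u).2) (half n c) := by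
    intro c
    rw [hf.fr_half, hn, fr_of_plane hr hm hz, half_half hm]
  rwa [key, key, hf.inner_fr, hf.inner_fr] at a4

theorem cross_orth {p q n : E3} (hn : ⟪n, n⟫ = 1) (hp : ⟪p, n⟫ = 0) (hq : ⟪q, n⟫ = 0) :
    cross p q = ⟪cross p q, n⟫ • n := by
  apply ext3 <;>
  simp only [inner3, PiLp.smul_apply, smul_eq_mul, cross0, cross1, cross2] at * <;>
  beta_reduce at * <;> grind

theorem IsChart.nrm_eq {r : ℝ} (hr : 0 < r) {S : Set (E3 × E3)} (hS : S ⊆ sphereBundle r)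
    {φ : ℝ × ℝ → E3 × E3} {W : Set (ℝ × ℝ)} (h : IsChart S φ W) {u : ℝ × ℝ} (hu : u ∈ W)
    {x1 e1 : E3} (hev : ∀ᶠ v in 𝓝 u, φ v ∈ plane r x1 e1) {m n : E3} (hm : ⟪m, m⟫ = 1)
    (hz : φ u = (half m x1, r • half m e1))
    (hn : Pool.Agent.Lib.MP_396e7f_gt.fr (φ u).1 (r⁻¹ • (φ u).2) n = m) :
    nrm r φ u = ⟪nrm r φ u, n⟫ • n := by
  have hnn : ⟪n, n⟫ = 1 := by rw [← (h.fr hr hS hu).inner_fr, hn, hm]
  exact cross_orth hnn (h.angv_orth hr hS hu hev hm hz hn _) (h.angv_orth hr hS hu hev hm hz hn _)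

theorem cancel_const {c : E3} (hc : c ≠ 0) {a b : ℝ≥0∞} :
    ENNReal.ofReal (‖c‖ ^ 2 / 3) * a ≤ ENNReal.ofReal (‖c‖ ^ 2 / 3) * b ↔ a ≤ b := by
  have : 0 < ‖c‖ := norm_pos_iff.2 hc
  exact ENNReal.mul_le_mul_iff_right (ENNReal.ofReal_pos.2 (by positivity)).ne' ENNReal.ofReal_ne_top

theorem sum_crof_le {r : ℝ} (hr : 0 < r) {S : Set (E3 × E3)} (hS : S ⊆ sphereBundle r)
    {x1 e1 : E3} (hP : S ⊆ plane r x1 e1) {n : ℕ} {φ : Fin n → ℝ × ℝ → E3 × E3}
    {W A : Fin n → Set (ℝ × ℝ)}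
    (h : ∀ i, IsChart S (φ i) (W i) ∧ MeasurableSet (A i) ∧ A i ⊆ W i)
    (hd : Pairwise fun i j => Disjoint (φ i '' A i) (φ j '' A j)) {c : E3} (hc : c ≠ 0) :
    ∑ i, crof r c (φ i) (A i) ≤ kk c := by
  let G : Fin n → Set (ℝ × ℝ) := fun i =>
    W i ∩ (fun u => fr (φ i u).1 (r⁻¹ • (φ i u).2) c + fr x1 e1 c) ⁻¹' {0}ᶜ
  have hG : ∀ i, IsOpen (G i) := by
    intro i
    have := (h i).1.2.1.continuousOn
    exact ContinuousOn.isOpen_inter_preimage (by fun_prop) (h i).1.1 isOpen_compl_singleton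
  have hA' : ∀ i, MeasurableSet (A i ∩ G i) := fun i => (h i).2.1.inter (hG i).measurableSet
  have hAW : ∀ i, A i ∩ G i ⊆ W i := fun i => inter_subset_left.trans (h i).2.2
  have e1' : ∀ i, crof r c (φ i) (A i) = crof r c (φ i) (A i ∩ G i) := by
    intro i
    unfold crof
    rw [← lintegral_inter_add_sdiff _ (A i) (hG i).measurableSet,
      setLIntegral_congr_fun ((h i).2.1.diff (hG i).measurableSet) (g := fun _ => 0),
      lintegral_zero, add_zero]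
    rintro u ⟨huA, huG⟩
    have huW := (h i).2.2 huA
    obtain ⟨m, hm, hz⟩ := hP ((h i).1.mapsTo huW)
    have hf := (h i).1.fr hr hS huW
    have hbad : fr (φ i u).1 (r⁻¹ • (φ i u).2) c + fr x1 e1 c = 0 := by
      by_contra hne; exact huG ⟨huW, hne⟩
    have hev : ∀ᶠ v in 𝓝 u, φ i v ∈ plane r x1 e1 := by
      filter_upwards [(h i).1.1.mem_nhds huW] with v hv using hP ((h i).1.mapsTo hv)
    have hn := hf.expand m
    set nn := vec ⟪(φ i u).1, m⟫ ⟪r⁻¹ • (φ i u).2, m⟫ ⟪cross (φ i u).1 (r⁻¹ • (φ i u).2), m⟫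
    have h1 := (h i).1.nrm_eq hr hS huW hev hm hz hn
    have h2 : ⟪nn, c⟫ = 0 := by
      rw [← hf.inner_fr, hn]
      have h3 := congrArg (fun w => ⟪m, w⟫) hbad
      have h4 : fr x1 e1 c = half m (fr (φ i u).1 (r⁻¹ • (φ i u).2) c) := by
        rw [fr_of_plane hr hm hz, half_half hm]
      simp only [h4, half, inner_add_right, inner_sub_right, inner_smul_right, hm,
        inner_zero_right] at h3
      linarith
    dsimp only
    rw [h1, inner_smul_left, h2]; simp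
  have key : ∀ i j, ∀ y ∈ (A i ∩ G i) ×ˢ Ioo (0 : ℝ) 1, ∀ y' ∈ (A j ∩ G j) ×ˢ Ioo (0 : ℝ) 1,
      coneMap r c (φ i) y = coneMap r c (φ j) y' → φ i y.1 = φ j y'.1 ∧ y.2 = y'.2 := by
    rintro i j y ⟨hy, ht⟩ y' ⟨hy', ht'⟩ e
    have e2 := toD.injective e
    have hc' : 0 < ‖c‖ := norm_pos_iff.2 hc
    have e3 := congrArg norm e2
    rw [norm_smul, norm_smul, ((h i).1.fr hr hS (hAW i hy)).norm_fr,
      ((h j).1.fr hr hS (hAW j hy')).norm_fr, Real.norm_of_nonneg ht.1.le,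
      Real.norm_of_nonneg ht'.1.le] at e3
    have e4 : y.2 = y'.2 := mul_right_cancel₀ hc'.ne' e3
    rw [← e4] at e2
    have e5 := smul_right_injective _ ht.1.ne' e2
    obtain ⟨m, hm, hz⟩ := hP ((h i).1.mapsTo (hAW i hy))
    obtain ⟨m', hm', hz'⟩ := hP ((h j).1.mapsTo (hAW j hy'))
    rw [fr_of_plane hr hm hz, fr_of_plane hr hm' hz'] at e5
    have hne : ⟪m, fr x1 e1 c⟫ ≠ 0 := by
      intro h0
      apply hy.2.2
      show fr _ _ c + _ = 0
      rw [fr_of_plane hr hm hz, half, h0]; simp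
    refine ⟨?_, e4⟩
    rw [hz, hz', half_eq_of_eq hm hm' e5 hne, half_eq_of_eq hm hm' e5 hne]
  have hv := fun i => (h i).1.le_volume_cone hr hS (hA' i) (hAW i) c (by
    intro y hy y' hy' e
    obtain ⟨a, b⟩ := key i i y hy y' hy' e
    exact Prod.ext ((h i).1.injOn (hAW i hy.1) (hAW i hy'.1) a) b)
  rw [← cancel_const hc, ← volume_shell hc, Finset.mul_sum]
  calc ∑ i, ENNReal.ofReal (‖c‖ ^ 2 / 3) * crof r c (φ i) (A i)
      ≤ ∑ i, volume (coneMap r c (φ i) '' ((A i ∩ G i) ×ˢ Ioo (0 : ℝ) 1)) :=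
        Finset.sum_le_sum fun i _ => by rw [e1']; exact (hv i).1
    _ = volume (⋃ i, coneMap r c (φ i) '' ((A i ∩ G i) ×ˢ Ioo (0 : ℝ) 1)) := by
        rw [measure_iUnion _ fun i => (hv i).2, tsum_fintype]
        intro i j hij
        refine disjoint_left.2 ?_
        rintro _ ⟨y, hy, rfl⟩ ⟨y', hy', e⟩
        obtain ⟨a, -⟩ := key i j y hy y' hy' e.symm
        exact disjoint_left.1 (hd hij) ⟨_, hy.1.1, rfl⟩ ⟨_, hy'.1.1, a.symm⟩
    _ ≤ _ := measure_mono (iUnion_subset fun i => (h i).1.cone_subset hr hS (hAW i) hc)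

theorem sum_crofton {r : ℝ} (hr : 0 < r) {S : Set (E3 × E3)} (hS : S ⊆ sphereBundle r)
    {n : ℕ} {φ : Fin n → ℝ × ℝ → E3 × E3} {W A : Fin n → Set (ℝ × ℝ)}
    (h : ∀ i, IsChart S (φ i) (W i) ∧ MeasurableSet (A i) ∧ A i ⊆ W i) :
    cosConst * ∑ i, ∫⁻ u in A i, ENNReal.ofReal (areaElement (φ i) u) =
      ∫⁻ c in ball (0 : E3) 1, ∑ i, crof r (dil r c) (φ i) (A i) := by
  rw [lintegral_finsetSum' _ fun i _ => (h i).1.aemeasurable_crof (h i).2.1 (h i).2.2,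
    Finset.mul_sum]
  exact Finset.sum_congr rfl fun i _ => ((h i).1.crofton (h i).2.1 (h i).2.2 hr hS).symm

theorem area_le_of_plane {r : ℝ} (hr : 0 < r) {S : Set (E3 × E3)} (hS : S ⊆ sphereBundle r)
    {x1 e1 : E3} (hP : S ⊆ plane r x1 e1) : cosConst * area S ≤ crofConst r := by
  simp only [area, ENNReal.mul_iSup]
  refine iSup_le fun n => iSup_le fun φ => iSup_le fun W => iSup_le fun A => iSup_le fun h => ?_
  rw [sum_crofton hr hS h.1]
  refine lintegral_mono_ae ?_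
  filter_upwards [ae_ne_zero] with c hc
  exact sum_crof_le hr hS hP h.1 h.2 (dil_ne_zero hr hc)

end Pool.Agent.Lib.MP_396e7f_gt
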