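import Mathlib

open Set Filter Metric
open scoped Topology

namespace Pool.Agent.Lib.MP_396e7f_gt

section
variable {B : Type*} [TopologicalSpace B]

/-- On the open set `O`, the set `S` is the zero set of `f` and has two connected local sides. -/
structure LocalSide (S O : Set B) (f : B → ℝ) : Prop where
  isOpen : IsOpen O
  cont : ContinuousOn f O
  zero : ∀ q ∈ O, q ∈ S ↔ f q = 0
  sides : ∀ q ∈ O, q ∈ S → ∀ N ∈ 𝓝 q, ∃ N' ∈ 𝓝 q, N' ⊆ N ∧
    IsPreconnected (N' ∩ {z | 0 < f z}) ∧ IsPreconnected (N' ∩ {z | f z < 0}) ∧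
    (N' ∩ {z | 0 < f z}).Nonempty ∧ (N' ∩ {z | f z < 0}).Nonempty

theorem sign_const {T : Set B} (hT : IsPreconnected T) {g : B → ℝ} (hg : ContinuousOn g T)
    (h0 : ∀ z ∈ T, g z ≠ 0) {a b : B} (ha : a ∈ T) (hb : b ∈ T) : 0 < g a * g b := by
  have ha0 := h0 a ha
  have hb0 := h0 b hb
  by_contra hneg
  rcases lt_or_gt_of_ne ha0 with h1 | h1 <;> rcases lt_or_gt_of_ne hb0 with h2 | h2
  · exact hneg (mul_pos_of_neg_of_neg h1 h2)
  · obtain ⟨z, hz, e⟩ := hT.intermediate_value ha hb hg ⟨h1.le, h2.le⟩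
    exact h0 z hz e
  · obtain ⟨z, hz, e⟩ := hT.intermediate_value hb ha hg ⟨h2.le, h1.le⟩
    exact h0 z hz e
  · exact hneg (mul_pos h1 h2)

/-- Near a point of `S`, a continuous function without zeros off `S` has the same sign at any two
points on the same side. -/
theorem LocalSide.same_sign {S O : Set B} {f : B → ℝ} (h : LocalSide S O f) {q : B} (hq : q ∈ O)
    (hqS : q ∈ S) {N : Set B} (hN : N ∈ 𝓝 q) {g : B → ℝ} (hg : ContinuousOn g N)
    (h0 : ∀ z ∈ N, z ∉ S → g z ≠ 0) :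
    ∃ N' ∈ 𝓝 q, ∀ a ∈ N', ∀ b ∈ N', 0 < f a * f b → 0 < g a * g b := by
  obtain ⟨N', hN', hsub, c1, c2, -, -⟩ := h.sides q hq hqS (N ∩ O)
    (inter_mem hN (h.isOpen.mem_nhds hq))
  refine ⟨N', hN', fun a ha b hb hab => ?_⟩
  rcases mul_pos_iff.1 hab with ⟨h1, h2⟩ | ⟨h1, h2⟩
  · refine sign_const c1 (hg.mono fun z hz => (hsub hz.1).1) (fun z hz => ?_) ⟨ha, h1⟩ ⟨hb, h2⟩
    exact h0 z (hsub hz.1).1 fun hS => (ne_of_gt hz.2) ((h.zero z (hsub hz.1).2).1 hS)
  · refine sign_const c2 (hg.mono fun z hz => (hsub hz.1).1) (fun z hz => ?_) ⟨ha, h1⟩ ⟨hb, h2⟩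
    exact h0 z (hsub hz.1).1 fun hS => (ne_of_lt hz.2) ((h.zero z (hsub hz.1).2).1 hS)

theorem LocalSide.frequently {S O : Set B} {f : B → ℝ} (h : LocalSide S O f) {q : B}
    (hq : q ∈ O) : ∃ᶠ z in 𝓝 q, z ∉ S := by
  intro hev
  by_cases hqS : q ∈ S
  · obtain ⟨N', -, hsub, -, -, ⟨z, hz1, hz2⟩, -⟩ := h.sides q hq hqS _
      (inter_mem hev (h.isOpen.mem_nhds hq))
    have := hsub hz1
    exact (ne_of_gt hz2) ((h.zero z this.2).1 (not_not.1 this.1))
  · exact hev.self_of_nhds hqS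

theorem LocalSide.exists_unit {S O O' : Set B} {f g : B → ℝ} (h : LocalSide S O f)
    (h' : LocalSide S O' g) {q : B} (hq : q ∈ O) (hq' : q ∈ O') :
    ∃ σ : ℤˣ, ∀ᶠ z in 𝓝 q, z ∉ S → 0 < ((σ : ℤ) : ℝ) * (f z * g z) := by
  have hO := h.isOpen.mem_nhds hq
  have hO' := h'.isOpen.mem_nhds hq'
  by_cases hqS : q ∈ S
  · obtain ⟨N1, hN1, H1⟩ := h.same_sign hq hqS hO' h'.cont fun z hz hzS e => hzS ((h'.zero z hz).2 e)
    obtain ⟨N2, hN2, H2⟩ := h'.same_sign hq' hqS hO h.cont fun z hz hzS e => hzS ((h.zero z hz).2 e)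
    have hN : N1 ∩ N2 ∩ (O ∩ O') ∈ 𝓝 q := inter_mem (inter_mem hN1 hN2) (inter_mem hO hO')
    obtain ⟨a, haS, ha⟩ := ((h.frequently hq).and_eventually hN).exists
    have fa : f a ≠ 0 := fun e => haS ((h.zero a ha.2.1).2 e)
    have ga : g a ≠ 0 := fun e => haS ((h'.zero a ha.2.2).2 e)
    have key : ∀ z ∈ N1 ∩ N2 ∩ (O ∩ O'), z ∉ S → 0 < (f a * g a) * (f z * g z) := by
      intro z hz hzS
      have fz : f z ≠ 0 := fun e => hzS ((h.zero z hz.2.1).2 e)
      have gz : g z ≠ 0 := fun e => hzS ((h'.zero z hz.2.2).2 e)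
      have e : (f a * g a) * (f z * g z) = (f a * f z) * (g a * g z) := by ring
      rw [e]
      rcases lt_or_gt_of_ne (mul_ne_zero fa fz) with h1 | h1
      · rcases lt_or_gt_of_ne (mul_ne_zero ga gz) with h2 | h2
        · exact mul_pos_of_neg_of_neg h1 h2
        · exact absurd (H2 a ha.1.2 z hz.1.2 h2) (not_lt.2 h1.le)
      · exact mul_pos h1 (H1 a ha.1.1 z hz.1.1 h1)
    rcases lt_or_gt_of_ne (mul_ne_zero fa ga) with h1 | h1
    · refine ⟨-1, ?_⟩
      filter_upwards [hN] with z hz hzS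
      have := key z hz hzS
      have h3 : f z * g z < 0 := by
        by_contra hc
        exact absurd this (not_lt.2 (mul_nonpos_of_nonpos_of_nonneg h1.le (not_lt.1 hc)))
      simpa using h3
    · refine ⟨1, ?_⟩
      filter_upwards [hN] with z hz hzS
      simpa using (mul_pos_iff_of_pos_left h1).1 (key z hz hzS)
  · have fq : f q ≠ 0 := fun e => hqS ((h.zero q hq).2 e)
    have gq : g q ≠ 0 := fun e => hqS ((h'.zero q hq').2 e)
    have hc : ContinuousAt (fun z => f z * g z) q :=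
      (h.cont.continuousAt hO).mul (h'.cont.continuousAt hO')
    rcases lt_or_gt_of_ne (mul_ne_zero fq gq) with h1 | h1
    · refine ⟨-1, ?_⟩
      filter_upwards [hc.eventually_lt continuousAt_const h1] with z hz _
      simpa using hz
    · refine ⟨1, ?_⟩
      filter_upwards [continuousAt_const.eventually_lt hc h1] with z hz _
      simpa using hz

theorem unit_unique {σ τ : ℤˣ} {x : ℝ} (h1 : 0 < ((σ : ℤ) : ℝ) * x) (h2 : 0 < ((τ : ℤ) : ℝ) * x) :
    σ = τ := by
  rcases Int.units_eq_one_or σ with rfl | rfl <;> rcases Int.units_eq_one_or τ with rfl | rfl <;>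
    simp at h1 h2 ⊢ <;> linarith

theorem localSide_compl {S : Set B} (hS : IsClosed S) : LocalSide S Sᶜ (fun _ => 1) :=
  ⟨hS.isOpen_compl, continuousOn_const, fun q hq => by simpa using hq, fun q hq hq' => absurd hq' hq⟩

/-- A loop that is freely homotopic to a loop missing `S` cannot cross `S` exactly once. -/
theorem no_single_crossing {S : Set B} (hS : IsClosed S)
    (hloc : ∀ p ∈ S, ∃ O f, p ∈ O ∧ LocalSide S O f) {H : ℝ × ℝ → B} (hH : Continuous H) {T : ℝ}
    (hT : 0 < T) (hper : ∀ s t, H (s, t + T) = H (s, t)) (hmiss : ∀ t, H (0, t) ∉ S)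
    (hone : ∀ t ∈ Ioo 0 T, H (1, t) ∉ S) (hp : H (1, 0) ∈ S) {N : Set B} (hN : N ∈ 𝓝 (H (1, 0)))
    {g : B → ℝ} (hg : ContinuousOn g N) (h0 : ∀ z ∈ N, z ∉ S → g z ≠ 0) :
    ∀ᶠ t in 𝓝[>] (0 : ℝ), 0 < g (H (1, t)) * g (H (1, -t)) := by
  classical
  have hloc' : ∀ p, ∃ O f, p ∈ O ∧ LocalSide S O f ∧ (p ∉ S → O = Sᶜ ∧ f = fun _ => 1) := by
    intro p
    by_cases hp : p ∈ S
    · obtain ⟨O, f, h1, h2⟩ := hloc p hp
      exact ⟨O, f, h1, h2, fun h => absurd hp h⟩
    · exact ⟨Sᶜ, fun _ => 1, hp, localSide_compl hS, fun _ => ⟨rfl, rfl⟩⟩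
  choose O f hmem hside hoff using hloc'
  have hσ : ∀ i j q, ∃ σ : ℤˣ, q ∈ O i → q ∈ O j →
      ∀ᶠ z in 𝓝 q, z ∉ S → 0 < ((σ : ℤ) : ℝ) * (f i z * f j z) := by
    intro i j q
    by_cases h : q ∈ O i ∧ q ∈ O j
    · obtain ⟨σ, hσ⟩ := (hside i).exists_unit (hside j) h.1 h.2
      exact ⟨σ, fun _ _ => hσ⟩
    · exact ⟨1, fun a b => absurd ⟨a, b⟩ h⟩
  choose σ hσ using hσ
  have huniq : ∀ i j q (τ : ℤˣ), q ∈ O i → q ∈ O j →
      (∀ᶠ z in 𝓝 q, z ∉ S → 0 < ((τ : ℤ) : ℝ) * (f i z * f j z)) → σ i j q = τ := by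
    intro i j q τ hi hj hτ
    obtain ⟨z, hz, h1, h2⟩ := (((hside i).frequently hi).and_eventually
      ((hσ i j q hi hj).and hτ)).exists
    exact unit_unique (h1 hz) (h2 hz)
  let Z : FiberBundleCore B B ℤˣ :=
    { baseSet := O
      isOpen_baseSet := fun i => (hside i).isOpen
      indexAt := id
      mem_baseSet_at := hmem
      coordChange := fun i j q v => σ i j q * v
      coordChange_self := by
        intro i q hq v
        rw [huniq i i q 1 hq hq, one_mul]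
        filter_upwards [(hside i).isOpen.mem_nhds hq] with z hz hzS
        have : f i z ≠ 0 := fun e => hzS (((hside i).zero z hz).2 e)
        simpa using mul_self_pos.2 this
      continuousOn_coordChange := by
        intro i j
        refine ContinuousOn.mul ?_ continuousOn_snd
        rintro ⟨q, v⟩ ⟨⟨hi, hj⟩, -⟩
        refine ContinuousAt.continuousWithinAt ?_
        refine ContinuousAt.comp (f := Prod.fst) (g := σ i j) ?_ continuousAt_fst
        refine (continuousAt_const (y := σ i j q)).congr ?_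
        filter_upwards [(hσ i j q hi hj).eventually_nhds, (hside i).isOpen.mem_nhds hi,
          (hside j).isOpen.mem_nhds hj] with z hz hzi hzj
        exact (huniq i j z _ hzi hzj hz).symm
      coordChange_comp := by
        rintro i j k q ⟨⟨hi, hj⟩, hk⟩ v
        rw [← mul_assoc, huniq i k q (σ j k q * σ i j q) hi hk]
        filter_upwards [hσ i j q hi hj, hσ j k q hj hk, (hside j).isOpen.mem_nhds hj]
          with z h1 h2 hz hzS
        have hf : f j z ≠ 0 := fun e => hzS (((hside j).zero z hz).2 e)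
        have := mul_pos (h1 hzS) (h2 hzS)
        have e : ((σ i j q : ℤ) : ℝ) * (f i z * f j z) * (((σ j k q : ℤ) : ℝ) * (f j z * f k z)) =
            (((σ j k q * σ i j q : ℤˣ) : ℤ) : ℝ) * (f i z * f k z) * (f j z * f j z) := by
          push_cast; ring
        rw [e] at this
        exact (mul_pos_iff_of_pos_right (mul_self_pos.2 hf)).1 this }
  have cov : IsCoveringMap Z.proj :=
    IsFiberBundle.isCoveringMap (F := ℤˣ) fun x => ⟨Z.localTriv x, hmem x⟩
  obtain ⟨F, ⟨-, hF⟩, -⟩ := cov.existsUnique_continuousMap_lifts ⟨H, hH⟩ (0, 0)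
    ⟨H (0, 0), (1 : ℤˣ)⟩ rfl
  have hF1 : ∀ a, (F a).1 = H a := fun a => congrFun hF a
  let v : ℝ × ℝ → ℤˣ := fun a => (F a).2
  have hcont : ∀ i, ContinuousOn (fun a => σ (H a) i (H a) * v a) (H ⁻¹' O i) := by
    intro i
    have h1 : ContinuousOn (fun a => (Z.localTriv i (F a)).2) (H ⁻¹' O i) := by
      refine continuous_snd.comp_continuousOn
        ((Z.localTriv i).continuousOn.comp F.continuous.continuousOn fun a ha => ?_)
      rw [FiberBundleCore.mem_localTriv_source, hF1]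
      exact ha
    refine h1.congr fun a _ => ?_
    show _ = σ (F a).1 i (F a).1 * v a
    rw [hF1]
  let p0 := H (0, 0)
  have hp0 := hoff p0 (hmiss 0)
  have hσ0 : ∀ q, q ∉ S → σ q p0 q = 1 := by
    intro q hq
    refine huniq q p0 q 1 (hmem q) (by rw [hp0.1]; exact hq) (Eventually.of_forall fun z _ => ?_)
    rw [(hoff q hq).2, hp0.2]; simp
  have hside0 : ContinuousOn (fun a => v a) (H ⁻¹' Sᶜ) := by
    have := hcont p0
    rw [hp0.1] at this
    refine this.congr fun a ha => ?_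
    simp only [hσ0 _ ha, one_mul]
  have hext : ∀ a b, H a = H b → v a = v b → F a = F b := by
    intro a b h1 h2
    have e1 : (F a).1 = (F b).1 := by rw [hF1, hF1, h1]
    simp only [v] at h2
    revert e1 h2
    rcases F a with ⟨x, v⟩
    rcases F b with ⟨y, w⟩
    intro h2 e1
    dsimp only at e1 h2
    subst e1
    congr
  have hFper : (fun a : ℝ × ℝ => F (a.1, a.2 + T)) = F := by
    refine cov.eq_of_comp_eq (by fun_prop) F.continuous ?_ (0, 0) ?_
    · ext a
      show (F (a.1, a.2 + T)).1 = (F a).1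
      rw [hF1, hF1, hper]
    · refine hext _ _ (hper 0 0) ?_
      refine (isPreconnected_univ.image (fun t : ℝ => ((0 : ℝ), t)) (by fun_prop)).constant
        (hside0.mono ?_) ⟨_, mem_univ _, rfl⟩ ⟨_, mem_univ _, rfl⟩
      rintro _ ⟨t, -, rfl⟩
      exact hmiss t
  set p := H (1, 0) with hpdef
  obtain ⟨N', hN', HN'⟩ := (hside p).same_sign (hmem p) hp hN hg h0
  have hc1 : ContinuousAt (fun a => σ (H a) p (H a) * v a) (1, 0) :=
    (hcont p).continuousAt (hH.continuousAt.preimage_mem_nhds ((hside p).isOpen.mem_nhds (hmem p)))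
  have hev : ∀ᶠ a in 𝓝 ((1 : ℝ), (0 : ℝ)), (σ (H a) p (H a) * v a =
      σ p p p * v (1, 0)) ∧ H a ∈ N' ∧ H a ∈ O p := by
    refine (hc1.eventually (p := fun w => w = σ p p p * v (1, 0))
      ((isOpen_discrete {σ p p p * v (1, 0)}).mem_nhds rfl)).and (Eventually.and ?_ ?_)
    · exact hH.continuousAt.preimage_mem_nhds hN'
    · exact hH.continuousAt.preimage_mem_nhds ((hside p).isOpen.mem_nhds (hmem p))
  have t1 : Tendsto (fun t : ℝ => ((1 : ℝ), t)) (𝓝[>] 0) (𝓝 (1, 0)) :=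
    tendsto_nhdsWithin_of_tendsto_nhds (Continuous.tendsto' (by fun_prop) _ _ rfl)
  have t2 : Tendsto (fun t : ℝ => ((1 : ℝ), -t)) (𝓝[>] 0) (𝓝 (1, 0)) :=
    tendsto_nhdsWithin_of_tendsto_nhds (Continuous.tendsto' (by fun_prop) _ _ (by simp))
  filter_upwards [t1.eventually hev, t2.eventually hev, Ioo_mem_nhdsGT hT] with t ⟨a1, a2, a3⟩
    ⟨b1, b2, b3⟩ ht
  have hneg : H (1, -t) = H (1, -t + T) := (hper 1 (-t)).symm
  have ht' : -t + T ∈ Ioo 0 T := ⟨by linarith [ht.2], by linarith [ht.1]⟩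
  have hS1 : H (1, t) ∉ S := hone t ht
  have hS2 : H (1, -t) ∉ S := hneg ▸ hone _ ht'
  have hv : v (1, t) = v (1, -t) := by
    have e0 : F (1, -t + T) = F (1, -t) := congrFun hFper (1, -t)
    have e : v (1, -t + T) = v (1, -t) := congrArg (fun w : Z.TotalSpace => (w.2 : ℤˣ)) e0
    rw [← e]
    refine (isPreconnected_Ioo.image (fun t : ℝ => ((1 : ℝ), t)) (by fun_prop)).constant
      (hside0.mono ?_) ⟨_, ht, rfl⟩ ⟨_, ht', rfl⟩
    rintro _ ⟨s, hs, rfl⟩
    exact hone s hs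
  have hσe : σ (H (1, t)) p (H (1, t)) = σ (H (1, -t)) p (H (1, -t)) := by
    rw [← b1, hv] at a1
    exact mul_right_cancel a1
  have c1 := (hσ _ p _ (hmem _) a3).self_of_nhds hS1
  have c2 := (hσ _ p _ (hmem _) b3).self_of_nhds hS2
  rw [(hoff _ hS1).2] at c1
  rw [(hoff _ hS2).2, ← hσe] at c2
  refine HN' _ a2 _ b2 ?_
  have := mul_pos c1 c2
  rcases Int.units_eq_one_or (σ (H (1, t)) p (H (1, t))) with e | e <;> rw [e] at this <;>
    simpa using this

theorem localSide_of_slice {X : Type*} [NormedAddCommGroup X] [NormedSpace ℝ X] {S : Set B}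
    (E : OpenPartialHomeomorph B (X × ℝ)) (hE : ∀ z ∈ E.source, z ∈ S ↔ (E z).2 = 0) :
    LocalSide S E.source fun z => (E z).2 := by
  refine ⟨E.open_source, continuous_snd.comp_continuousOn E.continuousOn, hE, ?_⟩
  intro q hq hqS N hN
  have h1 : E.target ∩ E.symm ⁻¹' N ∈ 𝓝 (E q) := by
    refine inter_mem (E.open_target.mem_nhds (E.map_source hq)) ?_
    apply (E.continuousAt_symm (E.map_source hq)).preimage_mem_nhds
    rwa [E.left_inv hq]
  obtain ⟨ρ, hρ, hball⟩ := Metric.mem_nhds_iff.1 h1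
  have hq0 : (E q).2 = 0 := (hE q hq).1 hqS
  have himg : ∀ P : ℝ → Prop, E.symm '' ball (E q) ρ ∩ {z | P (E z).2} =
      E.symm '' (ball (E q) ρ ∩ {y | P y.2}) := by
    intro P
    ext z
    constructor
    · rintro ⟨⟨y, hy, rfl⟩, hz⟩
      refine ⟨y, ⟨hy, ?_⟩, rfl⟩
      rwa [mem_ofPred_eq, E.right_inv (hball hy).1] at hz
    · rintro ⟨y, ⟨hy, hy'⟩, rfl⟩
      refine ⟨⟨y, hy, rfl⟩, ?_⟩
      rwa [mem_ofPred_eq, E.right_inv (hball hy).1]
  have hc : ∀ T : Set (X × ℝ), ContinuousOn E.symm (ball (E q) ρ ∩ T) := fun T =>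
    E.continuousOn_symm.mono fun y hy => (hball hy.1).1
  have hmem : ∀ t : ℝ, |t| < ρ → ((E q).1, t) ∈ ball (E q) ρ := by
    intro t ht
    rw [mem_ball, Prod.dist_eq, dist_self, hq0, Real.dist_eq, sub_zero]
    exact max_lt hρ ht
  refine ⟨E.symm '' ball (E q) ρ, ?_, ?_, ?_, ?_, ?_, ?_⟩
  · have := E.symm.image_mem_nhds (E.map_source hq) (ball_mem_nhds _ hρ)
    rwa [E.left_inv hq] at this
  · rintro _ ⟨y, hy, rfl⟩; exact (hball hy).2
  · rw [himg fun t => 0 < t]
    exact ((convex_ball _ _).inter (convex_halfSpace_gt (LinearMap.snd ℝ X ℝ).isLinear 0)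
      ).isPreconnected.image _ (hc _)
  · rw [himg fun t => t < 0]
    exact ((convex_ball _ _).inter (convex_halfSpace_lt (LinearMap.snd ℝ X ℝ).isLinear 0)
      ).isPreconnected.image _ (hc _)
  · rw [himg fun t => 0 < t]
    refine Nonempty.image _ ⟨_, hmem (ρ / 2) (by rw [abs_of_pos (by linarith)]; linarith), ?_⟩
    show 0 < ρ / 2
    linarith
  · rw [himg fun t => t < 0]
    refine Nonempty.image _ ⟨_, hmem (-(ρ / 2))
      (by rw [abs_neg, abs_of_pos (by linarith)]; linarith), ?_⟩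
    show -(ρ / 2) < 0
    linarith

end

end Pool.Agent.Lib.MP_396e7f_gt
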