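import Pool.Agent.Lib.MP_396e7f_gt.Alg
import Pool.Agent.Lib.MP_396e7f_gt.Topo

open Set Filter Metric
open scoped RealInnerProductSpace Topology

namespace Pool.Agent.Lib.MP_396e7f_gt

/-- Three-dimensional coordinate space. -/
abbrev D3 : Type := (ℝ × ℝ) × ℝ

/-- The quadratic map cutting out the sphere bundle. -/
noncomputable def quad (z : E3 × E3) : D3 := ((⟪z.1, z.1⟫, ⟪z.1, z.2⟫), ⟪z.2, z.2⟫)

theorem mem_bundle_iff_quad {r : ℝ} (hr : 0 < r) {z : E3 × E3} :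
    z ∈ sphereBundle r ↔ quad z = ((1, 0), r ^ 2) := by
  simp only [sphereBundle, quad, mem_ofPred_eq, Prod.mk.injEq, real_inner_self_eq_norm_sq]
  rw [sq_eq_sq₀ (norm_nonneg _) hr.le, ← sq_eq_sq₀ (norm_nonneg _) zero_le_one, one_pow, and_assoc]

theorem exists_hasStrictFDerivAt_quad (z : E3 × E3) : ∃ Q : E3 × E3 →L[ℝ] D3,
    HasStrictFDerivAt quad Q z ∧ ∀ w, Q w = ((⟪z.1, w.1⟫ + ⟪w.1, z.1⟫, ⟪z.1, w.2⟫ + ⟪w.1, z.2⟫),
      ⟪z.2, w.2⟫ + ⟪w.2, z.2⟫) := by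
  have h1 : HasStrictFDerivAt (fun z : E3 × E3 => z.1) (ContinuousLinearMap.fst ℝ E3 E3) z :=
    hasStrictFDerivAt_fst
  have h2 : HasStrictFDerivAt (fun z : E3 × E3 => z.2) (ContinuousLinearMap.snd ℝ E3 E3) z :=
    hasStrictFDerivAt_snd
  exact ⟨_, ((h1.inner ℝ h1).prodMk (h1.inner ℝ h2)).prodMk (h2.inner ℝ h2), fun w => rfl⟩

theorem tan_of_quad {r : ℝ} {z w : E3 × E3}
    (h : ((⟪z.1, w.1⟫ + ⟪w.1, z.1⟫, ⟪z.1, w.2⟫ + ⟪w.1, z.2⟫), ⟪z.2, w.2⟫ + ⟪w.2, z.2⟫) =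
      (0 : D3)) : Tan z.1 (r⁻¹ • z.2) w.1 (r⁻¹ • w.2) := by
  simp only [Prod.ext_iff, Prod.fst_zero, Prod.snd_zero] at h
  obtain ⟨⟨h1, h2⟩, h3⟩ := h
  rw [real_inner_comm z.1 w.1] at h1
  rw [real_inner_comm z.2 w.2] at h3
  refine ⟨by linarith, ?_, ?_⟩
  · simp only [inner_smul_right]; linear_combination r⁻¹ * h2
  · simp only [inner_smul_right, inner_smul_left, conj_trivial]
    linear_combination (r⁻¹ * r⁻¹ / 2) * h3

theorem tan_of_hasFDerivAt {X : Type*} [NormedAddCommGroup X] [NormedSpace ℝ X] {r : ℝ}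
    (hr : 0 < r) {φ : X → E3 × E3} {φ' : X →L[ℝ] E3 × E3} {u : X} (hφ : HasFDerivAt φ φ' u)
    (hM : ∀ᶠ v in 𝓝 u, φ v ∈ sphereBundle r) (w : X) :
    Tan (φ u).1 (r⁻¹ • (φ u).2) (φ' w).1 (r⁻¹ • (φ' w).2) := by
  obtain ⟨Q, hQ, hQ'⟩ := exists_hasStrictFDerivAt_quad (φ u)
  have h1 := hQ.hasFDerivAt.comp u hφ
  have h2 : HasFDerivAt (quad ∘ φ) (0 : X →L[ℝ] D3) u := by
    refine (hasFDerivAt_const (((1, 0), r ^ 2) : D3) u).congr_of_eventuallyEq ?_
    filter_upwards [hM] with v hv using (mem_bundle_iff_quad hr).1 hv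
  have h3 := congrArg (fun L : X →L[ℝ] D3 => L w) (h1.unique h2)
  apply tan_of_quad
  rw [← hQ']
  exact h3

theorem eq_zero_of_ang {r : ℝ} (hr : 0 < r) {x e : E3} (h : Fr x e) {w : E3 × E3}
    (ht : Tan x e w.1 (r⁻¹ • w.2)) (h0 : ang x e w.1 (r⁻¹ • w.2) = 0) : w = 0 := by
  have e1 := h.tan_fst ht
  have e2 := h.tan_snd ht
  rw [h0] at e1 e2
  have a : w.1 = 0 := by rw [e1]; simp [fr]
  have b : r⁻¹ • w.2 = 0 := by rw [e2]; simp [fr]
  exact Prod.ext a ((smul_eq_zero.1 b).resolve_left (inv_ne_zero hr.ne'))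

/-- Linear coordinates adapted to a frame. -/
noncomputable def kap (x e : E3) : E3 × E3 →L[ℝ] D3 :=
  (((innerSL ℝ e).comp (ContinuousLinearMap.fst ℝ E3 E3)).prod
    ((innerSL ℝ (cross x e)).comp (ContinuousLinearMap.fst ℝ E3 E3))).prod
    ((innerSL ℝ (cross x e)).comp (ContinuousLinearMap.snd ℝ E3 E3))

theorem kap_apply (x e : E3) (w : E3 × E3) :
    kap x e w = ((⟪e, w.1⟫, ⟪cross x e, w.1⟫), ⟪cross x e, w.2⟫) := rfl

theorem ang_eq_zero_of_kap (r : ℝ) {x e : E3} {w : E3 × E3} (h : kap x e w = 0) :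
    ang x e w.1 (r⁻¹ • w.2) = 0 := by
  simp only [kap_apply, Prod.ext_iff, Prod.fst_zero, Prod.snd_zero] at h
  obtain ⟨⟨h1, h2⟩, h3⟩ := h
  apply ext3 <;> simp [ang, h1, h2, h3, inner_smul_right]

theorem exists_bundle_chart {r : ℝ} (hr : 0 < r) (z0 : sphereBundle r) :
    ∃ E : OpenPartialHomeomorph (sphereBundle r) D3, z0 ∈ E.source ∧
      ∀ z, E z = kap z0.1.1 (r⁻¹ • z0.1.2) z.1 := by
  classical
  have hfr := (mem_bundle_iff hr).1 z0.2
  set κ := kap z0.1.1 (r⁻¹ • z0.1.2) with hκ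
  obtain ⟨Q, hQ, hQ'⟩ := exists_hasStrictFDerivAt_quad z0.1
  have hG : HasStrictFDerivAt (fun z => (κ z, quad z)) (κ.prod Q) z0.1 :=
    κ.hasStrictFDerivAt.prodMk hQ
  have hinj : Function.Injective (κ.prod Q : E3 × E3 →ₗ[ℝ] D3 × D3) := by
    rw [injective_iff_map_eq_zero]
    intro w hw
    have h1 : κ w = 0 := congrArg Prod.fst hw
    have h2 : Q w = 0 := congrArg Prod.snd hw
    rw [hQ'] at h2
    exact eq_zero_of_ang hr hfr (tan_of_quad h2) (ang_eq_zero_of_kap r h1)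
  let L : (E3 × E3) ≃L[ℝ] (D3 × D3) :=
    (LinearMap.linearEquivOfInjective _ hinj (by simp)).toContinuousLinearEquiv
  have hG' : HasStrictFDerivAt (fun z => (κ z, quad z)) (L : E3 × E3 →L[ℝ] D3 × D3) z0.1 := hG
  let g := hG'.toOpenPartialHomeomorph _
  have hg : ∀ z, g z = (κ z, quad z) := fun z => rfl
  let c0 : D3 := ((1, 0), r ^ 2)
  have hgM : ∀ z : sphereBundle r, g z.1 = (κ z.1, c0) := fun z => by
    rw [hg, (mem_bundle_iff_quad hr).1 z.2]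
  have hmem : ∀ y, (y, c0) ∈ g.target → g.symm (y, c0) ∈ sphereBundle r := by
    intro y hy
    have := g.right_inv hy
    rw [hg] at this
    exact (mem_bundle_iff_quad hr).2 (congrArg Prod.snd this)
  refine ⟨{
    toFun := fun z => κ z.1
    invFun := fun y => if h : g.symm (y, c0) ∈ sphereBundle r then ⟨_, h⟩ else z0
    source := {z | z.1 ∈ g.source}
    target := {y | (y, c0) ∈ g.target}
    map_source' := fun z hz => by
      have := g.map_source hz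
      rwa [hgM] at this
    map_target' := fun y hy => by
      simp only [mem_ofPred_eq, dif_pos (hmem y hy)]
      exact g.map_target hy
    left_inv' := fun z hz => by
      have h1 : g.symm (κ z.1, c0) = z.1 := by rw [← hgM]; exact g.left_inv hz
      have h2 : g.symm (κ z.1, c0) ∈ sphereBundle r := by rw [h1]; exact z.2
      simp only [dif_pos h2]
      exact Subtype.ext h1
    right_inv' := fun y hy => by
      simp only [dif_pos (hmem y hy)]
      have := g.right_inv hy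
      rw [hg] at this
      exact congrArg Prod.fst this
    open_source := g.open_source.preimage continuous_subtype_val
    open_target := g.open_target.preimage (by fun_prop)
    continuousOn_toFun := (κ.continuous.comp continuous_subtype_val).continuousOn
    continuousOn_invFun := by
      rw [Topology.IsInducing.subtypeVal.continuousOn_iff]
      have : ContinuousOn (fun y => g.symm (y, c0)) {y | (y, c0) ∈ g.target} :=
        g.continuousOn_symm.comp (by fun_prop) fun y hy => hy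
      refine this.congr fun y hy => ?_
      simp only [Function.comp_apply, dif_pos (hmem y hy)] },
    hG'.mem_toOpenPartialHomeomorph_source, fun z => rfl⟩

theorem IsChart.hasStrictFDerivAt {S : Set (E3 × E3)} {φ : ℝ × ℝ → E3 × E3} {W : Set (ℝ × ℝ)}
    (h : IsChart S φ W) {u : ℝ × ℝ} (hu : u ∈ W) : HasStrictFDerivAt φ (fderiv ℝ φ u) u :=
  (h.2.1.contDiffAt (h.1.mem_nhds hu)).hasStrictFDerivAt one_ne_zero

theorem IsChart.mapsTo {S : Set (E3 × E3)} {φ : ℝ × ℝ → E3 × E3} {W : Set (ℝ × ℝ)}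
    (h : IsChart S φ W) : MapsTo φ W S := by
  obtain ⟨O, -, hO⟩ := h.2.2.2.2
  intro u hu
  have : φ u ∈ S ∩ O := hO ▸ mem_image_of_mem φ hu
  exact this.1

theorem IsChart.injOn {S : Set (E3 × E3)} {φ : ℝ × ℝ → E3 × E3} {W : Set (ℝ × ℝ)}
    (h : IsChart S φ W) : InjOn φ W := fun u hu v hv e =>
  congrArg Subtype.val (h.2.2.2.1.injective (a₁ := ⟨u, hu⟩) (a₂ := ⟨v, hv⟩) e)

theorem IsChart.tan {r : ℝ} (hr : 0 < r) {S : Set (E3 × E3)} (hS : S ⊆ sphereBundle r)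
    {φ : ℝ × ℝ → E3 × E3} {W : Set (ℝ × ℝ)} (h : IsChart S φ W) {u : ℝ × ℝ} (hu : u ∈ W)
    (w : ℝ × ℝ) :
    Tan (φ u).1 (r⁻¹ • (φ u).2) (fderiv ℝ φ u w).1 (r⁻¹ • (fderiv ℝ φ u w).2) :=
  tan_of_hasFDerivAt hr (h.hasStrictFDerivAt hu).hasFDerivAt
    (by filter_upwards [h.1.mem_nhds hu] with v hv using hS (h.mapsTo hv)) w

/-- A chart restricts to any open subset. -/
theorem IsChart.restrict {S : Set (E3 × E3)} {φ : ℝ × ℝ → E3 × E3} {W W' : Set (ℝ × ℝ)}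
    (h : IsChart S φ W) (hW' : IsOpen W') (hsub : W' ⊆ W) : IsChart S φ W' := by
  refine ⟨hW', h.2.1.mono hsub, fun u hu => h.2.2.1 u (hsub hu),
    h.2.2.2.1.comp (Topology.IsEmbedding.inclusion hsub), ?_⟩
  obtain ⟨O, hO, hOe⟩ := h.2.2.2.2
  obtain ⟨O1, hO1, e⟩ := h.2.2.2.1.isInducing.isOpen_iff.1
    (hW'.preimage (continuous_subtype_val (p := fun u => u ∈ W)))
  refine ⟨O ∩ O1, hO.inter hO1, ?_⟩
  rw [← inter_assoc, ← hOe]
  ext z
  constructor
  · rintro ⟨u, hu, rfl⟩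
    refine ⟨⟨u, hsub hu, rfl⟩, ?_⟩
    have : (⟨u, hsub hu⟩ : W) ∈ Subtype.val ⁻¹' W' := hu
    rw [← e] at this
    exact this
  · rintro ⟨⟨u, hu, rfl⟩, h1⟩
    have : (⟨u, hu⟩ : W) ∈ (fun u : W => φ u) ⁻¹' O1 := h1
    rw [e] at this
    exact ⟨u, this, rfl⟩

theorem exists_localSide {r : ℝ} (hr : 0 < r) {S : Set (E3 × E3)} (hS : S ⊆ sphereBundle r)
    (hsurf : IsSurface S) (p : sphereBundle r) (hp : p ∈ Subtype.val ⁻¹' S) :
    ∃ O f, p ∈ O ∧ LocalSide (Subtype.val ⁻¹' S : Set (sphereBundle r)) O f := by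
  obtain ⟨φ, W, hφ, u0, hu0, hz⟩ := hsurf p.1 hp
  obtain ⟨E1, hE1, hE1'⟩ := exists_bundle_chart hr p
  have hfr := (mem_bundle_iff hr).1 p.2
  set κ := kap p.1.1 (r⁻¹ • p.1.2) with hκ
  let ψ' : ℝ × ℝ →L[ℝ] D3 := κ.comp (fderiv ℝ φ u0)
  have hψ : HasStrictFDerivAt (fun u => κ (φ u)) ψ' u0 :=
    κ.hasStrictFDerivAt.comp u0 (hφ.hasStrictFDerivAt hu0)
  have hψinj : ∀ w, ψ' w = 0 → w = 0 := by
    intro w hw
    have ht := hφ.tan hr hS hu0 w
    rw [hz] at ht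
    have := eq_zero_of_ang hr hfr ht (ang_eq_zero_of_kap r hw)
    exact (injective_iff_map_eq_zero _).1 (hφ.2.2.1 u0 hu0) w this
  obtain ⟨n, hn⟩ : ∃ n : D3, n ∉ LinearMap.range (ψ' : ℝ × ℝ →ₗ[ℝ] D3) := by
    by_contra hcon
    push Not at hcon
    have h1 := LinearMap.finrank_range_le (ψ' : ℝ × ℝ →ₗ[ℝ] D3)
    rw [Submodule.eq_top_iff'.2 hcon] at h1
    simp at h1
  let Θ' : D3 →L[ℝ] D3 := ψ'.comp (ContinuousLinearMap.fst ℝ (ℝ × ℝ) ℝ) +
    (ContinuousLinearMap.snd ℝ (ℝ × ℝ) ℝ).smulRight n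
  have hΘ : HasStrictFDerivAt (fun y : D3 => κ (φ y.1) + y.2 • n) Θ' (u0, 0) := by
    have a1 : HasStrictFDerivAt (fun y : D3 => y.1) (ContinuousLinearMap.fst ℝ (ℝ × ℝ) ℝ) (u0, 0) :=
      hasStrictFDerivAt_fst
    have a2 : HasStrictFDerivAt (fun y : D3 => y.2) (ContinuousLinearMap.snd ℝ (ℝ × ℝ) ℝ) (u0, 0) :=
      hasStrictFDerivAt_snd
    have a3 := HasStrictFDerivAt.comp (g := fun u => κ (φ u)) (f := fun y : D3 => y.1)
      ((u0, 0) : D3) hψ a1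
    exact a3.add (a2.smul_const n)
  have hinj : Function.Injective (Θ' : D3 →ₗ[ℝ] D3) := by
    rw [injective_iff_map_eq_zero]
    rintro ⟨w, t⟩ hw
    have hw' : ψ' w + t • n = 0 := hw
    have ht : t = 0 := by
      by_contra ht
      refine hn ⟨-(t⁻¹ • w), ?_⟩
      have : ψ' w = -(t • n) := eq_neg_of_add_eq_zero_left hw'
      simp only [ContinuousLinearMap.coe_coe, map_neg, map_smul, this, smul_neg, neg_neg, smul_smul,
        inv_mul_cancel₀ ht, one_smul]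
    rw [ht, zero_smul, add_zero] at hw'
    rw [hψinj w hw', ht]; rfl
  let L : D3 ≃L[ℝ] D3 := (LinearMap.linearEquivOfInjective _ hinj rfl).toContinuousLinearEquiv
  have hΘ' : HasStrictFDerivAt (fun y : D3 => κ (φ y.1) + y.2 • n) (L : D3 →L[ℝ] D3) (u0, 0) := hΘ
  let e := hΘ'.toOpenPartialHomeomorph _
  have he : ∀ u, e (u, 0) = κ (φ u) := fun u => by
    show κ (φ u) + (0 : ℝ) • n = _
    rw [zero_smul, add_zero]
  have he0 : (u0, (0 : ℝ)) ∈ e.source := hΘ'.mem_toOpenPartialHomeomorph_source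
  obtain ⟨O2, hO2, hO2e⟩ := isOpen_induced_iff.1 E1.open_source
  let W1 : Set (ℝ × ℝ) := (W ∩ φ ⁻¹' O2) ∩ (fun u => (u, (0 : ℝ))) ⁻¹' e.source
  have hW1 : IsOpen W1 :=
    (hφ.2.1.continuousOn.isOpen_inter_preimage hφ.1 hO2).inter
      (e.open_source.preimage (by fun_prop))
  have hu1 : u0 ∈ W1 := by
    refine ⟨⟨hu0, ?_⟩, he0⟩
    rw [← hO2e] at hE1
    show φ u0 ∈ O2
    rw [hz]; exact hE1
  obtain ⟨O1, hO1, hO1e⟩ := (hφ.restrict hW1 fun u hu => hu.1.1).2.2.2.2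
  let E2 := E1.trans e.symm
  have hE2 : ∀ z, E2 z = e.symm (κ z.1) := fun z => by
    show e.symm (E1 z) = _
    rw [hE1']
  have hp2 : p ∈ E2.source := by
    rw [OpenPartialHomeomorph.trans_source]
    refine ⟨hE1, ?_⟩
    show E1 p ∈ e.target
    rw [hE1', ← hz, ← he]
    exact e.map_source he0
  have hEp : E2 p = (u0, 0) := by rw [hE2, ← hz, ← he]; exact e.left_inv he0
  let O' : Set (sphereBundle r) := Subtype.val ⁻¹' O1 ∩ (E2.source ∩ E2 ⁻¹' (Prod.fst ⁻¹' W1))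
  have hO' : IsOpen O' := (hO1.preimage continuous_subtype_val).inter
    (E2.isOpen_inter_preimage (hW1.preimage continuous_fst))
  refine ⟨_, _, ?_, localSide_of_slice (E2.restrOpen O' hO') ?_⟩
  · refine ⟨hp2, ?_, hp2, ?_⟩
    · have : φ u0 ∈ S ∩ O1 := hO1e ▸ mem_image_of_mem φ hu1
      show p.1 ∈ O1
      rw [← hz]; exact this.2
    · show (E2 p).1 ∈ W1
      rw [hEp]; exact hu1
  · rintro z ⟨hz2, hz1, -, hzW⟩
    show _ ↔ (E2 z).2 = 0
    constructor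
    · intro hzS
      have : z.1 ∈ φ '' W1 := hO1e ▸ ⟨hzS, hz1⟩
      obtain ⟨u, hu, hzu⟩ := this
      rw [hE2, ← hzu, ← he, e.left_inv hu.2]
    · intro h0
      have hu : (E2 z).1 ∈ W1 := hzW
      set u := (E2 z).1 with hudef
      have hzu : E2 z = (u, 0) := Prod.ext rfl h0
      rw [OpenPartialHomeomorph.trans_source] at hz2
      have h1 : κ z.1 ∈ e.target := by
        have : E1 z ∈ e.target := hz2.2
        rwa [hE1'] at this
      have h2 : κ z.1 = κ (φ u) := by rw [← he, ← hzu, hE2, e.right_inv h1]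
      have hM : φ u ∈ S := hφ.mapsTo hu.1.1
      have h3 : z = ⟨φ u, hS hM⟩ := by
        refine E1.injOn hz2.1 ?_ ?_
        · rw [← hO2e]; exact hu.1.2
        · rw [hE1', hE1']; exact h2
      rw [h3]; exact hM

end Pool.Agent.Lib.MP_396e7f_gt
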