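import Pool.Agent.Lib.MP_396e7f_gt.StMom

/-! The Crofton formula with multiplicity: the area excess controls the lines met twice. -/

open Set Filter Metric MeasureTheory
open scoped RealInnerProductSpace Topology ENNReal

namespace Pool.Agent.Lib.MP_396e7f_gt.St

theorem count_le {α ι : Type} [MeasurableSpace α] [Countable ι] (μ : Measure α) (K : ι → Set α)
    {T M : Set α} (hT : MeasurableSet T) (hM : MeasurableSet M) (hc : T ⊆ ⋃ i, K i)
    (h2 : ∀ y ∈ M, ∃ a b, a ≠ b ∧ y ∈ K a ∧ y ∈ K b) : μ T + μ M ≤ ∑' i, μ (K i) := by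
  classical
  rw [← lintegral_indicator_one hT, ← lintegral_indicator_one hM,
    ← lintegral_add_left (measurable_one.indicator hT)]
  simp only [← measure_toMeasurable (K _),
    ← lintegral_indicator_one (measurableSet_toMeasurable μ (K _))]
  rw [← lintegral_tsum fun i =>
    (measurable_one.indicator (measurableSet_toMeasurable μ (K i))).aemeasurable]
  refine lintegral_mono fun y => ?_
  by_cases hy : y ∈ M
  · obtain ⟨a, b, hab, ha, hb⟩ := h2 y hy
    refine le_trans ?_ (ENNReal.sum_le_tsum {a, b})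
    rw [Finset.sum_pair hab, indicator_of_mem hy, indicator_of_mem (subset_toMeasurable μ _ ha),
      indicator_of_mem (subset_toMeasurable μ _ hb)]
    gcongr
    exact indicator_le_self _ _ y
  · rw [indicator_of_notMem hy, add_zero]
    by_cases hy' : y ∈ T
    · obtain ⟨a, ha⟩ := mem_iUnion.1 (hc hy')
      refine le_trans ?_ (ENNReal.le_tsum a)
      rw [indicator_of_mem hy', indicator_of_mem (subset_toMeasurable μ _ ha)]
    · rw [indicator_of_notMem hy']; exact zero_le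

/-- Lines that contain two points of `S` at distance at least `1 / (k + 1)`. -/
def Tw (r : ℝ) (S : Set (E3 × E3)) (k : ℕ) : Set (E3 × E3) :=
  {p | ∃ z ∈ S, ∃ z' ∈ S, 1 / ((k : ℝ) + 1) ≤ dist z z' ∧ fr z.1 (r⁻¹ • z.2) p.1 = p.2 ∧
    fr z'.1 (r⁻¹ • z'.2) p.1 = p.2}

theorem isClosed_Tw (r : ℝ) {S : Set (E3 × E3)} (hK : IsCompact S) (k : ℕ) :
    IsClosed (Tw r S k) := by
  have : CompactSpace S := isCompact_iff_compactSpace.1 hK
  have e : Tw r S k = Prod.snd '' {q : (S × S) × (E3 × E3) |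
      1 / ((k : ℝ) + 1) ≤ dist q.1.1.1 q.1.2.1 ∧ fr q.1.1.1.1 (r⁻¹ • q.1.1.1.2) q.2.1 = q.2.2 ∧
        fr q.1.2.1.1 (r⁻¹ • q.1.2.1.2) q.2.1 = q.2.2} := by
    ext p
    constructor
    · rintro ⟨z, hz, z', hz', h⟩
      exact ⟨((⟨z, hz⟩, ⟨z', hz'⟩), p), h, rfl⟩
    · rintro ⟨⟨⟨z, z'⟩, p⟩, h, rfl⟩
      exact ⟨z.1, z.2, z'.1, z'.2, h⟩
  rw [e]
  exact isClosedMap_snd_of_compactSpace _ ((isClosed_le continuous_const (by fun_prop)).and
    ((isClosed_eq (by fun_prop) (by fun_prop)).and (isClosed_eq (by fun_prop) (by fun_prop))))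

theorem Tw_mono (r : ℝ) (S : Set (E3 × E3)) : Monotone (Tw r S) := by
  rintro k l hkl p ⟨z, hz, z', hz', h, h'⟩
  exact ⟨z, hz, z', hz', (Nat.one_div_le_one_div hkl).trans h, h'⟩

theorem once_of_notMem {r : ℝ} {S : Set (E3 × E3)} {c y : E3} (h : (c, y) ∉ ⋃ k, Tw r S k) :
    Once r S c y := fun z hz z' hz' e e' => by
  by_contra hne
  obtain ⟨k, hk⟩ := exists_nat_one_div_lt (dist_pos.2 hne)
  exact h (mem_iUnion.2 ⟨k, z, hz, z', hz', hk.le, e, e'⟩)

section
variable {r : ℝ} (hr : 0 < r) {S : Set (E3 × E3)} (hS : S ⊆ sphereBundle r) (hK : IsCompact S)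
  (hsur : ∀ c y : E3, c ≠ 0 → ‖y‖ = ‖c‖ → ∃ z ∈ S, fr z.1 (r⁻¹ • z.2) c = y)
include hr hS hK hsur

theorem shell_add_le {n : ℕ} {φ : Fin n → ℝ × ℝ → E3 × E3} {W A : Fin n → Set (ℝ × ℝ)}
    (h : ∀ i, IsChart S (φ i) (W i) ∧ MeasurableSet (A i) ∧ A i ⊆ W i)
    (hc : S ⊆ ⋃ i, φ i '' A i) {c : E3} (hc0 : c ≠ 0) (k : ℕ) :
    volume (shell c) + volume (toD '' ({y | (dir c, dir y) ∈ Tw r S k} ∩ ball 0 ‖c‖)) ≤
      ENNReal.ofReal (‖c‖ ^ 2 / 3) * ∑ i, crof r c (φ i) (A i) := by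
  classical
  obtain ⟨P, hPm, hPb, hPd, hPu, hPp⟩ := SeparableSpace.exists_measurable_partition_diam_le
    (E3 × E3) (ε := 1 / ((k + 1 : ℕ) + 1)) Nat.one_div_pos_of_nat
  have hP : ∀ z, ∃ j, z ∈ P j := fun z => mem_iUnion.1 (hPu ▸ mem_univ z)
  have hm : ∀ i j, MeasurableSet (A i ∩ φ i ⁻¹' P j) := fun i j => by
    have := (h i).2.1.inter (((h i).1.2.1.continuousOn.measurable_piecewise
      (continuousOn_const (c := 0)) (h i).1.1.measurableSet) (hPm j))
    convert this using 1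
    ext u
    exact and_congr_right fun hu => by
      rw [mem_preimage, mem_preimage, piecewise_eq_of_mem _ _ _ ((h i).2.2 hu)]
  have hemb := toD.toHomeomorph.measurableEmbedding
  have hc' : 0 < ‖c‖ := norm_pos_iff.2 hc0
  refine (count_le volume (fun a : Fin n × ℕ =>
    coneMap r c (φ a.1) '' ((A a.1 ∩ φ a.1 ⁻¹' P a.2) ×ˢ Ioo (0 : ℝ) 1))
    (hemb.measurableSet_image.2 (measurableSet_ball.diff (measurableSet_singleton _)))
    (hemb.measurableSet_image.2 (((measurable_const.prodMk measurable_dir)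
      (isClosed_Tw r hK k).measurableSet).inter measurableSet_ball)) (fun y hy => ?_) ?_).trans ?_
  · obtain ⟨i, u, hu, rfl⟩ := mem_iUnion.1 (shell_subset hsur hc hc0 hy)
    obtain ⟨j, hj⟩ := hP (φ i u.1)
    exact mem_iUnion.2 ⟨(i, j), u, ⟨⟨hu.1, hj⟩, hu.2⟩, rfl⟩
  · rintro _ ⟨y, ⟨⟨z, hz, z', hz', hd, e, e'⟩, hy⟩, rfl⟩
    have hy0 : y ≠ 0 := by
      rintro rfl
      have := ((mem_bundle_iff hr).1 (hS hz)).inner_fr (dir c) (dir c)
      rw [inner_dir hc0, show fr z.1 (r⁻¹ • z.2) (dir c) = dir 0 from e] at this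
      simp [dir] at this
    have hy' : 0 < ‖y‖ := norm_pos_iff.2 hy0
    have key : ∀ z ∈ S, fr z.1 (r⁻¹ • z.2) (dir c) = dir y → ∃ a : Fin n × ℕ, z ∈ P a.2 ∧
        toD y ∈ coneMap r c (φ a.1) '' ((A a.1 ∩ φ a.1 ⁻¹' P a.2) ×ˢ Ioo (0 : ℝ) 1) := by
      intro z hz e
      obtain ⟨i, u, hu, rfl⟩ := mem_iUnion.1 (hc hz)
      obtain ⟨j, hj⟩ := hP (φ i u)
      refine ⟨(i, j), hj, (u, ‖y‖ / ‖c‖), ⟨⟨hu, hj⟩, by positivity,
        (div_lt_one hc').2 (mem_ball_zero_iff.1 hy)⟩, ?_⟩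
      rw [dir, fr_smul] at e
      simp only [coneMap]
      rw [div_eq_mul_inv, mul_smul, e, dir, smul_smul, mul_inv_cancel₀ hy'.ne', one_smul]
    obtain ⟨a, ha, ha'⟩ := key z hz e
    obtain ⟨b, hb, hb'⟩ := key z' hz' e'
    refine ⟨a, b, ?_, ha', hb'⟩
    rintro rfl
    exact absurd (hd.trans ((dist_le_diam_of_mem (hPb _) ha hb).trans (hPd _)))
      (not_le.2 (Nat.one_div_lt_one_div (Nat.lt_succ_self k)))
  · rw [ENNReal.tsum_prod', tsum_fintype, Finset.mul_sum]
    refine Finset.sum_le_sum fun i _ => ?_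
    refine (ENNReal.tsum_le_tsum fun j => (h i).1.volume_cone_le hr hS (hm i j)
      (inter_subset_left.trans (h i).2.2) c).trans ?_
    rw [ENNReal.tsum_mul_left]
    gcongr
    unfold crof
    rw [← lintegral_iUnion (hm i) fun j j' hjj =>
      ((hPp hjj).preimage _).mono inter_subset_right inter_subset_right]
    exact lintegral_mono_set (iUnion_subset fun j => inter_subset_left)

theorem excess (hsurf : IsSurface S) {k : ℝ≥0∞}
    (hk : (volume : Measure D3).map toD.symm = k • (volume : Measure E3)) :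
    crofConst r + 3 * k * ∫⁻ c in ball (0 : E3) 1, ENNReal.ofReal ‖dil r c‖ *
      sph E3 {y | (dir (dil r c), y) ∈ ⋃ k, Tw r S k} ≤ cosConst * area S := by
  obtain ⟨n, φ, W, h, hc⟩ := exists_finite_cover hK hsurf
  obtain ⟨A, hA, hd, hc', -⟩ := exists_disjoint_pieces h hc
  have hT : MeasurableSet (⋃ k, Tw r S k) :=
    MeasurableSet.iUnion fun k => (isClosed_Tw r hK k).measurableSet
  refine le_trans ?_ (mul_le_mul_right (sum_le_area hA hd) _)
  have hkk : Measurable fun c => kk (dil r c) :=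
    (((continuous_dil r).norm.const_mul 3).measurable.ennreal_ofReal).mul_const _
  have hb : Measurable fun c => sph E3 {y | (dir (dil r c), y) ∈ ⋃ k, Tw r S k} :=
    (measurable_measure_prodMk_left hT).comp (measurable_dir.comp (continuous_dil r).measurable)
  rw [sum_crofton hr hS hA, crofConst, ← lintegral_const_mul _
    ((continuous_dil r).norm.measurable.ennreal_ofReal.fun_mul hb), ← lintegral_add_left hkk]
  refine lintegral_mono_ae ?_
  filter_upwards [ae_ne_zero] with c0 hc0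
  have hc1 := dil_ne_zero hr hc0
  generalize dil r c0 = c at hc1
  have hpos : 0 < ‖c‖ := norm_pos_iff.2 hc1
  rw [← cancel_const hc1, mul_add, ← volume_shell hc1]
  have hB : MeasurableSet {y | (dir c, y) ∈ ⋃ k, Tw r S k} := measurable_prodMk_left hT
  have e1 : ENNReal.ofReal (‖c‖ ^ 2 / 3) * (3 * k * (ENNReal.ofReal ‖c‖ *
      sph E3 {y | (dir c, y) ∈ ⋃ k, Tw r S k})) =
      volume (⋃ k, toD '' ({y | (dir c, dir y) ∈ Tw r S k} ∩ ball 0 ‖c‖)) := by
    have a1 := lintegral_ball_smul (h := (dir ⁻¹' {y | (dir c, y) ∈ ⋃ k, Tw r S k}).indicator 1)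
      (measurable_one.indicator (measurable_dir hB)) hpos fun x =>
        indicator_const_eq_indicator_const (by rw [mem_preimage, mem_preimage, dir_smul hpos])
    rw [lintegral_indicator_one (measurable_dir hB), lintegral_indicator_one (measurable_dir hB),
      ← Measure.map_apply measurable_dir hB (μ := volume.restrict (ball 0 1)),
      Measure.restrict_apply (measurable_dir hB), show Module.finrank ℝ E3 = 3 by simp] at a1
    rw [← image_iUnion, ← iUnion_inter, toD.image_eq_preimage_symm]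
    have a2 : (⋃ k, {y | (dir c, dir y) ∈ Tw r S k}) =
        dir ⁻¹' {y | (dir c, y) ∈ ⋃ k, Tw r S k} := by ext y; simp
    rw [a2, ← Measure.map_apply toD.symm.continuous.measurable
      ((measurable_dir hB).inter measurableSet_ball), hk]
    rw [Measure.smul_apply, a1, smul_eq_mul, show ‖c‖ ^ 3 = ‖c‖ ^ 2 / 3 * 3 * ‖c‖ by ring,
      ENNReal.ofReal_mul (by positivity), ENNReal.ofReal_mul (by positivity), ENNReal.ofReal_ofNat,
      sph]
    ring
  have hmono : Monotone fun k => toD '' ({y | (dir c, dir y) ∈ Tw r S k} ∩ ball 0 ‖c‖) :=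
    fun a b hab => image_mono (inter_subset_inter_left _ fun y hy => Tw_mono r S hab hy)
  rw [e1, hmono.measure_iUnion, ENNReal.add_iSup]
  exact iSup_le fun k => shell_add_le hr hS hK hsur hA hc' hc1 k

end

end Pool.Agent.Lib.MP_396e7f_gt.St
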