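import Pool.Agent.Lib.MP_396e7f_gt.StExc

/-! Quadratic stability of the parallel transport fields. -/

open Set Filter Metric MeasureTheory
open scoped RealInnerProductSpace Topology ENNReal

namespace Pool.Agent.Lib.MP_396e7f_gt.St

theorem fibre_le {r : ℝ} (hr : 0 < r) {U : Set E3} {V : E3 → E3} (h : IsVectorField r U V)
    {u : Hq → ℝ} {x e : Hq} (hx : ⟪x, x⟫ = 1) (he : ⟪e, e⟫ = 1) (hp : rq x (vec 1 0 0) ∈ U)
    {t0 : ℝ} (h0 : fq r (x * ex (vec 1 0 0) t0) ∈ graphClosure U V)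
    (hg : Good u x (vec 1 0 0) t0) :
    ‖rq e (vec 1 0 0) + rq x (vec 1 0 0)‖ * ‖V (rq x (vec 1 0 0)) -
      parField r (rq e (vec 1 0 0)) (-rq e (vec 0 1 0)) (rq x (vec 1 0 0))‖ ^ 2 ≤
    8 * r ^ 2 * ∫ t in (0 : ℝ)..2 * Real.pi, (|⟪e, x * ex (vec 1 0 0) t⟫| -
      u (x * ex (vec 1 0 0) t) * ⟪e, x * ex (vec 1 0 0) t⟫) := by
  have hi := fr_vec.1
  set q := x * ex (vec 1 0 0) t0 with hq
  have e1 : rq q (vec 1 0 0) = rq x (vec 1 0 0) := by rw [hq, rq_mul, rq_ex hi]
  have e2 : r • rq q (vec 0 1 0) = V (rq q (vec 1 0 0)) := h.eq_of_mem h0 (e1 ▸ hp :)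
  have e3 : ∀ t, ⟪e, x * ex (vec 1 0 0) t⟫ = ⟪q, e⟫ * Real.cos (t - t0) +
      ⟪q * pu (vec 1 0 0), e⟫ * Real.sin (t - t0) := fun t => by
    rw [← inner_mul_ex, hq, mul_assoc, ex_mul hi, add_sub_cancel, real_inner_comm]
  have a := weight_le (q := q) (unit_mul hx (ex_unit hi t0)) he
  have b := fibre_integral ⟪q, e⟫ ⟪q * pu (vec 1 0 0), e⟫ t0
  simp only [e3, hg _]
  rw [← e1, ← e2, parField, ← smul_sub, norm_smul, mul_pow, Real.norm_of_nonneg hr.le,
    mul_left_comm, mul_comm 8, mul_assoc]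
  exact mul_le_mul_of_nonneg_left (by linarith) (sq_nonneg r)

theorem dist_le {r : ℝ} (hr : 0 < r) : ∃ C : ℝ≥0∞, C ≠ ⊤ ∧ ∀ (U : Set E3) (V : E3 → E3),
    IsVectorField r U V → IsSurface (graphClosure U V) → ∃ a b : E3, Fr a b ∧
      ∫⁻ p : sphere (0 : E3) 1 in {p | p.1 ∈ U},
        ENNReal.ofReal (‖a + p.1‖ * ‖V p.1 - parField r a b p.1‖ ^ 2) ∂volume.toSphere ≤
      C * ∫⁻ c in ball (0 : E3) 1, ENNReal.ofReal ‖dil r c‖ *
        sph E3 {y | (dir (dil r c), y) ∈ ⋃ k, Tw r (graphClosure U V) k} := by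
  classical
  obtain ⟨C, hC, hax⟩ := axis_le hr
  refine ⟨3 * ENNReal.ofReal (16 * Real.pi * r ^ 2 / hc) * 2 * C, by finiteness,
    fun U V h hsurf => ?_⟩
  set T := ⋃ k, Tw r (graphClosure U V) k with hTd
  have hT : MeasurableSet T :=
    MeasurableSet.iUnion fun k => (isClosed_Tw r h.isCompact k).measurableSet
  obtain ⟨u, hu, h1, hgood⟩ := exists_sign hr h hsurf
  obtain ⟨e, he, hmom⟩ := moment hu h1 hT fun x c hx hc hn =>
    (hgood x c hx hc (once_of_notMem hn)).imp fun _ a => a.2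
  refine ⟨_, _, (Fr_rq he).neg, ?_⟩
  set a := rq e (vec 1 0 0) with ha
  set b := -rq e (vec 0 1 0) with hb
  have hU : MeasurableSet U := by
    obtain ⟨O, hO, rfl⟩ := h.1
    exact isClosed_sphere.measurableSet.inter hO.measurableSet
  have hV : Measurable (U.piecewise V fun _ => 0) :=
    h.2.2.1.measurable_piecewise continuousOn_const hU
  let g : E3 → ℝ≥0∞ := U.indicator fun p =>
    ENNReal.ofReal (‖a + p‖ * ‖U.piecewise V (fun _ => 0) p - parField r a b p‖ ^ 2)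
  have hP : Measurable (parField r a b) := by
    unfold parField parallelField
    fun_prop
  have hg : Measurable g := Measurable.indicator (by fun_prop) hU
  have hgU : ∀ p ∈ U, g p = ENNReal.ofReal (‖a + p‖ * ‖V p - parField r a b p‖ ^ 2) :=
    fun p hp => by simp only [g, indicator_of_mem hp, piecewise_eq_of_mem _ _ _ hp]
  have s1 : ∫⁻ p : sphere (0 : E3) 1 in {p | p.1 ∈ U},
      ENNReal.ofReal (‖a + p.1‖ * ‖V p.1 - parField r a b p.1‖ ^ 2) ∂volume.toSphere =
      3 * ∫⁻ y, g y ∂sph E3 := by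
    have := lintegral_toSphere hg
    rw [show Module.finrank ℝ E3 = 3 by simp, Nat.cast_ofNat] at this
    rw [← this, ← lintegral_indicator (s := {p : sphere (0 : E3) 1 | p.1 ∈ U})
      (measurable_subtype_coe hU)]
    refine lintegral_congr fun p => ?_
    by_cases hp : p.1 ∈ U
    · rw [hgU _ hp, indicator_of_mem (s := {p : sphere (0 : E3) 1 | p.1 ∈ U}) hp]
    · rw [indicator_of_notMem (s := {p : sphere (0 : E3) 1 | p.1 ∈ U}) hp]
      exact (indicator_of_notMem hp _).symm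
  have hD : ∀ y, 0 ≤ |⟪e, y⟫| - u y * ⟪e, y⟫ := fun y => sub_nonneg.2 ((le_abs_self _).trans (by
    rw [abs_mul]; exact mul_le_of_le_one_left (abs_nonneg _) (h1 y)))
  obtain ⟨hi, hav⟩ := avg_line (f := fun y => |⟪e, y⟫| - u y * ⟪e, y⟫) (by fun_prop) (C := 2)
    (fun y hy => by
      have := abs_inner_le he hy
      refine (abs_sub _ _).trans ?_
      rw [abs_abs, abs_mul]
      linarith [mul_le_one₀ (h1 y) (abs_nonneg _) this]) fr_vec.1
  have s2 : ∫⁻ x, g (rq x (vec 1 0 0)) ∂sph Hq ≤ ENNReal.ofReal (16 * Real.pi * r ^ 2 / hc) *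
      ENNReal.ofReal (hc * ∫ x, (|⟪e, x⟫| - u x * ⟪e, x⟫) ∂sph Hq) := by
    have := hc_pos
    rw [← ENNReal.ofReal_mul (by positivity), ← mul_assoc, div_mul_cancel₀ _ hc_pos.ne',
      show 16 * Real.pi * r ^ 2 = 8 * r ^ 2 * (2 * Real.pi) by ring, mul_assoc, hav,
      ← integral_const_mul, ofReal_integral_eq_lintegral_ofReal (hi.const_mul _)
        (Eventually.of_forall fun x => mul_nonneg (by positivity)
          (intervalIntegral.integral_nonneg Real.two_pi_pos.le fun t _ => hD _))]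
    refine lintegral_mono_ae (ae_unit.mono fun x hx => ?_)
    by_cases hp : rq x (vec 1 0 0) ∈ U
    · obtain ⟨t0, h0, hg0⟩ := hgood x _ hx fr_vec.1 (once_fibre h hp)
      rw [hgU _ hp]
      exact ENNReal.ofReal_le_ofReal (fibre_le hr h hx he hp h0 hg0)
    · exact (indicator_of_notMem hp _).trans_le zero_le
  have s3 : sph E3 univ * ∫⁻ z, sph Hq {x | (dir (imv z), rq x (dir (imv z))) ∈ T} ∂sph Hq =
      sph Hq univ * ∫⁻ z, sph E3 {y | (dir (imv z), y) ∈ T} ∂sph Hq := by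
    rw [← lintegral_const_mul' _ _ (measure_ne_top _ _),
      ← lintegral_const_mul' _ _ (measure_ne_top _ _)]
    refine lintegral_congr_ae (ae_imv.mono fun z hz => ?_)
    have hB : MeasurableSet {y | (dir (imv z), y) ∈ T} := measurable_prodMk_left hT
    have := average (measurable_one.indicator hB) (inner_dir hz.1)
    rw [lintegral_indicator_one hB] at this
    dsimp only
    rw [← this, ← lintegral_indicator_one (s := {x | (dir (imv z), rq x (dir (imv z))) ∈ T})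
      ((continuous_rq continuous_id continuous_const).measurable hB)]
    rfl
  have s4 := hax (fun c => sph E3 {y | (c, y) ∈ T}) (measurable_measure_prodMk_left hT)
    fun c => measure_mono (subset_univ _)
  rw [s1, ← ENNReal.mul_le_mul_iff_right (sph_univ_ne (F := Hq)) (measure_ne_top _ _),
    mul_left_comm, ← average hg fr_vec.1]
  calc _ ≤ 3 * (sph E3 univ * (ENNReal.ofReal (16 * Real.pi * r ^ 2 / hc) * (2 *
        ∫⁻ z, sph Hq {x | (dir (imv z), rq x (dir (imv z))) ∈ T} ∂sph Hq))) := by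
        gcongr
        exact s2.trans (by gcongr)
    _ = 3 * ENNReal.ofReal (16 * Real.pi * r ^ 2 / hc) * 2 *
        (sph Hq univ * ∫⁻ z, sph E3 {y | (dir (imv z), y) ∈ T} ∂sph Hq) := by rw [← s3]; ring
    _ ≤ 3 * ENNReal.ofReal (16 * Real.pi * r ^ 2 / hc) * 2 * (sph Hq univ * (C * _)) := by gcongr
    _ = _ := by ring

theorem stability {r : ℝ} (hr : 0 < r) : ∃ c : ℝ, 0 < c ∧ ∀ (U : Set E3) (V : E3 → E3),
    IsVectorField r U V → IsSurface (graphClosure U V) → ∃ a b : E3, Fr a b ∧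
      area (plane r a (-b)) + ENNReal.ofReal c * ∫⁻ p : sphere (0 : E3) 1 in {p | p.1 ∈ U},
        ENNReal.ofReal (‖a + p.1‖ * ‖V p.1 - parField r a b p.1‖ ^ 2) ∂volume.toSphere ≤
      area (graphClosure U V) := by
  obtain ⟨C, hC, hd⟩ := dist_le hr
  obtain ⟨k, hk0, hk, hmap⟩ := exists_haar toD.symm (volume : Measure D3) (volume : Measure E3)
  have hcc := cosConst_lt_top.ne
  have hf : cosConst * (C + 1) ≠ ⊤ := by finiteness
  have h0 : cosConst * (C + 1) ≠ 0 := mul_ne_zero cosConst_pos.ne' (by simp)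
  have hfin : 3 * k / (cosConst * (C + 1)) ≠ ⊤ := ENNReal.div_ne_top (by finiteness) h0
  refine ⟨(3 * k / (cosConst * (C + 1))).toReal, ENNReal.toReal_pos
    (ENNReal.div_ne_zero.2 ⟨mul_ne_zero (by simp) hk0, hf⟩) hfin, fun U V h hsurf => ?_⟩
  obtain ⟨a, b, hab, hle⟩ := hd U V h hsurf
  refine ⟨a, b, hab, ?_⟩
  rw [ENNReal.ofReal_toReal hfin, ← ENNReal.mul_le_mul_iff_right cosConst_pos.ne' hcc, mul_add]
  refine le_trans (add_le_add (area_le_of_plane hr (plane_subset hr hab.neg) Subset.rfl) ?_)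
    (excess hr h.subset_bundle h.isCompact (fun c y => h.surj hr hsurf) hsurf hmap)
  refine (mul_le_mul_right (mul_le_mul_right hle _) _).trans ?_
  rw [← mul_assoc, ← mul_assoc]
  refine mul_le_mul_left ?_ _
  calc cosConst * (3 * k / (cosConst * (C + 1))) * C
      ≤ cosConst * (3 * k / (cosConst * (C + 1))) * (C + 1) := by gcongr; exact le_self_add
    _ = cosConst * (C + 1) * (3 * k / (cosConst * (C + 1))) := by ring
    _ ≤ _ := ENNReal.mul_div_le

end Pool.Agent.Lib.MP_396e7f_gt.St
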