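import Pool.Agent.Lib.MP_396e7f_gt.StQ

/-! Uniform measures on spheres and averaging over rotations. -/

open Set Filter Metric MeasureTheory
open scoped RealInnerProductSpace Topology ENNReal Pointwise

namespace Pool.Agent.Lib.MP_396e7f_gt.St

noncomputable instance measHq : MeasurableSpace Hq := borel Hq
instance borelHq : BorelSpace Hq := ⟨rfl⟩

section sph
variable (F : Type) [NormedAddCommGroup F] [InnerProductSpace ℝ F] [FiniteDimensional ℝ F]
  [MeasurableSpace F] [BorelSpace F]

/-- The uniform measure of the unit sphere, as a measure on the whole space. -/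
noncomputable def sph : Measure F := (volume.restrict (ball (0 : F) 1)).map dir

variable {F}

omit [FiniteDimensional ℝ F] in
theorem measurable_dir [SecondCountableTopology F] : Measurable (dir : F → F) := by
  unfold dir; fun_prop

theorem sph_univ : sph F univ = volume (ball (0 : F) 1) := by
  rw [sph, Measure.map_apply measurable_dir MeasurableSet.univ]; simp

instance finite_sph : IsFiniteMeasure (sph F) := ⟨by rw [sph_univ]; exact measure_ball_lt_top⟩

theorem sph_univ_ne : sph F univ ≠ 0 := by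
  rw [sph_univ]; exact (measure_ball_pos _ _ one_pos).ne'

theorem lintegral_sph {g : F → ℝ≥0∞} (hg : Measurable g) :
    ∫⁻ x, g x ∂sph F = ∫⁻ x in ball (0 : F) 1, g (dir x) := lintegral_map hg measurable_dir

theorem ae_notMem (K : Submodule ℝ F) (hK : K ≠ ⊤) : ∀ᵐ x ∂sph F, x ∉ K ∧ ⟪x, x⟫ = 1 := by
  have h1 : MeasurableSet {x : F | x ∉ K ∧ ⟪x, x⟫ = 1} :=
    (K.closed_of_finiteDimensional.measurableSet.compl).inter
      (isClosed_eq (by fun_prop) continuous_const).measurableSet
  rw [sph, ae_map_iff measurable_dir.aemeasurable h1]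
  refine ae_restrict_of_ae ?_
  have : ∀ᵐ x : F, x ∉ K := measure_eq_zero_iff_ae_notMem.1 (Measure.addHaar_submodule _ K hK)
  filter_upwards [this] with x hx
  have h0 : x ≠ 0 := fun e => hx (e ▸ K.zero_mem)
  exact ⟨fun h => hx ((K.smul_mem_iff (inv_ne_zero (norm_ne_zero_iff.2 h0))).1 h), inner_dir h0⟩

theorem ae_unit [Nontrivial F] : ∀ᵐ x ∂sph F, ⟪x, x⟫ = 1 :=
  (ae_notMem ⊥ bot_ne_top).mono fun _ h => h.2

theorem sph_inv (T : F →ₗ[ℝ] F) (hT : ∀ a b, ⟪T a, T b⟫ = ⟪a, b⟫) :
    MeasurePreserving T (sph F) (sph F) := by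
  let L : F ≃ₗᵢ[ℝ] F := (T.isometryOfInner hT).toLinearIsometryEquiv rfl
  have hL : (T : F → F) = L := rfl
  have h1 : MeasurePreserving L (volume.restrict (ball (0 : F) 1))
      (volume.restrict (ball (0 : F) 1)) := by
    have := L.measurePreserving.restrict_preimage (s := ball (0 : F) 1) measurableSet_ball
    rwa [show L ⁻¹' ball 0 1 = ball 0 1 by ext u; simp] at this
  rw [hL]
  refine ⟨L.continuous.measurable, ?_⟩
  rw [sph, Measure.map_map L.continuous.measurable measurable_dir,
    show (L ∘ dir : F → F) = dir ∘ L by funext x; simp [dir],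
    ← Measure.map_map measurable_dir L.continuous.measurable, h1.map_eq]

omit [FiniteDimensional ℝ F] [MeasurableSpace F] [BorelSpace F] in
theorem dir_smul {t : ℝ} (ht : 0 < t) (x : F) : dir (t • x) = dir x := by
  rw [dir, dir, norm_smul, smul_smul, Real.norm_of_nonneg ht.le, mul_inv, mul_right_comm,
    inv_mul_cancel₀ ht.ne', one_mul]

omit [FiniteDimensional ℝ F] [MeasurableSpace F] [BorelSpace F] in
theorem dir_dir (x : F) : dir (dir x) = dir x := by
  by_cases h : x = 0
  · simp [dir, h]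
  · exact dir_smul (inv_pos.2 (norm_pos_iff.2 h)) x

theorem lintegral_ball_smul {h : F → ℝ≥0∞} (hm : Measurable h) {t : ℝ} (ht : 0 < t)
    (hh : ∀ x, h (t • x) = h x) : ∫⁻ x in ball (0 : F) t, h x =
      ENNReal.ofReal (t ^ Module.finrank ℝ F) * ∫⁻ x in ball (0 : F) 1, h x := by
  have h1 := setLIntegral_map (μ := (volume : Measure F)) (s := ball (0 : F) t) (f := h)
    (g := fun x : F => t • x) measurableSet_ball hm (by fun_prop)
  have h2 : (fun x : F => t • x) ⁻¹' ball 0 t = ball 0 1 := by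
    ext x
    simp only [mem_preimage, mem_ball_zero_iff, norm_smul, Real.norm_of_nonneg ht.le]
    exact mul_lt_iff_lt_one_right ht
  rw [Measure.map_addHaar_smul _ ht.ne', h2, Measure.restrict_smul, lintegral_smul_measure] at h1
  simp only [hh] at h1
  rw [← h1, smul_eq_mul, ← mul_assoc, ← ENNReal.ofReal_mul (by positivity),
    abs_of_pos (by positivity), mul_inv_cancel₀ (by positivity), ENNReal.ofReal_one, one_mul]

theorem lintegral_toSphere [Nontrivial F] {g : F → ℝ≥0∞} (hg : Measurable g) :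
    ∫⁻ p : sphere (0 : F) 1, g p ∂(volume : Measure F).toSphere =
      Module.finrank ℝ F * ∫⁻ x, g x ∂sph F := by
  have : (volume : Measure F).toSphere.map Subtype.val =
      (Module.finrank ℝ F : ℝ≥0∞) • sph F := by
    ext A hA
    rw [Measure.map_apply measurable_subtype_coe hA,
      Measure.toSphere_apply' _ (measurable_subtype_coe hA), Measure.smul_apply, smul_eq_mul, sph,
      Measure.map_apply measurable_dir hA, Measure.restrict_apply (measurable_dir hA),
      ← measure_sdiff_null (s := dir ⁻¹' A ∩ ball 0 1) (measure_singleton (0 : F))]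
    congr 2
    ext y
    constructor
    · rintro ⟨t, ht, _, ⟨p, hp, rfl⟩, rfl⟩
      have hn : ‖(p : F)‖ = 1 := by simp
      refine ⟨⟨?_, ?_⟩, ?_⟩
      · show dir (t • (p : F)) ∈ A
        rw [dir_smul ht.1, dir, hn, inv_one, one_smul]; exact hp
      · simpa [norm_smul, hn, abs_of_pos ht.1] using ht.2
      · exact smul_ne_zero ht.1.ne' (by rw [← norm_ne_zero_iff, hn]; exact one_ne_zero)
    · rintro ⟨⟨h1, h2⟩, h3⟩
      have h4 : 0 < ‖y‖ := norm_pos_iff.2 h3
      refine ⟨‖y‖, ⟨h4, mem_ball_zero_iff.1 h2⟩, dir y, ⟨⟨dir y, ?_⟩, h1, rfl⟩, ?_⟩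
      · exact mem_sphere_zero_iff_norm.2 (norm_smul_inv_norm (𝕜 := ℝ) h3)
      · show ‖y‖ • dir y = y
        rw [dir, smul_smul, mul_inv_cancel₀ h4.ne', one_smul]
  rw [← lintegral_map hg measurable_subtype_coe, this, lintegral_smul_measure, smul_eq_mul]

end sph

theorem exists_haar {F G : Type} [NormedAddCommGroup F] [NormedSpace ℝ F] [MeasurableSpace F]
    [BorelSpace F] [NormedAddCommGroup G] [NormedSpace ℝ G] [MeasurableSpace G] [BorelSpace G]
    [FiniteDimensional ℝ G] (L : F ≃L[ℝ] G) (μ : Measure F) (ν : Measure G)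
    [μ.IsAddHaarMeasure] [ν.IsAddHaarMeasure] :
    ∃ k : ℝ≥0∞, k ≠ 0 ∧ k ≠ ⊤ ∧ μ.map L = k • ν := by
  have := L.isAddHaarMeasure_map μ
  exact ⟨Measure.addHaarScalarFactor (μ.map L) ν,
    ENNReal.coe_ne_zero.2 (Measure.addHaarScalarFactor_pos_of_isAddHaarMeasure _ _).ne',
    ENNReal.coe_ne_top, Measure.isAddLeftInvariant_eq_smul _ _⟩

theorem mp_left {x : Hq} (hx : ⟪x, x⟫ = 1) :
    MeasurePreserving (fun z => x * z) (sph Hq) (sph Hq) :=
  sph_inv (LinearMap.mulLeft ℝ x) fun a b => by
    simp only [LinearMap.mulLeft_apply, inner_mul_left, hx, one_mul]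

theorem mp_right {x : Hq} (hx : ⟪x, x⟫ = 1) :
    MeasurePreserving (fun z => z * x) (sph Hq) (sph Hq) :=
  sph_inv (LinearMap.mulRight ℝ x) fun a b => by
    simp only [LinearMap.mulRight_apply, inner_mul_right, hx, one_mul]

theorem mp_rq {x : Hq} (hx : ⟪x, x⟫ = 1) : MeasurePreserving (rq x) (sph E3) (sph E3) :=
  sph_inv ⟨⟨rq x, rq_add x⟩, rq_smul x⟩ (rq_inner hx)

/-- The image of a unit vector under a uniform rotation is uniform. -/
theorem average {g : E3 → ℝ≥0∞} (hg : Measurable g) {c : E3} (hc : ⟪c, c⟫ = 1) :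
    sph E3 univ * ∫⁻ x, g (rq x c) ∂sph Hq = sph Hq univ * ∫⁻ y, g y ∂sph E3 := by
  have hm : Measurable fun p : E3 × Hq => g (rq p.2 p.1) :=
    hg.comp (continuous_rq continuous_snd continuous_fst).measurable
  calc sph E3 univ * ∫⁻ x, g (rq x c) ∂sph Hq
      = ∫⁻ _d, ∫⁻ x, g (rq x c) ∂sph Hq ∂sph E3 := by rw [lintegral_const, mul_comm]
    _ = ∫⁻ d, ∫⁻ x, g (rq x d) ∂sph Hq ∂sph E3 := by
        refine lintegral_congr_ae (ae_unit.mono fun d hd => ?_)
        obtain ⟨m, hm', e⟩ := exists_half hc hd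
        have := (mp_right (x := pu m) (by rw [inner_pu, hm'])).lintegral_comp
          (f := fun x => g (rq x c)) (hg.comp (continuous_rq continuous_id continuous_const).measurable)
        simp only [rq_mul, rq_pu hm', e] at this
        exact this.symm
    _ = ∫⁻ x, ∫⁻ d, g (rq x d) ∂sph E3 ∂sph Hq := lintegral_lintegral_swap hm.aemeasurable
    _ = ∫⁻ _x, ∫⁻ y, g y ∂sph E3 ∂sph Hq :=
        lintegral_congr_ae (ae_unit.mono fun x hx => (mp_rq hx).lintegral_comp hg)
    _ = _ := by rw [lintegral_const, mul_comm]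

theorem ae_imv : ∀ᵐ z ∂sph Hq, imv z ≠ 0 ∧ ⟪z, z⟫ = 1 := by
  have : (ℝ ∙ (1 : Hq)) ≠ ⊤ := fun h => by
    have h1 : mq 0 1 0 0 ∈ (ℝ ∙ (1 : Hq)) := h ▸ Submodule.mem_top
    obtain ⟨t, ht⟩ := Submodule.mem_span_singleton.1 h1
    have : t * 0 = 1 := congrArg QuaternionAlgebra.imI ht
    simp at this
  filter_upwards [ae_notMem _ this] with z hz
  refine ⟨fun h => hz.1 (Submodule.mem_span_singleton.2 ⟨z.re, ?_⟩), hz.2⟩
  have h0 : z.imI = 0 := congrArg (fun w : E3 => w 0) h
  have h1 : z.imJ = 0 := congrArg (fun w : E3 => w 1) h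
  have h2 : z.imK = 0 := congrArg (fun w : E3 => w 2) h
  ext
  exacts [mul_one _, (mul_zero _).trans h0.symm, (mul_zero _).trans h1.symm,
    (mul_zero _).trans h2.symm]

/-- The linear map `dil r` is invertible. -/
noncomputable def split (r : ℝ) (hr : r ≠ 0) : Hq ≃L[ℝ] ℝ × E3 :=
  LinearEquiv.toContinuousLinearEquiv
    { toFun := fun z => (z.re, dil r⁻¹ (imv z))
      invFun := fun p => mq p.1 (p.2 0) (r * p.2 1) (r * p.2 2)
      map_add' := fun x y => Prod.ext rfl (by apply ext3 <;> simp [dil, imv] <;> ring)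
      map_smul' := fun t x => Prod.ext rfl (by apply ext3 <;> simp [dil, imv] <;> ring)
      left_inv := fun z => by ext <;> simp [mq, dil, imv, hr]
      right_inv := fun p => Prod.ext rfl (by apply ext3 <;> simp [mq, dil, imv, hr]) }

theorem dil_smul (r t : ℝ) (c : E3) : dil r (t • c) = t • dil r c := by
  apply ext3 <;> simp [dil] <;> ring

/-- The law of the axis is dominated by the Crofton weight. -/
theorem axis_le {r : ℝ} (hr : 0 < r) : ∃ C : ℝ≥0∞, C ≠ ⊤ ∧ ∀ b : E3 → ℝ≥0∞, Measurable b →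
    (∀ c, b c ≤ sph E3 univ) → ∫⁻ z, b (dir (imv z)) ∂sph Hq ≤
      C * ∫⁻ c in ball (0 : E3) 1, ENNReal.ofReal ‖dil r c‖ * b (dir (dil r c)) := by
  have : Measure.IsAddHaarMeasure (volume : Measure (ℝ × E3)) :=
    Measure.prod.instIsAddHaarMeasure _ _
  obtain ⟨k, -, hk, hmap⟩ := exists_haar (split r hr.ne') volume volume
  set K : ℝ := ‖(split r hr.ne' : Hq →L[ℝ] ℝ × E3)‖ + 1 with hK
  have hK0 : 0 < K := by positivity
  have hKle : ∀ z, ‖split r hr.ne' z‖ ≤ K * ‖z‖ := fun z =>
    ((split r hr.ne' : Hq →L[ℝ] ℝ × E3).le_opNorm z).trans (by gcongr; linarith)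
  have hd : ∀ z, dil r (split r hr.ne' z).2 = imv z := fun z => by
    show dil r (dil r⁻¹ (imv z)) = _
    apply ext3 <;> simp [dil, hr.ne']
  have hlow : ∀ c : E3, ‖c‖ ≤ K * ‖dil r c‖ := fun c => by
    have h1 := hKle (pu (dil r c))
    have h2 : ‖pu (dil r c)‖ = ‖dil r c‖ := by
      rw [norm_eq_sqrt_real_inner, inner_pu, ← norm_eq_sqrt_real_inner]
    have h3 : (split r hr.ne' (pu (dil r c))).2 = c := by
      show dil r⁻¹ (imv (pu (dil r c))) = c
      apply ext3 <;> simp [dil, imv, pu, hr.ne']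
    rw [← h2]
    exact (h3.symm ▸ norm_snd_le _ :).trans h1
  refine ⟨k * (ENNReal.ofReal (2 * K) * ENNReal.ofReal ((K + 1) ^ 3)) *
    (2 * ENNReal.ofReal (2 * K)), by finiteness, fun b hb hb1 => ?_⟩
  set h : E3 → ℝ≥0∞ := fun c => b (dir (dil r c)) with hh
  have hm : Measurable h := hb.comp (measurable_dir.comp (continuous_dil r).measurable)
  have hs : ∀ t : ℝ, 0 < t → ∀ c, h (t • c) = h c := fun t ht c => by
    simp only [hh, dil_smul, dir_smul ht]
  set I := ∫⁻ c in ball (0 : E3) 1, h c with hI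
  have hIfin : I ≠ ⊤ := by
    refine ne_top_of_le_ne_top ?_ (lintegral_mono fun c => hb1 _)
    rw [setLIntegral_const]
    exact ENNReal.mul_ne_top (measure_ne_top _ _) measure_ball_lt_top.ne
  have s1 : ∫⁻ z, b (dir (imv z)) ∂sph Hq ≤
      k * (ENNReal.ofReal (2 * K) * ENNReal.ofReal ((K + 1) ^ 3)) * I := by
    have hm2 : Measurable fun p : ℝ × E3 => h p.2 := hm.comp measurable_snd
    rw [lintegral_sph (g := fun z => b (dir (imv z)))
      (hb.comp (measurable_dir.comp continuous_imv.measurable))]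
    calc ∫⁻ z in ball (0 : Hq) 1, b (dir (imv (dir z)))
        = ∫⁻ z in ball (0 : Hq) 1, h (split r hr.ne' z).2 := by
          refine lintegral_congr fun z => ?_
          simp only [hh, hd]
          by_cases hz : z = 0
          · simp [hz, dir]
          · rw [← dir_smul (inv_pos.2 (norm_pos_iff.2 hz)) (imv z)]
            congr 2
            apply ext3 <;> simp [dir, imv]
      _ ≤ ∫⁻ z in split r hr.ne' ⁻¹' (Icc (-K) K ×ˢ ball 0 (K + 1)), h (split r hr.ne' z).2 := by
          refine lintegral_mono_set fun z hz => ?_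
          have h1 : ‖split r hr.ne' z‖ ≤ K :=
            (hKle z).trans (mul_le_of_le_one_right hK0.le (mem_ball_zero_iff.1 hz).le)
          exact ⟨abs_le.1 ((norm_fst_le _).trans h1),
            mem_ball_zero_iff.2 (((norm_snd_le _).trans h1).trans_lt (lt_add_one K))⟩
      _ = _ := by
          rw [← setLIntegral_map (measurableSet_Icc.prod measurableSet_ball) hm2
            (split r hr.ne').continuous.measurable, hmap, Measure.restrict_smul,
            lintegral_smul_measure, smul_eq_mul, Measure.volume_eq_prod, ← Measure.prod_restrict,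
            lintegral_prod _ hm2.aemeasurable]
          simp only [lintegral_const, MeasurableSet.univ, Measure.restrict_apply, univ_inter,
            Real.volume_Icc]
          rw [lintegral_ball_smul hm (by positivity) (hs _ (by positivity)), ← hI]
          simp only [finrank_euclideanSpace, Fintype.card_fin, sub_neg_eq_add, ← two_mul]
          ring
  have s2 : I ≤ 2 * ∫⁻ c in ball (0 : E3) 1 \ ball 0 (1 / 2), h c := by
    have e1 := lintegral_inter_add_sdiff (μ := volume) h (ball (0 : E3) 1)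
      (measurableSet_ball (x := (0 : E3)) (ε := 1 / 2))
    rw [inter_eq_right.2 (ball_subset_ball (by norm_num)),
      lintegral_ball_smul hm (by norm_num) (hs _ (by norm_num)), ← hI] at e1
    set J := ∫⁻ c in ball (0 : E3) 1 \ ball 0 (1 / 2), h c
    have e2 : 2 * ENNReal.ofReal ((1 / 2) ^ Module.finrank ℝ E3) ≤ 1 := by
      rw [show Module.finrank ℝ E3 = 3 by simp, ← ENNReal.ofReal_ofNat 2,
        ← ENNReal.ofReal_mul (by norm_num), ← ENNReal.ofReal_one]
      exact ENNReal.ofReal_le_ofReal (by norm_num)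
    refine (ENNReal.add_le_add_iff_left hIfin).1 ?_
    calc I + I = 2 * ENNReal.ofReal ((1 / 2) ^ Module.finrank ℝ E3) * I + 2 * J := by
          conv_lhs => rw [← two_mul, ← e1]
          ring
      _ ≤ 1 * I + 2 * J := by gcongr
      _ = _ := by rw [one_mul]
  refine s1.trans ?_
  rw [mul_assoc _ (2 * _), mul_assoc 2]
  gcongr
  refine s2.trans ?_
  gcongr
  rw [← lintegral_const_mul' _ _ ENNReal.ofReal_ne_top]
  refine (setLIntegral_mono' (measurableSet_ball.diff measurableSet_ball) fun c hc => ?_).trans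
    (lintegral_mono_set sdiff_subset)
  rw [← mul_assoc, ← ENNReal.ofReal_mul (by positivity)]
  refine le_mul_of_one_le_left' (ENNReal.one_le_ofReal.2 ?_)
  have := hlow c
  have h2 : 1 / 2 ≤ ‖c‖ := by simpa using hc.2
  linarith

end Pool.Agent.Lib.MP_396e7f_gt.St
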