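import Pool.Agent.Lib.MP_396e7f_gt.StSide

/-! A function that is the sign of a linear form on most great circles has a large first moment. -/

open Set Filter Metric MeasureTheory
open scoped RealInnerProductSpace Topology ENNReal

namespace Pool.Agent.Lib.MP_396e7f_gt.St

theorem measurable_sgn : Measurable Real.sign := by
  unfold Real.sign
  exact Measurable.ite measurableSet_Iio measurable_const
    (Measurable.ite measurableSet_Ioi measurable_const measurable_const)

theorem abs_sgn_le (t : ℝ) : |Real.sign t| ≤ 1 := by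
  rcases Real.sign_apply_eq t with h | h | h <;> simp [h]

theorem sgn_mul_self (t : ℝ) : Real.sign t * t = |t| := by
  rcases lt_trichotomy t 0 with h | h | h
  · rw [Real.sign_of_neg h, abs_of_neg h]; ring
  · simp [h]
  · rw [Real.sign_of_pos h, abs_of_pos h, one_mul]

theorem sgn_pos_mul {a : ℝ} (ha : 0 < a) (t : ℝ) : Real.sign (a * t) = Real.sign t := by
  rcases lt_trichotomy t 0 with h | h | h
  · rw [Real.sign_of_neg h, Real.sign_of_neg (mul_neg_of_pos_of_neg ha h)]
  · simp [h]
  · rw [Real.sign_of_pos h, Real.sign_of_pos (mul_pos ha h)]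

theorem polar (A B : ℝ) : ∃ θ, ∀ s,
    A * Real.cos s + B * Real.sin s = √(A ^ 2 + B ^ 2) * Real.sin (s - θ) := by
  have hn : ‖(⟨B, A⟩ : ℂ)‖ = √(A ^ 2 + B ^ 2) := by
    rw [Complex.norm_eq_sqrt_sq_add_sq, add_comm]
  have h1 := Complex.norm_mul_cos_arg ⟨B, A⟩
  have h2 := Complex.norm_mul_sin_arg ⟨B, A⟩
  rw [hn] at h1 h2
  refine ⟨-Complex.arg ⟨B, A⟩, fun s => ?_⟩
  rw [sub_neg_eq_add, Real.sin_add]
  linear_combination (-Real.sin s) * h1 - Real.cos s * h2

theorem abs_inner_le {x y : Hq} (hx : ⟪x, x⟫ = 1) (hy : ⟪y, y⟫ = 1) : |⟪x, y⟫| ≤ 1 := by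
  have := abs_real_inner_le_norm x y
  rwa [norm_eq_sqrt_real_inner, norm_eq_sqrt_real_inner, hx, hy, Real.sqrt_one, one_mul] at this

theorem one_unit : ⟪(1 : Hq), (1 : Hq)⟫ = 1 := by rw [real_inner_self_eq_norm_sq]; simp

theorem inner_one (z : Hq) : ⟪1, z⟫ = z.re := by simpa using inner_self_mul one_unit z

theorem integral_mp {T : Hq → Hq} (hT : MeasurePreserving T (sph Hq) (sph Hq)) {f : Hq → ℝ}
    (hf : Measurable f) : ∫ x, f (T x) ∂sph Hq = ∫ x, f x ∂sph Hq := by
  rw [← integral_map hT.aemeasurable hf.aestronglyMeasurable, hT.map_eq]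

theorem avg_line {f : Hq → ℝ} (hf : Measurable f) {C : ℝ} (hC : ∀ x, ⟪x, x⟫ = 1 → |f x| ≤ C)
    {c : E3} (hc : ⟪c, c⟫ = 1) :
    Integrable (fun x => ∫ t in (0 : ℝ)..2 * Real.pi, f (x * ex c t)) (sph Hq) ∧
      2 * Real.pi * ∫ x, f x ∂sph Hq =
        ∫ x, (∫ t in (0 : ℝ)..2 * Real.pi, f (x * ex c t)) ∂sph Hq := by
  have hint : Integrable (Function.uncurry fun (t : ℝ) (x : Hq) => f (x * ex c t))
      ((volume.restrict (uIoc 0 (2 * Real.pi))).prod (sph Hq)) := by
    rw [uIoc_of_le Real.two_pi_pos.le]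
    refine Integrable.of_bound (hf.comp (Continuous.measurable (f := fun p : ℝ × Hq =>
      p.2 * ex c p.1) (by fun_prop))).aestronglyMeasurable C ?_
    filter_upwards [Measure.quasiMeasurePreserving_snd.ae ae_unit] with p hp
    exact hC _ (unit_mul hp (ex_unit hc _))
  refine ⟨?_, ?_⟩
  · have := hint.integral_prod_right
    rw [uIoc_of_le Real.two_pi_pos.le] at this
    simpa only [intervalIntegral.integral_of_le Real.two_pi_pos.le, Function.uncurry_apply_pair]
      using this
  · rw [← intervalIntegral_integral_swap hint]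
    simp only [fun t => integral_mp (mp_right (ex_unit hc t)) hf]
    simp

/-- The correlation along right translations. -/
noncomputable def corr (u : Hq → ℝ) (z : Hq) : ℝ := ∫ x, u x * u (x * z) ∂sph Hq

/-- The first moment. -/
noncomputable def mom (u : Hq → ℝ) : Hq := ∫ x, u x • x ∂sph Hq

section
variable {u : Hq → ℝ} (hu : Measurable u) (h1 : ∀ x, |u x| ≤ 1)
include hu h1

theorem inner_mom (e : Hq) : ⟪e, mom u⟫ = ∫ x, u x * ⟪e, x⟫ ∂sph Hq := by
  rw [mom, ← integral_inner]
  · simp only [inner_smul_right]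
  · refine Integrable.of_bound (hu.smul measurable_id).aestronglyMeasurable 1
      (ae_unit.mono fun x hx => ?_)
    rw [norm_smul, norm_eq_sqrt_real_inner x, hx, Real.sqrt_one, mul_one]
    exact h1 x

theorem normSq_mom : Integrable (fun z => z.re * corr u z) (sph Hq) ∧
    ‖mom u‖ ^ 2 = ∫ z, z.re * corr u z ∂sph Hq := by
  have hre : Measurable fun z : Hq => z.re := Quaternion.continuous_re.measurable
  have hint : Integrable (Function.uncurry fun x z : Hq => z.re * (u x * u (x * z)))
      ((sph Hq).prod (sph Hq)) := by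
    refine Integrable.of_bound ((hre.comp measurable_snd).mul ((hu.comp measurable_fst).mul
      (hu.comp (continuous_fst.mul continuous_snd).measurable))).aestronglyMeasurable 1 ?_
    filter_upwards [Measure.quasiMeasurePreserving_snd.ae ae_unit] with p hp
    show |p.2.re * (u p.1 * u (p.1 * p.2))| ≤ 1
    rw [abs_mul, abs_mul, ← inner_one]
    exact mul_le_one₀ (abs_inner_le one_unit hp) (by positivity)
      (mul_le_one₀ (h1 _) (abs_nonneg _) (h1 _))
  refine ⟨by simpa only [corr, ← integral_const_mul, Function.uncurry_apply_pair]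
    using hint.integral_prod_right, ?_⟩
  rw [← real_inner_self_eq_norm_sq, inner_mom hu h1]
  simp only [corr, ← integral_const_mul]
  rw [← integral_integral_swap hint]
  refine integral_congr_ae (ae_unit.mono fun x hx => ?_)
  dsimp only
  rw [real_inner_comm, inner_mom hu h1, ← integral_mp (mp_left hx) (f := fun y => u y * ⟪x, y⟫)
    (hu.mul (continuous_const.inner continuous_id).measurable), ← integral_const_mul]
  refine integral_congr_ae (Eventually.of_forall fun z => ?_)
  simp only [inner_self_mul hx]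
  ring

theorem corr_sub {c : E3} (hc : ⟪c, c⟫ = 1) {Bd : Set Hq} (hB : MeasurableSet Bd)
    (hg : ∀ᵐ x ∂sph Hq, x ∉ Bd → ∃ t0, Good u x c t0) (τ : ℝ) :
    |2 * Real.pi * corr u (ex c τ) - (∫ t in (0 : ℝ)..2 * Real.pi, Real.sign (Real.sin t) *
      Real.sign (Real.sin (t + τ))) * (sph Hq).real univ| ≤ 4 * Real.pi * (sph Hq).real Bd := by
  obtain ⟨hi, he⟩ := avg_line (f := fun x => u x * u (x * ex c τ))
    (hu.mul (hu.comp (continuous_id.mul continuous_const).measurable)) (C := 1)
    (fun x _ => by rw [abs_mul]; exact mul_le_one₀ (h1 _) (abs_nonneg _) (h1 _)) hc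
  set κ := ∫ t in (0 : ℝ)..2 * Real.pi, Real.sign (Real.sin t) * Real.sign (Real.sin (t + τ))
    with hκ
  have hb : ∀ f g : ℝ → ℝ, (∀ t, |f t| ≤ 1) → (∀ t, |g t| ≤ 1) →
      |∫ t in (0 : ℝ)..2 * Real.pi, f t * g t| ≤ 2 * Real.pi := fun f g hf hg => by
    have := intervalIntegral.norm_integral_le_of_norm_le_const (a := 0) (b := 2 * Real.pi)
      (f := fun t => f t * g t) (C := 1) fun t _ => by
        rw [Real.norm_eq_abs, abs_mul]; exact mul_le_one₀ (hf _) (abs_nonneg _) (hg _)
    rwa [one_mul, sub_zero, abs_of_pos Real.two_pi_pos] at this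
  rw [corr, he, mul_comm κ, ← smul_eq_mul _ κ, ← integral_const, ← integral_sub hi
    (integrable_const _), mul_comm (4 * Real.pi), ← smul_eq_mul _ (4 * Real.pi),
    ← integral_indicator_const _ hB, ← Real.norm_eq_abs]
  refine norm_integral_le_of_norm_le ((integrable_const _).indicator hB) ?_
  filter_upwards [hg] with x hx
  by_cases hxB : x ∈ Bd
  · rw [indicator_of_mem hxB, Real.norm_eq_abs]
    refine (abs_sub _ _).trans ?_
    have a := hb (fun t => u (x * ex c t)) (fun t => u (x * ex c t * ex c τ)) (fun _ => h1 _)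
      fun _ => h1 _
    have b := hb (fun t => Real.sign (Real.sin t)) (fun t => Real.sign (Real.sin (t + τ)))
      (fun _ => abs_sgn_le _) fun _ => abs_sgn_le _
    linarith
  · obtain ⟨t0, ht⟩ := hx hxB
    have hper : Function.Periodic (fun t => Real.sign (Real.sin t) * Real.sign (Real.sin (t + τ)))
        (2 * Real.pi) := fun t => by
      simp only [add_right_comm t _ τ, Real.sin_add_two_pi]
    have e := hper.intervalIntegral_add_eq (0 - t0) 0
    rw [zero_add, ← hκ, show 0 - t0 + 2 * Real.pi = 2 * Real.pi - t0 by ring,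
      ← intervalIntegral.integral_comp_sub_right (fun t => Real.sign (Real.sin t) *
        Real.sign (Real.sin (t + τ))) t0] at e
    simp only [mul_assoc x, ex_mul hc, ht _, indicator_of_notMem hxB, add_sub_right_comm, e,
      sub_self, norm_zero, le_refl]

end

/-- The first moment of a half-space. -/
noncomputable def hc : ℝ := ∫ x, |x.re| ∂sph Hq

theorem integrable_abs_inner {e : Hq} (he : ⟪e, e⟫ = 1) :
    Integrable (fun x => |⟪e, x⟫|) (sph Hq) :=
  Integrable.of_bound (Continuous.aestronglyMeasurable (by fun_prop)) 1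
    (ae_unit.mono fun x hx => by simpa using abs_inner_le he hx)

theorem integral_abs_inner {e : Hq} (he : ⟪e, e⟫ = 1) : ∫ x, |⟪e, x⟫| ∂sph Hq = hc := by
  rw [← integral_mp (mp_left he) (Continuous.measurable (by fun_prop))]
  simp only [inner_self_mul he, hc]

theorem ae_re : ∀ᵐ x ∂sph Hq, x.re ≠ 0 ∧ ⟪x, x⟫ = 1 := by
  have : (ℝ ∙ (1 : Hq))ᗮ ≠ ⊤ := by simp
  filter_upwards [ae_notMem _ this] with x hx
  exact ⟨fun h => hx.1 (Submodule.mem_orthogonal_singleton_iff_inner_right.2
    (by rw [inner_one, h])), hx.2⟩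

theorem hc_pos : 0 < hc := by
  have hi := integrable_abs_inner one_unit
  simp only [inner_one] at hi
  rw [hc, integral_pos_iff_support_of_nonneg (fun x => abs_nonneg _) hi, pos_iff_ne_zero]
  intro h
  refine sph_univ_ne (F := Hq) (measure_eq_zero_iff_ae_notMem.2 ?_)
  filter_upwards [measure_eq_zero_iff_ae_notMem.1 h, ae_re] with x hx hx'
  exact absurd (abs_ne_zero.2 hx'.1) hx

theorem moment {u : Hq → ℝ} (hu : Measurable u) (h1 : ∀ x, |u x| ≤ 1) {T : Set (E3 × E3)}
    (hT : MeasurableSet T) (hg : ∀ x c, ⟪x, x⟫ = 1 → ⟪c, c⟫ = 1 → (c, rq x c) ∉ T →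
      ∃ t0, Good u x c t0) :
    ∃ e : Hq, ⟪e, e⟫ = 1 ∧ ENNReal.ofReal (hc * ∫ x, (|⟪e, x⟫| - u x * ⟪e, x⟫) ∂sph Hq) ≤
      2 * ∫⁻ z, sph Hq {x | (dir (imv z), rq x (dir (imv z))) ∈ T} ∂sph Hq := by
  let w : Hq → ℝ := fun x => Real.sign x.re
  have hw : Measurable w := measurable_sgn.comp Quaternion.continuous_re.measurable
  have hw1 : ∀ x, |w x| ≤ 1 := fun x => abs_sgn_le _
  have hwg : ∀ c : E3, ∀ᵐ x ∂sph Hq, x ∉ (∅ : Set Hq) → ∃ t0, Good w x c t0 := fun c => by
    filter_upwards [ae_re] with x hx _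
    obtain ⟨θ, hθ⟩ := polar ⟪x, 1⟫ ⟪x * pu c, 1⟫
    refine ⟨θ, fun t => ?_⟩
    have : ⟪x, 1⟫ ≠ 0 := by rw [real_inner_comm, inner_one]; exact hx.1
    simp only [w]
    rw [← inner_one, real_inner_comm, inner_mul_ex, hθ,
      sgn_pos_mul (Real.sqrt_pos.2 (by positivity))]
  have hd : Measurable fun z : Hq => dir (imv z) := measurable_dir.comp continuous_imv.measurable
  have hTm : MeasurableSet {p : Hq × Hq | (dir (imv p.1), rq p.2 (dir (imv p.1))) ∈ T} :=
    ((hd.comp measurable_fst).prodMk ((continuous_rq continuous_fst continuous_snd).measurable.comp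
      (measurable_snd.prodMk (hd.comp measurable_fst)))) hT
  let β : Hq → ℝ≥0∞ := fun z => sph Hq {x | (dir (imv z), rq x (dir (imv z))) ∈ T}
  have hβ : Measurable β := measurable_measure_prodMk_left hTm
  have hβi : Integrable (fun z => (β z).toReal) (sph Hq) :=
    Integrable.of_bound hβ.ennreal_toReal.aestronglyMeasurable ((sph Hq).real univ)
      (Eventually.of_forall fun z => by
        rw [Real.norm_of_nonneg ENNReal.toReal_nonneg]
        exact measureReal_mono (subset_univ _))
  obtain ⟨iu, eu⟩ := normSq_mom hu h1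
  obtain ⟨iw, ew⟩ := normSq_mom hw hw1
  have key : ‖mom w‖ ^ 2 - ‖mom u‖ ^ 2 ≤ 2 * ∫ z, (β z).toReal ∂sph Hq := by
    rw [eu, ew, ← integral_sub iw iu, ← integral_const_mul]
    refine integral_mono_ae (iw.sub iu) (hβi.const_mul _) ?_
    filter_upwards [ae_imv] with z hz
    obtain ⟨τ, hτ⟩ := exists_polar hz.2 hz.1
    have hcu := inner_dir hz.1
    have a := corr_sub hu h1 hcu (measurable_prodMk_left (x := z) hTm)
      (ae_unit.mono fun x hx hxT => hg x _ hx hcu hxT) τ
    have b := corr_sub hw hw1 hcu MeasurableSet.empty (hwg _) τ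
    rw [← hτ] at a b
    rw [measureReal_empty, mul_zero, abs_nonpos_iff, sub_eq_zero] at b
    rw [← b, ← mul_sub, abs_mul, abs_of_pos Real.two_pi_pos, abs_sub_comm] at a
    have a' : |corr w z - corr u z| ≤ 2 * (β z).toReal :=
      le_of_mul_le_mul_left (a.trans_eq (by rw [measureReal_def]; ring_nf; rfl)) Real.two_pi_pos
    rw [← mul_sub]
    refine (le_abs_self _).trans ?_
    rw [abs_mul, ← inner_one]
    exact (mul_le_of_le_one_left (abs_nonneg _) (abs_inner_le one_unit hz.2)).trans a'
  have hmw : hc ≤ ‖mom w‖ := by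
    have := real_inner_le_norm (1 : Hq) (mom w)
    rw [norm_one, one_mul, inner_mom hw hw1] at this
    simpa only [inner_one, w, sgn_mul_self, hc] using this
  obtain ⟨e, he, hem⟩ : ∃ e : Hq, ⟪e, e⟫ = 1 ∧ ⟪e, mom u⟫ = ‖mom u‖ := by
    by_cases h0 : mom u = 0
    · exact ⟨1, one_unit, by simp [h0]⟩
    · refine ⟨dir (mom u), inner_dir h0, ?_⟩
      rw [dir, real_inner_smul_left, real_inner_self_eq_norm_sq, sq,
        inv_mul_cancel_left₀ (norm_ne_zero_iff.2 h0)]
  have hui : Integrable (fun x => u x * ⟪e, x⟫) (sph Hq) :=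
    (integrable_abs_inner he).mono' (hu.mul (continuous_const.inner continuous_id).measurable
      ).aestronglyMeasurable (Eventually.of_forall fun x => by
        rw [Real.norm_eq_abs, abs_mul]; exact mul_le_of_le_one_left (abs_nonneg _) (h1 x))
  have hle : ‖mom u‖ ≤ hc := by
    rw [← hem, inner_mom hu h1, ← integral_abs_inner he]
    refine integral_mono hui (integrable_abs_inner he) fun x => (le_abs_self _).trans ?_
    rw [abs_mul]; exact mul_le_of_le_one_left (abs_nonneg _) (h1 x)
  refine ⟨e, he, ?_⟩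
  rw [integral_sub (integrable_abs_inner he) hui, integral_abs_inner he, ← inner_mom hu h1, hem]
  calc ENNReal.ofReal (hc * (hc - ‖mom u‖))
      ≤ ENNReal.ofReal (2 * ∫ z, (β z).toReal ∂sph Hq) := by
        refine ENNReal.ofReal_le_ofReal (le_trans ?_ key)
        nlinarith [norm_nonneg (mom u), hc_pos]
    _ = _ := by
        rw [ENNReal.ofReal_mul zero_le_two, ENNReal.ofReal_ofNat,
          ofReal_integral_eq_lintegral_ofReal hβi
            (Eventually.of_forall fun _ => ENNReal.toReal_nonneg)]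
        simp only [β, ENNReal.ofReal_toReal (measure_ne_top _ _)]

theorem fibre_integral (A B t0 : ℝ) : 2 * (√(A ^ 2 + B ^ 2) - B) ≤
    ∫ t in (0 : ℝ)..2 * Real.pi, (|A * Real.cos (t - t0) + B * Real.sin (t - t0)| -
      Real.sign (Real.sin (t - t0)) * (A * Real.cos (t - t0) + B * Real.sin (t - t0))) := by
  set l : ℝ → ℝ := fun s => A * Real.cos s + B * Real.sin s with hl
  have hlc : Continuous l := by fun_prop
  let φ : ℝ → ℝ := fun s => |l s| - Real.sign (Real.sin s) * l s
  have hper : Function.Periodic φ (2 * Real.pi) := fun s => by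
    simp only [φ, hl, Real.sin_add_two_pi, Real.cos_add_two_pi]
  have hb : ∀ s, |Real.sign (Real.sin s) * l s| ≤ |l s| := fun s => by
    rw [abs_mul]; exact mul_le_of_le_one_left (abs_nonneg _) (abs_sgn_le _)
  have hi : IntervalIntegrable φ volume 0 (2 * Real.pi) :=
    (hlc.abs.intervalIntegrable _ _).sub ((hlc.abs.intervalIntegrable _ _).mono_fun'
      ((measurable_sgn.comp Real.measurable_sin).mul hlc.measurable).aestronglyMeasurable
      (Eventually.of_forall hb))
  have e := hper.intervalIntegral_add_eq (0 - t0) 0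
  rw [zero_add, show 0 - t0 + 2 * Real.pi = 2 * Real.pi - t0 by ring,
    ← intervalIntegral.integral_comp_sub_right φ t0] at e
  refine le_trans ?_ e.ge
  refine le_trans ?_ (intervalIntegral.integral_mono_interval le_rfl Real.pi_pos.le
    (by linarith [Real.pi_pos]) (Eventually.of_forall fun s =>
      sub_nonneg.2 ((le_abs_self _).trans (hb s))) hi)
  rw [intervalIntegral.integral_congr_Ioo_of_le Real.pi_pos.le (g := fun s => |l s| - l s)
    fun s hs => by
      simp only [φ, Real.sign_of_pos (Real.sin_pos_of_pos_of_lt_pi hs.1 hs.2), one_mul],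
    intervalIntegral.integral_sub (hlc.abs.intervalIntegrable _ _) (hlc.intervalIntegrable _ _)]
  have e1 : ∫ s in (0 : ℝ)..Real.pi, l s = 2 * B := by
    rw [hl, intervalIntegral.integral_add (Continuous.intervalIntegrable (by fun_prop) _ _)
      (Continuous.intervalIntegrable (by fun_prop) _ _)]
    simp; ring
  have e2 : ∫ s in (0 : ℝ)..Real.pi, |l s| = 2 * √(A ^ 2 + B ^ 2) := by
    obtain ⟨θ, hθ⟩ := polar A B
    have hp : Function.Periodic (fun s => |Real.sin s|) Real.pi := fun s => by simp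
    have e3 := hp.intervalIntegral_add_eq (0 - θ) 0
    rw [zero_add, show 0 - θ + Real.pi = Real.pi - θ by ring,
      ← intervalIntegral.integral_comp_sub_right (fun s => |Real.sin s|) θ,
      intervalIntegral.integral_congr_Ioo_of_le (f := fun s => |Real.sin s|) Real.pi_pos.le
        (g := Real.sin) fun s hs => abs_of_pos (Real.sin_pos_of_pos_of_lt_pi hs.1 hs.2)] at e3
    simp only [hl, hθ, abs_mul, abs_of_nonneg (Real.sqrt_nonneg _),
      intervalIntegral.integral_const_mul, e3]
    simp; ring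
  rw [e1, e2]
  linarith

end Pool.Agent.Lib.MP_396e7f_gt.St
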