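import Pool.Agent.Lib.MP_396e7f_gt.Parallel

/-! Unit quaternions and frames. -/

open Set Filter Metric MeasureTheory
open scoped RealInnerProductSpace Topology

namespace Pool.Agent.Lib.MP_396e7f_gt.St

/-- Real quaternions. -/
abbrev Hq : Type := Quaternion ℝ

theorem inner4 (x y : Hq) :
    ⟪x, y⟫ = x.re * y.re + x.imI * y.imI + x.imJ * y.imJ + x.imK * y.imK := by
  rw [Quaternion.inner_def]; simp

/-- A vector as a pure quaternion. -/
def pu (c : E3) : Hq := ⟨0, c 0, c 1, c 2⟩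

/-- The imaginary part as a vector. -/
noncomputable def imv (q : Hq) : E3 := vec q.imI q.imJ q.imK

/-- The rotation given by a quaternion. -/
noncomputable def rq (q : Hq) (c : E3) : E3 := imv (q * pu c * star q)

/-- One-parameter subgroup with axis `c`. -/
noncomputable def ex (c : E3) (t : ℝ) : Hq :=
  ⟨Real.cos t, Real.sin t * c 0, Real.sin t * c 1, Real.sin t * c 2⟩

/-- The frame of a quaternion, as a point of the sphere bundle. -/
noncomputable def fq (r : ℝ) (x : Hq) : E3 × E3 := (rq x (vec 1 0 0), r • rq x (vec 0 1 0))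

/-- Direction of a vector. -/
noncomputable def dir {F : Type} [NormedAddCommGroup F] [NormedSpace ℝ F] (x : F) : F := ‖x‖⁻¹ • x

theorem rq0 (q : Hq) (c : E3) : rq q c 0 = (q.re ^ 2 + q.imI ^ 2 - q.imJ ^ 2 - q.imK ^ 2) * c 0 +
    2 * (q.imI * q.imJ - q.re * q.imK) * c 1 + 2 * (q.imI * q.imK + q.re * q.imJ) * c 2 := by
  simp [rq, imv, pu]; ring

theorem rq1 (q : Hq) (c : E3) : rq q c 1 = 2 * (q.imI * q.imJ + q.re * q.imK) * c 0 +
    (q.re ^ 2 - q.imI ^ 2 + q.imJ ^ 2 - q.imK ^ 2) * c 1 +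
    2 * (q.imJ * q.imK - q.re * q.imI) * c 2 := by
  simp [rq, imv, pu]; ring

theorem rq2 (q : Hq) (c : E3) : rq q c 2 = 2 * (q.imI * q.imK - q.re * q.imJ) * c 0 +
    2 * (q.imJ * q.imK + q.re * q.imI) * c 1 +
    (q.re ^ 2 - q.imI ^ 2 - q.imJ ^ 2 + q.imK ^ 2) * c 2 := by
  simp [rq, imv, pu]; ring

theorem rq_mul (x y : Hq) (c : E3) : rq (x * y) c = rq x (rq y c) := by
  apply ext3 <;> simp [rq0, rq1, rq2] <;> ring

theorem rq_neg (x : Hq) (c : E3) : rq (-x) c = rq x c := by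
  apply ext3 <;> simp [rq0, rq1, rq2]

theorem rq_smul (x : Hq) (t : ℝ) (c : E3) : rq x (t • c) = t • rq x c := by
  apply ext3 <;> simp [rq0, rq1, rq2] <;> ring

theorem rq_add (x : Hq) (c d : E3) : rq x (c + d) = rq x c + rq x d := by
  apply ext3 <;> simp [rq0, rq1, rq2] <;> ring

theorem rq_inner' (x : Hq) (c d : E3) : ⟪rq x c, rq x d⟫ = ⟪x, x⟫ ^ 2 * ⟪c, d⟫ := by
  simp only [inner3, inner4, rq0, rq1, rq2]; ring

theorem rq_inner {x : Hq} (hx : ⟪x, x⟫ = 1) (c d : E3) : ⟪rq x c, rq x d⟫ = ⟪c, d⟫ := by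
  rw [rq_inner', hx]; ring

theorem rq_cross (x : Hq) (c d : E3) :
    cross (rq x c) (rq x d) = ⟪x, x⟫ • rq x (cross c d) := by
  apply ext3 <;> simp only [inner4, cross0, cross1, cross2, rq0, rq1, rq2, PiLp.smul_apply,
    smul_eq_mul] <;> ring

theorem fr_rq {x : Hq} (hx : ⟪x, x⟫ = 1) (c : E3) :
    fr (rq x (vec 1 0 0)) (rq x (vec 0 1 0)) c = rq x c := by
  rw [fr, rq_cross, hx, one_smul, ← rq_smul, ← rq_smul, ← rq_smul, ← rq_add, ← rq_add]
  congr 1
  apply ext3 <;> simp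

theorem fr_fq {r : ℝ} (hr : 0 < r) {x : Hq} (hx : ⟪x, x⟫ = 1) (c : E3) :
    fr (fq r x).1 (r⁻¹ • (fq r x).2) c = rq x c := by
  simp only [fq, smul_smul, inv_mul_cancel₀ hr.ne', one_smul, fr_rq hx]

theorem Fr_rq {x : Hq} (hx : ⟪x, x⟫ = 1) : Fr (rq x (vec 1 0 0)) (rq x (vec 0 1 0)) := by
  simpa only [Fr, rq_inner hx] using fr_vec

theorem fq_mem {r : ℝ} (hr : 0 < r) {x : Hq} (hx : ⟪x, x⟫ = 1) : fq r x ∈ sphereBundle r := by
  rw [mem_bundle_iff hr]
  simpa only [fq, smul_smul, inv_mul_cancel₀ hr.ne', one_smul] using Fr_rq hx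

theorem fq_neg (r : ℝ) (x : Hq) : fq r (-x) = fq r x := by simp only [fq, rq_neg]

theorem continuous_imv : Continuous imv :=
  continuous_vec Quaternion.continuous_imI Quaternion.continuous_imJ Quaternion.continuous_imK

/-- A quaternion given by its coordinates. -/
def mq (a b c d : ℝ) : Hq := ⟨a, b, c, d⟩

theorem continuous_mq {X : Type} [TopologicalSpace X] {a b c d : X → ℝ} (ha : Continuous a)
    (hb : Continuous b) (hc : Continuous c) (hd : Continuous d) :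
    Continuous fun p => mq (a p) (b p) (c p) (d p) := by
  have : (fun p => mq (a p) (b p) (c p) (d p)) = fun p => a p • mq 1 0 0 0 +
      b p • mq 0 1 0 0 + c p • mq 0 0 1 0 + d p • mq 0 0 0 1 := by
    funext p; ext <;> simp [mq]
  rw [this]; fun_prop

theorem continuous_pu : Continuous pu :=
  continuous_mq (a := fun _ => 0) (b := fun c : E3 => c 0) (c := fun c => c 1) (d := fun c => c 2)
    continuous_const (by fun_prop) (by fun_prop) (by fun_prop)

@[fun_prop]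
theorem continuous_rq {X : Type} [TopologicalSpace X] {q : X → Hq} {c : X → E3}
    (hq : Continuous q) (hc : Continuous c) : Continuous fun p => rq (q p) (c p) :=
  continuous_imv.comp ((hq.mul (continuous_pu.comp hc)).mul hq.star)

@[fun_prop]
theorem continuous_ex {X : Type} [TopologicalSpace X] {c : X → E3} {t : X → ℝ}
    (hc : Continuous c) (ht : Continuous t) : Continuous fun p => ex (c p) (t p) :=
  continuous_mq (a := fun p => Real.cos (t p)) (b := fun p => Real.sin (t p) * c p 0)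
    (c := fun p => Real.sin (t p) * c p 1) (d := fun p => Real.sin (t p) * c p 2)
    (by fun_prop) (by fun_prop) (by fun_prop) (by fun_prop)

theorem continuous_fq (r : ℝ) : Continuous (fq r) := by unfold fq; fun_prop

theorem rq_pu {m : E3} (hm : ⟪m, m⟫ = 1) (c : E3) : rq (pu m) c = half m c := by
  rw [inner3] at hm
  apply ext3
  · simp only [rq0, pu, half, inner3, PiLp.sub_apply, PiLp.smul_apply, smul_eq_mul]
    linear_combination (-c 0) * hm
  · simp only [rq1, pu, half, inner3, PiLp.sub_apply, PiLp.smul_apply, smul_eq_mul]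
    linear_combination (-c 1) * hm
  · simp only [rq2, pu, half, inner3, PiLp.sub_apply, PiLp.smul_apply, smul_eq_mul]
    linear_combination (-c 2) * hm

theorem inner_pu (c d : E3) : ⟪pu c, pu d⟫ = ⟪c, d⟫ := by simp [inner4, inner3, pu]

theorem inner_mul_left (x a b : Hq) : ⟪x * a, x * b⟫ = ⟪x, x⟫ * ⟪a, b⟫ := by
  simp only [inner4]; simp; ring

theorem inner_mul_right (x a b : Hq) : ⟪a * x, b * x⟫ = ⟪x, x⟫ * ⟪a, b⟫ := by
  simp only [inner4]; simp; ring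

theorem unit_mul {x y : Hq} (hx : ⟪x, x⟫ = 1) (hy : ⟪y, y⟫ = 1) : ⟪x * y, x * y⟫ = 1 := by
  rw [inner_mul_left, hx, hy, one_mul]

theorem inner_self_mul {x : Hq} (hx : ⟪x, x⟫ = 1) (z : Hq) : ⟪x, x * z⟫ = z.re := by
  have : ⟪x, x * z⟫ = ⟪x, x⟫ * z.re := by simp only [inner4]; simp; ring
  rw [this, hx, one_mul]

theorem ex_mul {c : E3} (hc : ⟪c, c⟫ = 1) (s t : ℝ) : ex c s * ex c t = ex c (s + t) := by
  rw [inner3] at hc
  ext <;> simp [ex, Real.cos_add, Real.sin_add]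
  · linear_combination (-Real.sin s * Real.sin t) * hc
  all_goals ring

theorem inner_ex {c : E3} (hc : ⟪c, c⟫ = 1) (s t : ℝ) : ⟪ex c s, ex c t⟫ = Real.cos (s - t) := by
  rw [inner3] at hc
  simp only [inner4, ex, Real.cos_sub]
  linear_combination (Real.sin s * Real.sin t) * hc

theorem ex_unit {c : E3} (hc : ⟪c, c⟫ = 1) (t : ℝ) : ⟪ex c t, ex c t⟫ = 1 := by
  rw [inner_ex hc, sub_self, Real.cos_zero]

theorem ex_zero (c : E3) : ex c 0 = 1 := by ext <;> simp [ex] <;> rfl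

theorem ex_add_pi (c : E3) (t : ℝ) : ex c (t + Real.pi) = -ex c t := by ext <;> simp [ex]

theorem rq_ex {c : E3} (hc : ⟪c, c⟫ = 1) (t : ℝ) : rq (ex c t) c = c := by
  rw [inner3] at hc
  have h := Real.sin_sq_add_cos_sq t
  apply ext3
  · simp only [rq0, ex]; linear_combination (Real.sin t ^ 2 * c 0) * hc + c 0 * h
  · simp only [rq1, ex]; linear_combination (Real.sin t ^ 2 * c 1) * hc + c 1 * h
  · simp only [rq2, ex]; linear_combination (Real.sin t ^ 2 * c 2) * hc + c 2 * h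

theorem inner_mul_ex (q e : Hq) (c : E3) (t : ℝ) :
    ⟪q * ex c t, e⟫ = ⟪q, e⟫ * Real.cos t + ⟪q * pu c, e⟫ * Real.sin t := by
  simp only [inner4, ex, pu]; simp; ring

theorem rq_ex_fibre (x : Hq) (hx : ⟪x, x⟫ = 1) (t : ℝ) : rq (x * ex (vec 1 0 0) t) (vec 0 1 0) =
    rot (rq x (vec 1 0 0)) (2 * t) (rq x (vec 0 1 0)) := by
  rw [rq_mul, rot, rq_cross, hx, (Fr_rq hx).2.1, mul_zero, zero_smul, add_zero, one_smul,
    ← rq_smul, ← rq_smul, ← rq_add, Real.cos_two_mul', Real.sin_two_mul]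
  congr 1
  apply ext3 <;> simp [rq0, rq1, rq2, ex]
  ring

theorem inner_sq_of_fq {r : ℝ} (hr : 0 < r) {x y : Hq} (hx : ⟪x, x⟫ = 1) (hy : ⟪y, y⟫ = 1)
    (h : fq r x = fq r y) : ⟪x, y⟫ ^ 2 = 1 := by
  have key : 4 * ⟪x, y⟫ ^ 2 = ⟪x, x⟫ * ⟪y, y⟫ + ⟪rq x (vec 1 0 0), rq y (vec 1 0 0)⟫ +
      ⟪rq x (vec 0 1 0), rq y (vec 0 1 0)⟫ + ⟪rq x (vec 0 0 1), rq y (vec 0 0 1)⟫ := by
    simp only [inner3, inner4, rq0, rq1, rq2, vec0, vec1, vec2]; ring
  have e : ∀ c, rq x c = rq y c := fun c => by rw [← fr_fq hr hx, h, fr_fq hr hy]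
  rw [e, e, e, rq_inner hy, rq_inner hy, rq_inner hy, hx, hy, inner3, inner3, inner3] at key
  simp only [vec0, vec1, vec2] at key
  linarith

theorem exists_fq {r : ℝ} (hr : 0 < r) {z : E3 × E3} (hz : z ∈ sphereBundle r) :
    ∃ q : Hq, ⟪q, q⟫ = 1 ∧ fq r q = z := by
  have hf := (mem_bundle_iff hr).1 hz
  obtain ⟨m, hm, e⟩ := exists_half (p := vec 1 0 0) (y := -z.1) fr_vec.1 (by simpa using hf.1)
  obtain ⟨m', hm', e1, e2⟩ := exists_half_of_neg (fr_vec.half hm) hf (c := vec 1 0 0)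
    (fun h => by simpa using congrArg (fun w : E3 => w 0) h) (by rw [fr_e0, fr_e0, e, neg_neg])
  refine ⟨pu m' * pu m, unit_mul (by rw [inner_pu, hm']) (by rw [inner_pu, hm]), ?_⟩
  simp only [fq, rq_mul, rq_pu hm, rq_pu hm', ← e1, ← e2, smul_smul, mul_inv_cancel₀ hr.ne',
    one_smul]

theorem inner_dir {F : Type} [NormedAddCommGroup F] [InnerProductSpace ℝ F] {p : F} (h : p ≠ 0) :
    ⟪dir p, dir p⟫ = 1 := by
  have : ‖dir p‖ = 1 := norm_smul_inv_norm (𝕜 := ℝ) h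
  rw [real_inner_self_eq_norm_sq, this, one_pow]

theorem exists_polar {z : Hq} (hz : ⟪z, z⟫ = 1) (h : imv z ≠ 0) :
    ∃ τ, z = ex (dir (imv z)) τ := by
  have hn : ‖imv z‖ ^ 2 = 1 - z.re ^ 2 := by
    rw [← real_inner_self_eq_norm_sq, inner3]
    rw [inner4] at hz
    simp only [imv, vec0, vec1, vec2]
    linear_combination hz
  have h0 : 0 < ‖imv z‖ := norm_pos_iff.2 h
  have h1 : z.re ^ 2 ≤ 1 := by nlinarith
  have h2 := abs_le.1 ((sq_le_one_iff_abs_le_one _).1 h1)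
  have hs : Real.sin (Real.arccos z.re) = ‖imv z‖ := by
    rw [Real.sin_arccos, ← hn, Real.sqrt_sq h0.le]
  refine ⟨Real.arccos z.re, ?_⟩
  ext <;> simp only [ex, hs, dir, PiLp.smul_apply, smul_eq_mul, ← mul_assoc,
    mul_inv_cancel₀ h0.ne', one_mul]
  · exact (Real.cos_arccos h2.1 h2.2).symm
  all_goals rfl

/-- Distance to the parallel field in terms of the quaternions. -/
theorem weight_le {q e : Hq} (hq : ⟪q, q⟫ = 1) (he : ⟪e, e⟫ = 1) :
    ‖rq e (vec 1 0 0) + rq q (vec 1 0 0)‖ * ‖rq q (vec 0 1 0) -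
      parallelField (rq e (vec 1 0 0)) (-rq e (vec 0 1 0)) (rq q (vec 1 0 0))‖ ^ 2 ≤
    16 * (√(⟪q, e⟫ ^ 2 + ⟪q * pu (vec 1 0 0), e⟫ ^ 2) - ⟪q * pu (vec 1 0 0), e⟫) := by
  obtain ⟨z, hz, rfl⟩ : ∃ z, ⟪z, z⟫ = 1 ∧ q = e * z := by
    refine ⟨star e * q, unit_mul (by rw [← he]; simp) hq, ?_⟩
    rw [← mul_assoc, Quaternion.self_mul_star, ← Quaternion.inner_self, he]; simp
  have hn : ∀ c, ‖rq e c‖ = ‖c‖ := fun c => by
    rw [norm_eq_sqrt_real_inner, rq_inner he, ← norm_eq_sqrt_real_inner]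
  have e1 : ⟪e * z, e⟫ = z.re := by rw [real_inner_comm, inner_self_mul he]
  have e2 : ⟪e * z * pu (vec 1 0 0), e⟫ = -z.imI := by
    rw [real_inner_comm, mul_assoc, inner_self_mul he]; simp [pu]
  have e3 : rq (e * z) (vec 0 1 0) - parallelField (rq e (vec 1 0 0)) (-rq e (vec 0 1 0))
      (rq (e * z) (vec 1 0 0)) = rq e (rq z (vec 0 1 0) + (vec 0 1 0 +
        (-rq z (vec 1 0 0) 1 / (1 + rq z (vec 1 0 0) 0)) • (vec 1 0 0 + rq z (vec 1 0 0)))) := by
    rw [parallelField, rq_mul, rq_mul, inner_neg_right, rq_inner he, rq_inner he, rq_add, rq_add,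
      rq_smul, rq_add, inner3, inner3]
    simp only [vec0, vec1, vec2, mul_zero, mul_one, add_zero, zero_add]
    abel
  rw [e1, e2, e3, rq_mul, ← rq_add, hn, hn, neg_sq]
  rw [inner4] at hz
  set ρ := √(z.re ^ 2 + z.imI ^ 2) with hρ
  have hρ0 : 0 ≤ ρ := Real.sqrt_nonneg _
  have hρ2 : ρ ^ 2 = z.re ^ 2 + z.imI ^ 2 := Real.sq_sqrt (by positivity)
  have a1 : ‖vec 1 0 0 + rq z (vec 1 0 0)‖ = 2 * ρ := by
    rw [← sq_eq_sq₀ (norm_nonneg _) (by positivity), ← real_inner_self_eq_norm_sq, inner3, mul_pow,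
      hρ2]
    simp only [PiLp.add_apply, rq0, rq1, rq2, vec0, vec1, vec2]
    linear_combination (z.re * z.re + z.imI * z.imI + z.imJ * z.imJ + z.imK * z.imK - 1 + 4 * 0 +
      0) * hz + (0 : ℝ) * hz
  have hB : |z.imI| ≤ ρ := Real.abs_le_sqrt (by nlinarith [sq_nonneg z.re])
  rw [a1]
  rcases hρ0.eq_or_lt with h0 | h0
  · rw [← h0] at hB ⊢
    rw [abs_nonpos_iff.1 hB]; simp
  have a2 : 1 + rq z (vec 1 0 0) 0 = 2 * ρ ^ 2 := by
    rw [hρ2]; simp only [rq0, vec0, vec1, vec2]; linear_combination -hz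
  have a3 : ‖rq z (vec 0 1 0) + (vec 0 1 0 + (-rq z (vec 1 0 0) 1 / (1 + rq z (vec 1 0 0) 0)) •
      (vec 1 0 0 + rq z (vec 1 0 0)))‖ ^ 2 = 4 * z.re ^ 2 / ρ ^ 2 := by
    rw [a2, ← real_inner_self_eq_norm_sq, inner3, hρ2]
    have : z.re ^ 2 + z.imI ^ 2 ≠ 0 := by rw [← hρ2]; positivity
    simp only [PiLp.add_apply, PiLp.smul_apply, smul_eq_mul, rq0, rq1, rq2, vec0, vec1, vec2]
    field_simp
    grind
  rw [a3, show 2 * ρ * (4 * z.re ^ 2 / ρ ^ 2) = 8 * z.re ^ 2 / ρ by field_simp; ring,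
    div_le_iff₀ h0]
  have := abs_le.1 hB
  nlinarith [mul_nonneg (sub_nonneg.2 this.2) (neg_le_iff_add_nonneg.1 this.1),
    sq_nonneg (ρ + z.imI)]

end Pool.Agent.Lib.MP_396e7f_gt.St
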