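import Pool.Agent.Lib.MP_396e7f_gt.StMeas

/-! The odd sign function on the three-sphere attached to the closure of a vector field. -/

open Set Filter Metric MeasureTheory
open scoped RealInnerProductSpace Topology

namespace Pool.Agent.Lib.MP_396e7f_gt.St

/-- The double cover of local sides. -/
theorem exists_cover {B : Type} [TopologicalSpace B] {S : Set B} (hS : IsClosed S)
    (hloc : ∀ p ∈ S, ∃ O f, p ∈ O ∧ LocalSide S O f) :
    ∃ (Z : Type) (_ : TopologicalSpace Z) (pr : Z → B) (v : Z → ℤˣ), IsCoveringMap pr ∧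
      Function.Surjective pr ∧ (∀ a b, pr a = pr b → v a = v b → a = b) ∧
      ContinuousOn v (pr ⁻¹' Sᶜ) ∧ ∀ a, pr a ∈ S → ∀ N ∈ 𝓝 (pr a), ∀ g : B → ℝ,
        ContinuousOn g N → (∀ z ∈ N, z ∉ S → g z ≠ 0) → ∃ W ∈ 𝓝 a, ∀ b ∈ W, ∀ b' ∈ W,
          pr b ∉ S → pr b' ∉ S → v b = v b' → 0 < g (pr b) * g (pr b') := by
  classical
  have hloc' : ∀ p, ∃ O f, p ∈ O ∧ LocalSide S O f ∧ (p ∉ S → O = Sᶜ ∧ f = fun _ => 1) := by
    intro p
    by_cases hp : p ∈ S
    · obtain ⟨O, f, h1, h2⟩ := hloc p hp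
      exact ⟨O, f, h1, h2, fun h => absurd hp h⟩
    · exact ⟨Sᶜ, fun _ => 1, hp, localSide_compl hS, fun _ => ⟨rfl, rfl⟩⟩
  choose O f hmem hside hoff using hloc'
  have hσ : ∀ i j q, ∃ σ : ℤˣ, q ∈ O i → q ∈ O j →
      ∀ᶠ z in 𝓝 q, z ∉ S → 0 < ((σ : ℤ) : ℝ) * (f i z * f j z) := by
    intro i j q
    by_cases h : q ∈ O i ∧ q ∈ O j
    · obtain ⟨σ, hσ⟩ := (hside i).exists_unit (hside j) h.1 h.2
      exact ⟨σ, fun _ _ => hσ⟩
    · exact ⟨1, fun a b => absurd ⟨a, b⟩ h⟩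
  choose σ hσ using hσ
  have huniq : ∀ i j q (τ : ℤˣ), q ∈ O i → q ∈ O j →
      (∀ᶠ z in 𝓝 q, z ∉ S → 0 < ((τ : ℤ) : ℝ) * (f i z * f j z)) → σ i j q = τ := by
    intro i j q τ hi hj hτ
    obtain ⟨z, hz, h1, h2⟩ := (((hside i).frequently hi).and_eventually
      ((hσ i j q hi hj).and hτ)).exists
    exact unit_unique (h1 hz) (h2 hz)
  let Z : FiberBundleCore B B ℤˣ :=
    { baseSet := O
      isOpen_baseSet := fun i => (hside i).isOpen
      indexAt := id
      mem_baseSet_at := hmem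
      coordChange := fun i j q v => σ i j q * v
      coordChange_self := by
        intro i q hq v
        rw [huniq i i q 1 hq hq, one_mul]
        filter_upwards [(hside i).isOpen.mem_nhds hq] with z hz hzS
        have : f i z ≠ 0 := fun e => hzS (((hside i).zero z hz).2 e)
        simpa using mul_self_pos.2 this
      continuousOn_coordChange := by
        intro i j
        refine ContinuousOn.mul ?_ continuousOn_snd
        rintro ⟨q, v⟩ ⟨⟨hi, hj⟩, -⟩
        refine ContinuousAt.continuousWithinAt ?_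
        refine ContinuousAt.comp (f := Prod.fst) (g := σ i j) ?_ continuousAt_fst
        refine (continuousAt_const (y := σ i j q)).congr ?_
        filter_upwards [(hσ i j q hi hj).eventually_nhds, (hside i).isOpen.mem_nhds hi,
          (hside j).isOpen.mem_nhds hj] with z hz hzi hzj
        exact (huniq i j z _ hzi hzj hz).symm
      coordChange_comp := by
        rintro i j k q ⟨⟨hi, hj⟩, hk⟩ v
        rw [← mul_assoc, huniq i k q (σ j k q * σ i j q) hi hk]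
        filter_upwards [hσ i j q hi hj, hσ j k q hj hk, (hside j).isOpen.mem_nhds hj]
          with z h1 h2 hz hzS
        have hf : f j z ≠ 0 := fun e => hzS (((hside j).zero z hz).2 e)
        have := mul_pos (h1 hzS) (h2 hzS)
        have e : ((σ i j q : ℤ) : ℝ) * (f i z * f j z) * (((σ j k q : ℤ) : ℝ) * (f j z * f k z)) =
            (((σ j k q * σ i j q : ℤˣ) : ℤ) : ℝ) * (f i z * f k z) * (f j z * f j z) := by
          push_cast; ring
        rw [e] at this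
        exact (mul_pos_iff_of_pos_right (mul_self_pos.2 hf)).1 this }
  have cov : IsCoveringMap Z.proj :=
    IsFiberBundle.isCoveringMap (F := ℤˣ) fun x => ⟨Z.localTriv x, hmem x⟩
  let v : Z.TotalSpace → ℤˣ := fun a => a.2
  have hcont : ∀ i, ContinuousOn (fun a : Z.TotalSpace => σ a.1 i a.1 * v a) (Z.proj ⁻¹' O i) :=
    fun i => continuous_snd.comp_continuousOn ((Z.localTriv i).continuousOn.mono fun a ha => by
      rw [FiberBundleCore.mem_localTriv_source]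
      exact ha)
  refine ⟨Z.TotalSpace, inferInstance, Z.proj, v, cov, fun b => ⟨⟨b, (1 : ℤˣ)⟩, rfl⟩, ?_, ?_, ?_⟩
  · rintro ⟨x, a⟩ ⟨y, b⟩ e1 h2
    dsimp only [v] at h2
    obtain rfl : x = y := e1
    congr
  · intro a ha
    have hp0 := hoff a.1 ha
    have := hcont a.1
    rw [hp0.1] at this
    refine (this.congr fun b hb => ?_) a ha
    rw [huniq b.1 a.1 b.1 1 (hmem _) (by rw [hp0.1]; exact hb)
      (Eventually.of_forall fun z _ => by rw [(hoff b.1 hb).2, hp0.2]; simp), one_mul]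
  · intro a ha N hN g hg h0
    obtain ⟨N', hN', HN'⟩ := (hside a.1).same_sign (hmem _) ha hN hg h0
    have hO := cov.continuous.continuousAt.preimage_mem_nhds
      ((hside a.1).isOpen.mem_nhds (hmem a.1))
    have hc1 := (hcont a.1).continuousAt hO
    refine ⟨_, inter_mem (hc1.eventually (p := fun w => w = σ a.1 a.1 a.1 * v a)
      ((isOpen_discrete {σ a.1 a.1 a.1 * v a}).mem_nhds rfl))
      (inter_mem (cov.continuous.continuousAt.preimage_mem_nhds hN') hO), ?_⟩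
    rintro b ⟨a1, a2, a3⟩ b' ⟨b1, b2, b3⟩ hS1 hS2 hv
    have hσe : σ b.1 a.1 b.1 = σ b'.1 a.1 b'.1 := by
      have a1' : σ b.1 a.1 b.1 * v b = _ := a1
      have b1' : σ b'.1 a.1 b'.1 * v b' = _ := b1
      rw [← b1', hv] at a1'
      exact mul_right_cancel a1'
    have c1 := (hσ _ a.1 _ (hmem b.1) a3).self_of_nhds hS1
    have c2 := (hσ _ a.1 _ (hmem b'.1) b3).self_of_nhds hS2
    rw [(hoff _ hS1).2] at c1
    rw [(hoff _ hS2).2, ← hσe] at c2
    refine HN' _ a2 _ b2 ?_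
    have := mul_pos c1 c2
    rcases Int.units_eq_one_or (σ b.1 a.1 b.1) with e | e <;> rw [e] at this <;>
      simpa using this

/-- A local equation of the graph. -/
theorem local_eq {r : ℝ} (hr : 0 < r) {U : Set E3} {V : E3 → E3} (h : IsVectorField r U V)
    {z0 : sphereBundle r} (hx0 : z0.1.1 ∈ U) (hv0 : z0.1.2 = V z0.1.1) : ∃ N ∈ 𝓝 z0,
      ContinuousOn (fun z : sphereBundle r => ⟪z.1.2, cross z.1.1 (V z.1.1)⟫) N ∧
      ∀ z ∈ N, z ∉ (Subtype.val ⁻¹' graphClosure U V : Set (sphereBundle r)) →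
        ⟪z.1.2, cross z.1.1 (V z.1.1)⟫ ≠ 0 := by
  obtain ⟨O, hO, hUO⟩ := h.1
  let A : Set (sphereBundle r) := {z | z.1.1 ∈ O}
  have hA : IsOpen A := hO.preimage (by fun_prop)
  have hAU : ∀ z ∈ A, z.1.1 ∈ U := fun z hz => hUO ▸ ⟨by simpa using z.2.1, hz⟩
  have hVc : ContinuousOn (fun z : sphereBundle r => V z.1.1) A :=
    h.2.2.1.comp (by fun_prop) hAU
  let N : Set (sphereBundle r) := A ∩ (fun z => ⟪z.1.2, V z.1.1⟫) ⁻¹' Ioi 0
  have hN : IsOpen N := ContinuousOn.isOpen_inter_preimage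
    (ContinuousOn.inner (by fun_prop) hVc) hA isOpen_Ioi
  refine ⟨N, hN.mem_nhds ⟨(hUO ▸ hx0 : z0.1.1 ∈ sphere 0 1 ∩ O).2, ?_⟩,
    ContinuousOn.inner (by fun_prop)
      (continuousOn_cross (by fun_prop) (hVc.mono inter_subset_left)), ?_⟩
  · show 0 < ⟪z0.1.2, V z0.1.1⟫
    rw [← hv0, real_inner_self_eq_norm_sq, z0.2.2.2]; positivity
  · rintro ⟨⟨x, w⟩, hz⟩ ⟨hzA, hpos⟩ hnot h0
    apply hnot
    have hxU : x ∈ U := hAU _ hzA
    have hf : Fr x (r⁻¹ • V x) := (mem_bundle_iff hr).1 (h.2.2.2 x hxU)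
    have hpos' : 0 < ⟪w, V x⟫ := hpos
    have h0' : ⟪w, cross x (V x)⟫ = 0 := h0
    have e := hf.expand w
    have a1 : ⟪x, w⟫ = 0 := hz.2.1
    have a2 : ⟪cross x (r⁻¹ • V x), w⟫ = 0 := by
      have : ⟪cross x (r⁻¹ • V x), w⟫ = r⁻¹ * ⟪w, cross x (V x)⟫ := by
        simp only [inner3, PiLp.smul_apply, smul_eq_mul, cross0, cross1, cross2]; ring
      rw [this, h0', mul_zero]
    rw [a1, a2] at e
    set l := ⟪r⁻¹ • V x, w⟫ with hl
    have hl0 : 0 < l := by
      rw [hl, inner_smul_left, real_inner_comm]; simp only [conj_trivial]; positivity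
    have e' : w = l • r⁻¹ • V x := by rw [← e]; simp [fr]
    have hn : ‖w‖ = r := hz.2.2
    rw [e', norm_smul, norm_of_inner_self hf.2.2, mul_one, Real.norm_of_nonneg hl0.le] at hn
    have : w = V x := by rw [e', hn, smul_smul, mul_inv_cancel₀ hr.ne', one_smul]
    exact subset_closure ⟨x, hxU, Prod.ext rfl this.symm⟩

/-- The line of frames sending `c` to `y` meets `S` at most once. -/
def Once (r : ℝ) (S : Set (E3 × E3)) (c y : E3) : Prop :=
  ∀ z ∈ S, ∀ z' ∈ S, fr z.1 (r⁻¹ • z.2) c = y → fr z'.1 (r⁻¹ • z'.2) c = y → z = z'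

theorem Once.notMem {r : ℝ} (hr : 0 < r) {S : Set (E3 × E3)} {x : Hq} {c : E3}
    (h : Once r S c (rq x c)) (hx : ⟪x, x⟫ = 1) (hc : ⟪c, c⟫ = 1) {t0 t : ℝ}
    (h0 : fq r (x * ex c t0) ∈ S) (ht : Real.sin (t - t0) ≠ 0) : fq r (x * ex c t) ∉ S := by
  intro h1
  have u := fun s => unit_mul hx (ex_unit hc s)
  have := inner_sq_of_fq hr (u t) (u t0) (h _ h1 _ h0 (by rw [fr_fq hr (u t), rq_mul, rq_ex hc])
    (by rw [fr_fq hr (u t0), rq_mul, rq_ex hc]))
  rw [inner_mul_left, hx, one_mul, inner_ex hc] at this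
  exact ht (pow_eq_zero_iff two_ne_zero |>.1 (by linarith [Real.sin_sq_add_cos_sq (t - t0)]))

theorem once_fibre {r : ℝ} {U : Set E3} {V : E3 → E3} (h : IsVectorField r U V) {p : E3}
    (hp : p ∈ U) : Once r (graphClosure U V) (vec 1 0 0) p := fun z hz z' hz' e e' => by
  rw [fr_e0] at e e'
  exact Prod.ext (e.trans e'.symm) (by
    rw [h.eq_of_mem hz (e ▸ hp), h.eq_of_mem hz' (e' ▸ hp), e, e'])

theorem exists_odd {r : ℝ} (hr : 0 < r) {U : Set E3} {V : E3 → E3} (h : IsVectorField r U V)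
    (hsurf : IsSurface (graphClosure U V)) : ∃ w : Hq → ℤˣ,
      ContinuousOn w {x | ⟪x, x⟫ = 1 ∧ fq r x ∉ graphClosure U V} ∧
      ∀ x, ⟪x, x⟫ = 1 → fq r x ∉ graphClosure U V → w (-x) = -w x := by
  obtain ⟨Z, _, pr, v, cov, hsur, hext, hv, hflip⟩ := exists_cover
    (S := (Subtype.val ⁻¹' graphClosure U V : Set (sphereBundle r)))
    (isClosed_closure.preimage continuous_subtype_val) (exists_localSide hr h.subset_bundle hsurf)
  obtain ⟨x0, hx0⟩ := h.nonempty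
  obtain ⟨q, hq, hq0⟩ := exists_fq hr (h.2.2.2 x0 hx0)
  have hqS : fq r q ∈ graphClosure U V := hq0 ▸ subset_closure ⟨x0, hx0, rfl⟩
  have nn : ∀ {x : Hq}, ⟪x, x⟫ = 1 → ‖x‖ = 1 := fun hx => by
    rw [norm_eq_sqrt_real_inner, hx, Real.sqrt_one]
  have hn := nn hq
  have hu : ∀ w, ⟪(stereoInvFun hn w : Hq), (stereoInvFun hn w : Hq)⟫ = 1 := fun w => by
    rw [real_inner_self_eq_norm_sq, norm_eq_of_mem_sphere, one_pow]
  have hic : Continuous fun w => (stereoInvFun hn w : Hq) :=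
    continuous_subtype_val.comp (continuous_stereoInvFun hn)
  obtain ⟨a0, ha0⟩ := hsur ⟨fq r (stereoInvFun hn 0), fq_mem hr (hu 0)⟩
  obtain ⟨F, ⟨-, hF⟩, -⟩ := cov.existsUnique_continuousMap_lifts
    (⟨fun w => ⟨fq r (stereoInvFun hn w), fq_mem hr (hu w)⟩,
      ((continuous_fq r).comp hic).subtype_mk _⟩ : C((ℝ ∙ q)ᗮ, sphereBundle r)) 0 a0 ha0
  have hF1 : ∀ w, (pr (F w)).1 = fq r (stereoInvFun hn w) := fun w =>
    congrArg Subtype.val (congrFun hF w)
  let G : Hq → Z := fun x => F (stereoToFun q x)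
  have hinv : ∀ x, ⟪x, x⟫ = 1 → x ≠ q → (stereoInvFun hn (stereoToFun q x) : Hq) = x :=
    fun x hx hxq => congrArg Subtype.val
      (stereo_left_inv hn (x := ⟨x, mem_sphere_zero_iff_norm.2 (nn hx)⟩) hxq)
  have hG1 : ∀ x, ⟪x, x⟫ = 1 → x ≠ q → (pr (G x)).1 = fq r x := fun x hx hxq => by
    rw [hF1, hinv x hx hxq]
  have hGc : ∀ x, ⟪x, x⟫ = 1 → x ≠ q → ContinuousAt G x := fun x hx hxq =>
    F.continuous.continuousAt.comp (continuousOn_stereoToFun.continuousAt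
      ((isOpen_ne_fun (innerSL ℝ q).continuous continuous_const).mem_nhds fun e =>
        hxq ((inner_eq_one_iff_of_norm_eq_one (𝕜 := ℝ) hn (nn hx)).1 e).symm))
  have hne : ∀ x, fq r x ∉ graphClosure U V → x ≠ q := by
    rintro x hx rfl
    exact hx hqS
  have hneg : ∀ {x : Hq}, ⟪x, x⟫ = 1 → ⟪-x, -x⟫ = 1 := fun hx => by rwa [inner_neg_neg]
  have hqq : -q ≠ q := fun e => by
    have := inner_neg_left (𝕜 := ℝ) q q
    rw [e, hq] at this
    norm_num at this
  have hz : stereoToFun q (-q) = 0 :=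
    stereographic_apply_neg (⟨q, mem_sphere_zero_iff_norm.2 hn⟩ : sphere (0 : Hq) 1)
  have hcw : ContinuousOn (fun x => v (G x)) {x | ⟪x, x⟫ = 1 ∧ fq r x ∉ graphClosure U V} :=
    hv.comp (fun x hx => (hGc x hx.1 (hne x hx.2)).continuousWithinAt) fun x hx hm =>
      hx.2 (hG1 x hx.1 (hne x hx.2) ▸ hm)
  refine ⟨fun x => v (G x), hcw, fun x hx hxS => Int.units_ne_iff_eq_neg.1 fun hvx => ?_⟩
  have hs0 : ∀ y, ⟪y, y⟫ = 1 → fq r y ∉ graphClosure U V → stereoToFun q y ≠ 0 := by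
    intro y hy hyS e
    have := hinv y hy (hne y hyS)
    rw [e, ← hz, hinv _ (hneg hq) hqq] at this
    exact hyS (by rw [← this, fq_neg]; exact hqS)
  have hs1 : ∀ w : (ℝ ∙ q)ᗮ, w ≠ 0 → -(stereoInvFun hn w : Hq) ≠ q := fun w hw e =>
    hw (by rw [← stereo_right_inv hn w, neg_eq_iff_eq_neg.1 e, hz])
  have hpc : IsPreconnected ({0}ᶜ : Set (ℝ ∙ q)ᗮ) := by
    refine (isPathConnected_compl_singleton_of_one_lt_rank ?_ 0).isConnected.isPreconnected
    have : Fact (Module.finrank ℝ Hq = 3 + 1) := ⟨Quaternion.finrank_eq_four⟩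
    rw [← Module.finrank_eq_rank, Submodule.finrank_orthogonal_span_singleton (n := 3)
      (by rintro rfl; simp at hn)]
    norm_num
  have heq := cov.eqOn_of_comp_eqOn (g₁ := F) (g₂ := fun w => G (-(stereoInvFun hn w : Hq))) hpc
    F.continuous.continuousOn
    (fun w hw => ((hGc _ (hneg (hu w)) (hs1 w hw)).comp (f := fun w => -(stereoInvFun hn w : Hq))
      hic.neg.continuousAt).continuousWithinAt)
    (fun w hw => Subtype.ext (by
      show (pr (F w)).1 = (pr (G _)).1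
      rw [hF1, hG1 _ (hneg (hu w)) (hs1 w hw), fq_neg])) (hs0 x hx hxS) (by
      show G x = G _
      rw [hinv x hx (hne x hxS)]
      refine hext _ _ (Subtype.ext ?_) hvx.symm
      rw [hG1 x hx (hne x hxS), hG1 _ (hneg hx) (hne _ (by rwa [fq_neg])), fq_neg])
  have hev : ∀ y, ⟪y, y⟫ = 1 → fq r y ∉ graphClosure U V → G y = G (-y) := fun y hy hyS => by
    have := heq (hs0 y hy hyS)
    dsimp only at this
    rwa [hinv y hy (hne y hyS)] at this
  have hi := fr_vec.1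
  have hqx : rq q (vec 1 0 0) = x0 := congrArg Prod.fst hq0
  have hqv : r • rq q (vec 0 1 0) = V x0 := congrArg Prod.snd hq0
  have uy := fun s => unit_mul hq (ex_unit hi s)
  have hoff : ∀ s, Real.sin s ≠ 0 → fq r (q * ex (vec 1 0 0) s) ∉ graphClosure U V := fun s hs =>
    Once.notMem hr (hqx ▸ once_fibre h hx0) hq hi (t0 := 0) (by rwa [ex_zero, mul_one])
      (by rwa [sub_zero])
  have e0 : (pr (G (-q))).1 = (x0, V x0) := by rw [hG1 _ (hneg hq) hqq, fq_neg, hq0]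
  obtain ⟨N, hN, hg, hg0⟩ := local_eq hr h (z0 := pr (G (-q))) (by rw [e0]; exact hx0) (by rw [e0])
  obtain ⟨W, hW, hWs⟩ := hflip (G (-q)) (show (pr (G (-q))).1 ∈ _ by rw [e0, ← hq0]; exact hqS)
    N hN _ hg hg0
  have hy : ContinuousAt (fun s => G (q * ex (vec 1 0 0) (s + Real.pi))) 0 := by
    refine ContinuousAt.comp (g := G) ?_ (Continuous.continuousAt (by fun_prop))
    rw [ex_add_pi, ex_zero, mul_neg, mul_one]
    exact hGc _ (hneg hq) hqq
  have hW' : ∀ᶠ s in 𝓝 (0 : ℝ), G (q * ex (vec 1 0 0) (s + Real.pi)) ∈ W :=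
    hy.preimage_mem_nhds (by rwa [ex_add_pi, ex_zero, mul_neg, mul_one])
  have hW'' : ∀ᶠ s in 𝓝 (0 : ℝ), G (q * ex (vec 1 0 0) (-s + Real.pi)) ∈ W :=
    (continuous_neg.tendsto' (0 : ℝ) 0 neg_zero).eventually hW'
  obtain ⟨s, ⟨h1, h2⟩, hs⟩ := (((hW'.and hW'').filter_mono nhdsWithin_le_nhds).and
    (Ioo_mem_nhdsGT Real.pi_pos)).exists
  have hsin : ∀ t ∈ Ioo 0 Real.pi, Real.sin t ≠ 0 := fun t ht =>
    (Real.sin_pos_of_pos_of_lt_pi ht.1 ht.2).ne'
  have o1 := hoff (s + Real.pi) (by rw [Real.sin_add_pi]; exact neg_ne_zero.2 (hsin s hs))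
  have hs' : -s + Real.pi ∈ Ioo 0 Real.pi := ⟨by linarith [hs.2], by linarith [hs.1]⟩
  have o2 := hoff _ (hsin _ hs')
  have key := hWs _ h1 _ h2 (fun hm => o1 (hG1 _ (uy _) (hne _ o1) ▸ hm))
    (fun hm => o2 (hG1 _ (uy _) (hne _ o2) ▸ hm)) (by
      rw [ex_add_pi, mul_neg, ← hev _ (uy s) (hoff s (hsin s hs))]
      exact (isPreconnected_Ioo.image (fun t => q * ex (vec 1 0 0) t)
        (Continuous.continuousOn (by fun_prop))).constant (hcw.mono (by
          rintro _ ⟨t, ht, rfl⟩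
          exact ⟨uy t, hoff t (hsin t ht)⟩)) ⟨_, hs, rfl⟩ ⟨_, hs', rfl⟩)
  rw [hG1 _ (uy _) (hne _ o1), hG1 _ (uy _) (hne _ o2)] at key
  simp only [fq, rq_ex_fibre q hq, rq_mul q _ (vec 1 0 0), rq_ex hi, hqx, ← hqv] at key
  have e : ∀ t, ⟪r • rot x0 t (rq q (vec 0 1 0)), cross x0 (r • rq q (vec 0 1 0))⟫ = Real.sin t *
      (r ^ 2 * ⟪cross x0 (rq q (vec 0 1 0)), cross x0 (rq q (vec 0 1 0))⟫) := by
    intro t
    simp only [rot, inner3, PiLp.add_apply, PiLp.smul_apply, smul_eq_mul, cross0, cross1, cross2]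
    ring
  rw [e, e, mul_add, mul_add, Real.sin_add_two_pi, Real.sin_add_two_pi, mul_neg,
    Real.sin_neg] at key
  nlinarith [sq_nonneg (Real.sin (2 * s) *
    (r ^ 2 * ⟪cross x0 (rq q (vec 0 1 0)), cross x0 (rq q (vec 0 1 0))⟫))]

/-- `u` is the sign of a linear form along the great circle through `x` with axis `c`. -/
def Good (u : Hq → ℝ) (x : Hq) (c : E3) (t0 : ℝ) : Prop :=
  ∀ t, u (x * ex c t) = Real.sign (Real.sin (t - t0))

theorem good_of_arc {u : Hq → ℝ} (hodd : ∀ y, ⟪y, y⟫ = 1 → u (-y) = -u y) {x : Hq} {c : E3}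
    (hx : ⟪x, x⟫ = 1) (hc : ⟪c, c⟫ = 1) {t0 : ℝ} (h0 : u (x * ex c t0) = 0)
    (h1 : ∀ s ∈ Ioo 0 Real.pi, u (x * ex c (s + t0)) = 1) : Good u x c t0 := by
  have hp : ∀ s, u (x * ex c (s + Real.pi + t0)) = -u (x * ex c (s + t0)) := fun s => by
    rw [add_right_comm, ex_add_pi, mul_neg, hodd _ (unit_mul hx (ex_unit hc _))]
  have hper : Function.Periodic (fun s => u (x * ex c (s + t0)) - Real.sign (Real.sin s))
      (2 * Real.pi) := fun s => by
    simp only [Real.sin_add_two_pi]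
    rw [two_mul, ← add_assoc, hp, hp, neg_neg]
  have hhalf : ∀ s ∈ Ico 0 Real.pi, u (x * ex c (s + t0)) = Real.sign (Real.sin s) := by
    intro s hs
    rcases hs.1.eq_or_lt with rfl | h
    · simpa using h0
    · rw [h1 s ⟨h, hs.2⟩, Real.sign_of_pos (Real.sin_pos_of_pos_of_lt_pi h hs.2)]
  intro t
  obtain ⟨s, hs, e⟩ := hper.exists_mem_Ico₀ Real.two_pi_pos (t - t0)
  rw [sub_add_cancel] at e
  rw [← sub_eq_zero, e, sub_eq_zero]
  rcases lt_or_ge s Real.pi with h | h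
  · exact hhalf s ⟨hs.1, h⟩
  · have := hhalf (s - Real.pi) ⟨by linarith, by linarith [hs.2]⟩
    rw [← sub_add_cancel s Real.pi, hp, this, Real.sin_add_pi, Real.sign_neg]

theorem exists_sign {r : ℝ} (hr : 0 < r) {U : Set E3} {V : E3 → E3} (h : IsVectorField r U V)
    (hsurf : IsSurface (graphClosure U V)) : ∃ u : Hq → ℝ, Measurable u ∧ (∀ x, |u x| ≤ 1) ∧
      ∀ x c, ⟪x, x⟫ = 1 → ⟪c, c⟫ = 1 → Once r (graphClosure U V) c (rq x c) →
        ∃ t0, fq r (x * ex c t0) ∈ graphClosure U V ∧ Good u x c t0 := by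
  classical
  obtain ⟨w, hw, hodd⟩ := exists_odd hr h hsurf
  set T := {x : Hq | ⟪x, x⟫ = 1 ∧ fq r x ∉ graphClosure U V} with hT
  have hTm : MeasurableSet T := (isClosed_eq (by fun_prop) continuous_const).measurableSet.inter
    (isClosed_closure.preimage (continuous_fq r)).measurableSet.compl
  let u : Hq → ℝ := T.piecewise (fun x => ((w x : ℤ) : ℝ)) fun _ => 0
  have u1 : ∀ x ∈ T, u x = ((w x : ℤ) : ℝ) := fun x hx => piecewise_eq_of_mem _ _ _ hx
  have u0 : ∀ x, x ∉ T → u x = 0 := fun x hx => piecewise_eq_of_notMem _ _ _ hx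
  have hu : ∀ y, ⟪y, y⟫ = 1 → u (-y) = -u y := fun y hy => by
    by_cases hS : fq r y ∈ graphClosure U V
    · rw [u0 y fun a => a.2 hS, u0 _ fun a => a.2 (by rwa [fq_neg]), neg_zero]
    · rw [u1 y ⟨hy, hS⟩, u1 _ ⟨by rwa [inner_neg_neg], by rwa [fq_neg]⟩, hodd y hy hS]; simp
  refine ⟨u, ContinuousOn.measurable_piecewise
    ((continuous_of_discreteTopology (f := fun a : ℤˣ => ((a : ℤ) : ℝ))).comp_continuousOn hw)
    continuousOn_const hTm, fun x => ?_, fun x c hx hc ho => ?_⟩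
  · by_cases hx : x ∈ T
    · rw [u1 x hx]
      rcases Int.units_eq_one_or (w x) with e | e <;> simp [e]
    · simp [u0 x hx]
  have uy := fun s => unit_mul hx (ex_unit hc s)
  have hconst : ∀ I : Set ℝ, IsPreconnected I → (∀ t ∈ I, fq r (x * ex c t) ∉ graphClosure U V) →
      ∀ s ∈ I, ∀ t ∈ I, w (x * ex c s) = w (x * ex c t) := fun I hI hS s hs t ht =>
    (hI.image (fun t => x * ex c t) (Continuous.continuousOn (by fun_prop))).constant
      (hw.mono (by rintro _ ⟨t, ht, rfl⟩; exact ⟨uy t, hS t ht⟩)) ⟨_, hs, rfl⟩ ⟨_, ht, rfl⟩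
  obtain ⟨t1, h1⟩ : ∃ t, fq r (x * ex c t) ∈ graphClosure U V := by
    by_contra hc'
    push Not at hc'
    have := hconst univ isPreconnected_univ (fun t _ => hc' t) (0 + Real.pi) trivial 0 trivial
    rw [ex_add_pi, mul_neg, hodd _ (uy 0) (hc' 0)] at this
    rcases Int.units_eq_one_or (w (x * ex c 0)) with e | e <;> rw [e] at this <;>
      exact absurd this (by decide)
  have harc : ∀ t0, fq r (x * ex c t0) ∈ graphClosure U V →
      w (x * ex c (Real.pi / 2 + t0)) = 1 → Good u x c t0 := fun t0 h0 e => by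
    have hS : ∀ t ∈ Ioo t0 (Real.pi + t0), fq r (x * ex c t) ∉ graphClosure U V := fun t ht =>
      ho.notMem hr hx hc h0
        (Real.sin_pos_of_pos_of_lt_pi (by linarith [ht.1]) (by linarith [ht.2])).ne'
    refine good_of_arc hu hx hc (u0 _ fun a => a.2 h0) fun s hs => ?_
    have hs' : s + t0 ∈ Ioo t0 (Real.pi + t0) := ⟨by linarith [hs.1], by linarith [hs.2]⟩
    rw [u1 _ ⟨uy _, hS _ hs'⟩, hconst _ isPreconnected_Ioo hS _ hs' (Real.pi / 2 + t0)
      ⟨by linarith [Real.pi_pos], by linarith [Real.pi_pos]⟩, e]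
    simp
  rcases Int.units_eq_one_or (w (x * ex c (Real.pi / 2 + t1))) with e | e
  · exact ⟨t1, h1, harc t1 h1 e⟩
  · have h2 : fq r (x * ex c (t1 + Real.pi)) ∈ graphClosure U V := by
      rwa [ex_add_pi, mul_neg, fq_neg]
    refine ⟨_, h2, harc _ h2 ?_⟩
    rw [← add_assoc, ex_add_pi, mul_neg, hodd _ (uy _) (ho.notMem hr hx hc h1 (by simp)), e,
      neg_neg]

end Pool.Agent.Lib.MP_396e7f_gt.St
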